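import Mathlib
import Pool.Prelude.Def_F_458e953d

set_option autoImplicit false

/-!
# The Hadamard decomposition problem and the existential theory of the reals: definitions
-/

namespace Pool.Agent.Hadamard

open N487b59b3 N68a2faeb N793a5b8e

/-- Polynomials with integer coefficients in the variables `x 0, x 1, …`, written as expressions
with natural number constants, variables, negation, sums and products. -/
inductive PolyExpr : Type
  | const (n : ℕ)
  | var (i : ℕ)
  | neg (p : PolyExpr)
  | add (p q : PolyExpr)
  | mul (p q : PolyExpr)

/-- The value of a polynomial at a real point. -/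
def PolyExpr.eval (x : ℕ → ℝ) : PolyExpr → ℝ
  | .const n => n
  | .var i => x i
  | .neg p => -p.eval x
  | .add p q => p.eval x + q.eval x
  | .mul p q => p.eval x * q.eval x

/-- Quantifier-free formulas: Boolean combinations of equalities and inequalities between
polynomials with integer coefficients. -/
inductive Formula : Type
  | eq (p q : PolyExpr)
  | lt (p q : PolyExpr)
  | le (p q : PolyExpr)
  | not (φ : Formula)
  | and (φ ψ : Formula)
  | or (φ ψ : Formula)

/-- The formula holds at the real point `x`. -/
def Formula.Holds (x : ℕ → ℝ) : Formula → Prop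
  | .eq p q => p.eval x = q.eval x
  | .lt p q => p.eval x < q.eval x
  | .le p q => p.eval x ≤ q.eval x
  | .not φ => ¬ φ.Holds x
  | .and φ ψ => φ.Holds x ∧ ψ.Holds x
  | .or φ ψ => φ.Holds x ∨ ψ.Holds x

/-- A polynomial in prefix notation. Every symbol is a pair of natural numbers: the kind of the
symbol, and the value of a constant or the index of a variable. -/
def PolyExpr.tokens : PolyExpr → List (ℕ × ℕ)
  | .const n => [(0, n)]
  | .var i => [(1, i)]
  | .neg p => (2, 0) :: p.tokens
  | .add p q => (3, 0) :: (p.tokens ++ q.tokens)
  | .mul p q => (4, 0) :: (p.tokens ++ q.tokens)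

/-- A formula in prefix notation. -/
def Formula.tokens : Formula → List (ℕ × ℕ)
  | .eq p q => (5, 0) :: (p.tokens ++ q.tokens)
  | .lt p q => (6, 0) :: (p.tokens ++ q.tokens)
  | .le p q => (7, 0) :: (p.tokens ++ q.tokens)
  | .not φ => (8, 0) :: φ.tokens
  | .and φ ψ => (9, 0) :: (φ.tokens ++ ψ.tokens)
  | .or φ ψ => (10, 0) :: (φ.tokens ++ ψ.tokens)

open Classical in
/-- The existential theory of the reals as a decision problem: is the given bit string the code of
a quantifier-free formula `φ` for which `∃ x, φ x` is true over the real numbers? The codes of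
lists, of pairs and of natural numbers (in binary) are those of `Pool.Prelude`. -/
noncomputable def ETR : DecisionProblem := fun w =>
  decide (∃ φ : Formula, w = bitEncode φ.tokens ∧ ∃ x : ℕ → ℝ, φ.Holds x)

/-- The complexity class `∃ℝ`: all decision problems with a polynomial-time many-one reduction
to `ETR`. -/
def ExistsR : DecisionComplexityClass := { L | ManyOneReducible L ETR }

/-- `M` has a Hadamard decomposition with ranks `k₁` and `k₂`. -/
def HasHadamardDecomposition {m n : ℕ} (M : Matrix (Fin m) (Fin n) ℚ) (k₁ k₂ : ℕ) : Prop :=
  ∃ M₁ M₂ : Matrix (Fin m) (Fin n) ℝ, M₁.rank = k₁ ∧ M₂.rank = k₂ ∧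
    ∀ i j, (M i j : ℝ) = M₁ i j * M₂ i j

/-- The code of an instance: the list of the rows of `M` (lists of rational numbers, in binary),
together with the numbers `k₁` and `k₂` (in binary). -/
def encodeInstance {m n : ℕ} (M : Matrix (Fin m) (Fin n) ℚ) (k₁ k₂ : ℕ) : List Bool :=
  bitEncode ((List.ofFn fun i => List.ofFn fun j => M i j), k₁, k₂)

open Classical in
/-- The Hadamard decomposition problem. -/
noncomputable def HadamardDecompositionProblem : DecisionProblem := fun w =>
  decide (∃ (m n : ℕ) (M : Matrix (Fin m) (Fin n) ℚ) (k₁ k₂ : ℕ),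
    w = encodeInstance M k₁ k₂ ∧ HasHadamardDecomposition M k₁ k₂)

end Pool.Agent.Hadamard
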