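import Pool.Agent.Lib_MP_c79a71_lc.Frames
import Pool.Agent.Lib_MP_c79a71_lc.Defs

set_option autoImplicit false
set_option linter.unusedSectionVars false
set_option linter.unusedSimpArgs false
set_option linter.unusedVariables false

/-!
The integer matrix of a list of rows and a list of columns.
-/

namespace Pool.Agent.Hadamard

open Matrix

/-- coefficient -/
def coef (ρ : SV) (x : ℕ × ℕ) : ℤ :=
  (ρ.map (fun e => if e.1 = x then (if e.2 then (1 : ℤ) else -1) else 0)).sum

/-- entry of the matrix -/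
def ent (ρ : SV) (γ : SV × ℕ) : ℤ :=
  (γ.1.map (fun e => if e.2 then coef ρ e.1 else -coef ρ e.1)).sum + (γ.2 : ℤ) * coef ρ (0, 0)

/-- the matrix -/
def matOf (R : List SV) (C : List (SV × ℕ)) : Matrix (Fin R.length) (Fin C.length) ℚ :=
  fun i j => (ent R[i] C[j] : ℚ)

variable {n k : ℕ}

theorem rv_eq_coef (ρ : SV) (a : ℕ) (i : Fin n) : rv n ρ a i = (coef ρ (a, (i : ℕ)) : ℝ) := by
  simp only [rv, coef]
  induction ρ with
  | nil => simp
  | cons e ρ ih =>
    simp only [List.map_cons, List.sum_cons, Int.cast_add, ih, sg]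
    congr 1
    split_ifs <;> simp

theorem sum_coef (ρ : SV) (x : ℕ × ℕ) (h1 : x.1 < k) (h2 : x.2 < n) (c : ℝ) :
    ∑ a : Fin k, ∑ b : Fin n, rv n ρ a b * (if x = ((a : ℕ), (b : ℕ)) then c else 0) =
      (coef ρ x : ℝ) * c := by
  rw [Finset.sum_eq_single (⟨x.1, h1⟩ : Fin k)]
  · rw [Finset.sum_eq_single (⟨x.2, h2⟩ : Fin n)]
    · simp [rv_eq_coef]
    · intro b _ hb
      have : ¬ (x = (x.1, (b : ℕ))) := by
        intro h
        apply hb
        ext
        exact (congrArg Prod.snd h).symm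
      simp [this]
    · simp
  · intro a _ ha
    apply Finset.sum_eq_zero
    intro b _
    have : ¬ (x = ((a : ℕ), (b : ℕ))) := by
      intro h
      apply ha
      ext
      exact (congrArg Prod.fst h).symm
    simp [this]
  · simp

theorem ent_eq (ρ : SV) (γ : SV × ℕ) (hk : 0 < k) (hn : 0 < n)
    (hγ : ∀ e ∈ γ.1, e.1.1 < k ∧ e.1.2 < n) :
    ∑ a : Fin k, ∑ b : Fin n, rv n ρ a b * cv n γ a b = (ent ρ γ : ℝ) := by
  obtain ⟨γ, m⟩ := γ
  simp only at hγ
  have h1 : ∑ a : Fin k, ∑ b : Fin n, rv n ρ a b * rv n γ a b =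
      ((γ.map (fun e => if e.2 then coef ρ e.1 else -coef ρ e.1)).sum : ℤ) := by
    induction γ with
    | nil => simp [rv]
    | cons e γ ih =>
      have ih' := ih (fun e' he' => hγ e' (by simp [he']))
      obtain ⟨h2, h3⟩ := hγ e (by simp)
      have h4 := sum_coef (k := k) (n := n) ρ e.1 h2 h3 (sg e.2)
      simp only [List.map_cons, List.sum_cons, Int.cast_add, ← ih']
      have h5 : ∀ (a : Fin k) (b : Fin n), rv n ρ a b * rv n (e :: γ) a b =
          rv n ρ a b * (if e.1 = ((a : ℕ), (b : ℕ)) then sg e.2 else 0) +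
            rv n ρ a b * rv n γ a b := by
        intro a b
        rw [← mul_add]
        congr 1
      simp only [h5, Finset.sum_add_distrib]
      rw [h4]
      congr 1
      cases e.2 <;> simp [sg]
  have h2 := sum_coef (k := k) (n := n) ρ (0, 0) hk hn (m : ℝ)
  have h3 : ∀ (a : Fin k) (b : Fin n), rv n ρ a b * cv n (γ, m) a b =
      rv n ρ a b * rv n γ a b + rv n ρ a b * (if ((0 : ℕ), (0 : ℕ)) = ((a : ℕ), (b : ℕ))
        then (m : ℝ) else 0) := by
    intro a b
    rw [← mul_add]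
    congr 1
    simp only [cv, Prod.mk.injEq, eq_comm]
  simp only [h3, Finset.sum_add_distrib]
  rw [h1, h2, ent]
  push_cast
  ring

theorem single_of_rv {x y : ℕ} (hx : x < k) (hy : y < n) :
    (fun (a : Fin k) => rv n [((x, y), true)] a) =
      Pi.single (⟨x, hx⟩ : Fin k) (Pi.single (⟨y, hy⟩ : Fin n) (1 : ℝ)) := by
  funext a
  rw [rv_single]
  by_cases h : (a : ℕ) = x
  · have : a = ⟨x, hx⟩ := Fin.ext h
    rw [if_pos h, this, Pi.single_eq_same, e_eq_single hy]
  · have : a ≠ ⟨x, hx⟩ := fun h' => h (congrArg Fin.val h')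
    rw [if_neg h, Pi.single_eq_of_ne this]

theorem pair_of_rv {x y y' : ℕ} (hx : x < k) (hy : y < n) (hy' : y' < n) :
    (fun (a : Fin k) => rv n [((x, y), true), ((x, y'), true)] a) =
      Pi.single (⟨x, hx⟩ : Fin k) (Pi.single (⟨y, hy⟩ : Fin n) (1 : ℝ)) +
        Pi.single (⟨x, hx⟩ : Fin k) (Pi.single (⟨y', hy'⟩ : Fin n) (1 : ℝ)) := by
  rw [← single_of_rv hx hy, ← single_of_rv hx hy']
  funext a
  rw [rv_clique, Pi.add_apply, rv_single, rv_single]
  split_ifs <;> simp

theorem bridge (hk : 0 < k) (hkn : k < n) (R : List SV) (C : List (SV × ℕ))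
    (hC : ∀ γ ∈ C, ∀ e ∈ γ.1, e.1.1 < k ∧ e.1.2 < n)
    (hR1 : ∀ a < k, ∀ b < n, [((a, b), true)] ∈ R)
    (hC1 : ∀ a < k, ∀ b < n, ([((a, b), true)], 0) ∈ C)
    (hR2 : ∀ a < k, ∀ b < n, ∀ b' < b, [((a, b), true), ((a, b'), true)] ∈ R) :
    HasHadamardDecomposition (matOf R C) k n ↔ ∃ F, Good k n R C F := by
  classical
  have hn : 0 < n := by omega
  let R' : Fin R.length → Fin k → Fin n → ℝ := fun i a => rv n R[i] a
  let C' : Fin C.length → Fin k → Fin n → ℝ := fun j a => cv n C[j] a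
  have h1 : ∀ (a : Fin k) (b : Fin n), ∃ i, R' i = Pi.single a (Pi.single b 1) := by
    intro a b
    obtain ⟨i, hi, h⟩ := List.getElem_of_mem (hR1 a a.2 b b.2)
    refine ⟨⟨i, hi⟩, ?_⟩
    simp only [R', Fin.getElem_fin, h]
    exact single_of_rv a.2 b.2
  have h2 : ∀ (a : Fin k) (b : Fin n), ∃ j, C' j = Pi.single a (Pi.single b 1) := by
    intro a b
    obtain ⟨i, hi, h⟩ := List.getElem_of_mem (hC1 a a.2 b b.2)
    refine ⟨⟨i, hi⟩, ?_⟩
    simp only [C', Fin.getElem_fin, h, cv_zero]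
    exact single_of_rv a.2 b.2
  have h3 : ∀ (a : Fin k) (b b' : Fin n), b ≠ b' →
      ∃ i, R' i = Pi.single a (Pi.single b 1) + Pi.single a (Pi.single b' 1) := by
    have key : ∀ (a : Fin k) (b b' : Fin n), (b' : ℕ) < b →
        ∃ i, R' i = Pi.single a (Pi.single b 1) + Pi.single a (Pi.single b' 1) := by
      intro a b b' hb
      obtain ⟨i, hi, h⟩ := List.getElem_of_mem (hR2 a a.2 b b.2 b' hb)
      refine ⟨⟨i, hi⟩, ?_⟩
      simp only [R', Fin.getElem_fin, h]
      exact pair_of_rv a.2 b.2 b'.2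
    intro a b b' hb
    have : (b : ℕ) ≠ b' := fun h => hb (Fin.ext h)
    rcases Nat.lt_or_gt_of_ne this with h | h
    · obtain ⟨i, hi⟩ := key a b' b h
      exact ⟨i, by rw [hi, add_comm]⟩
    · exact key a b b' h
  have hent : ∀ (i : Fin R.length) (j : Fin C.length),
      ∑ a, ∑ b, R' i a b * C' j a b = ((matOf R C i j : ℚ) : ℝ) := by
    intro i j
    have := ent_eq (k := k) (n := n) R[i] C[j] hk hn (hC _ (List.getElem_mem _))
    simp only [matOf, Rat.cast_intCast]
    exact this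
  constructor
  · rintro ⟨M₁, M₂, hM1, hM2, hM⟩
    obtain ⟨F, hF1, hF2, hF3⟩ := core_mp (K := Fin k) (N := Fin n) R' C' (by simpa using hk)
      (by simpa using hkn) h1 h2 h3 M₁ M₂ (by simpa using hM1) (by simpa using hM2)
      (fun i j => (hent i j).trans (hM i j))
    refine ⟨fun a => if h : a < k then F ⟨a, h⟩ else 1, ?_, ?_, ?_⟩
    · intro a ha
      simp only [dif_pos ha]
      exact hF1 _
    · intro ρ hρ
      obtain ⟨i, hi, rfl⟩ := List.getElem_of_mem hρ
      obtain ⟨u, s, hs⟩ := hF2 ⟨i, hi⟩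
      refine ⟨u, fun a => if h : a < k then s ⟨a, h⟩ else 0, fun a ha => ?_⟩
      simp only [dif_pos ha]
      exact hs ⟨a, ha⟩
    · intro γ hγ
      obtain ⟨i, hi, rfl⟩ := List.getElem_of_mem hγ
      obtain ⟨u, s, hs⟩ := hF3 ⟨i, hi⟩
      refine ⟨u, fun a => if h : a < k then s ⟨a, h⟩ else 0, fun a ha => ?_⟩
      simp only [dif_pos ha]
      exact hs ⟨a, ha⟩
  · rintro ⟨F, hF⟩
    obtain ⟨M₁, M₂, hM1, hM2, hM⟩ := core_mpr (K := Fin k) (N := Fin n) R' C' (by simpa using hk)
      (by simpa using hn) h1 h2 (fun a => F a) (fun a => hF.unit a a.2)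
      (fun i => by
        obtain ⟨u, s, hs⟩ := hF.row R[i] (List.getElem_mem _)
        exact ⟨u, fun a => s a, fun a => hs a a.2⟩)
      (fun j => by
        obtain ⟨u, s, hs⟩ := hF.col C[j] (List.getElem_mem _)
        exact ⟨u, fun a => s a, fun a => hs a a.2⟩)
    refine ⟨M₁, M₂, by simpa using hM1, by simpa using hM2, fun i j => ?_⟩
    rw [← hM, hent]

theorem mem_units {K N a b : ℕ} (ha : a < K) (hb : b < N) : [((a, b), true)] ∈ units K N := by
  simp only [units, List.mem_flatMap, List.mem_map, List.mem_range]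
  exact ⟨a, ha, b, hb, rfl⟩

theorem two_range {x x' : ℕ} {c c' : List (ℕ × Bool)} (hx : x < k) (hx' : x' < k)
    (hc : ∀ p ∈ c, p.1 < n) (hc' : ∀ p ∈ c', p.1 < n) :
    ∀ e ∈ two x c x' c', e.1.1 < k ∧ e.1.2 < n := by
  intro e he
  simp only [two, List.mem_append, List.mem_map] at he
  rcases he with ⟨p, hp, rfl⟩ | ⟨p, hp, rfl⟩
  · exact ⟨hx, hc p hp⟩
  · exact ⟨hx', hc' p hp⟩

theorem cols_range {q : ℕ} {cs : List (ℕ × ℕ)} {as ms : List (ℕ × ℕ × ℕ)}
    (hcs : ∀ g ∈ cs, g.1 < q) (has : ∀ g ∈ as, g.1 < q ∧ g.2.1 < q ∧ g.2.2 < q)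
    (γ : SV × ℕ) (hγ : γ ∈ cols q cs as ms) :
    ∀ e ∈ γ.1, e.1.1 < nfr q ms.length ∧ e.1.2 < nfr q ms.length + 2 := by
  have hqn : ∀ i < q, 2 + i < nfr q ms.length + 2 := by intro i hi; unfold nfr; omega
  have k0 : 0 < nfr q ms.length := by unfold nfr; omega
  have k1 : 1 < nfr q ms.length := by unfold nfr; omega
  have kB : ∀ j < q, 2 + j < nfr q ms.length := by intro j hj; unfold nfr; omega
  have kG : ∀ t < ms.length, 2 + q + 2 * t < nfr q ms.length := by intro j hj; unfold nfr; omega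
  have kH : ∀ t < ms.length, 3 + q + 2 * t < nfr q ms.length := by intro j hj; unfold nfr; omega
  simp only [cols, List.mem_append, List.mem_map] at hγ
  rcases hγ with ⟨γ, (((h | h) | h) | h) | h, rfl⟩ | h
  · simp only [units, List.mem_flatMap, List.mem_map, List.mem_range] at h
    obtain ⟨x, hx, y, hy, rfl⟩ := h
    intro e he
    simp only [List.mem_cons, List.not_mem_nil, or_false] at he
    subst he
    exact ⟨hx, hy⟩
  · obtain ⟨c, hc, rfl⟩ := h
    have hc2 : ∀ p ∈ c, p.1 < nfr q ms.length + 2 := by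
      intro p hp
      simp only [low, List.mem_cons, List.not_mem_nil, or_false] at hc
      rcases hc with rfl | rfl | rfl <;> simp only [List.mem_cons, List.not_mem_nil, or_false] at hp
      · subst hp; simp
      · subst hp; simp
      · rcases hp with rfl | rfl <;> simp
    exact two_range k1 k0 hc2 hc2
  · simp only [colsB, List.mem_flatMap, List.mem_map, List.mem_range] at h
    obtain ⟨r, hr, s, hs, s', hs', rfl⟩ := h
    have hp : ∀ s, s < nfr q ms.length + 2 - 1 → pos' s < nfr q ms.length + 2 := by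
      intro s hs
      unfold pos'
      split_ifs <;> omega
    have hc : ∀ p ∈ [(pos' s, true), (pos' s', true)], p.1 < nfr q ms.length + 2 := by
      intro p hp'
      simp only [List.mem_cons, List.not_mem_nil, or_false] at hp'
      rcases hp' with rfl | rfl
      · exact hp s hs
      · exact hp s' (by omega)
    rcases rels_cases hr with ⟨j, hj, rfl⟩ | ⟨t, ht, rfl⟩ | ⟨t, ht, rfl⟩
    · exact two_range (kB j hj) k0 hc hc
    · exact two_range (kG t ht) k0 hc hc
    · exact two_range (kH t ht) k1 hc hc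
  · simp only [colsAdd, List.mem_map] at h
    obtain ⟨g, hg, rfl⟩ := h
    obtain ⟨g1, g2, g3⟩ := has g hg
    have hc : ∀ p ∈ [(2 + g.1, true), (2 + g.2.1, true), (2 + g.2.2, false)],
        p.1 < nfr q ms.length + 2 := by
      intro p hp
      simp only [List.mem_cons, List.not_mem_nil, or_false] at hp
      rcases hp with rfl | rfl | rfl
      · exact hqn _ g1
      · exact hqn _ g2
      · exact hqn _ g3
    exact two_range k1 k0 hc hc
  · simp only [colsMul, List.mem_map, List.mem_range] at h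
    obtain ⟨t, ht, rfl⟩ := h
    have hc : ∀ p ∈ [((1 : ℕ), true)], p.1 < nfr q ms.length + 2 := by
      intro p hp
      simp only [List.mem_cons, List.not_mem_nil, or_false] at hp
      subst hp
      simp
    exact two_range (kH t ht) (kG t ht) hc hc
  · simp only [colsCst, List.mem_map] at h
    obtain ⟨g, hg, rfl⟩ := h
    have hc : ∀ p ∈ [(2 + g.1, true)], p.1 < nfr q ms.length + 2 := by
      intro p hp
      simp only [List.mem_cons, List.not_mem_nil, or_false] at hp
      subst hp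
      exact hqn _ (hcs g hg)
    exact two_range k1 k0 hc hc

/-- The matrix of a system of equations has a Hadamard decomposition with the prescribed ranks if
and only if the system has a solution. -/
theorem hasHadamard_iff {q : ℕ} {cs : List (ℕ × ℕ)} {as ms : List (ℕ × ℕ × ℕ)} (hq : 0 < q)
    (hcs : ∀ g ∈ cs, g.1 < q) (has : ∀ g ∈ as, g.1 < q ∧ g.2.1 < q ∧ g.2.2 < q)
    (hms : ∀ g ∈ ms, g.1 < q ∧ g.2.1 < q ∧ g.2.2 < q)
    (hone : ∀ v : ℕ → ℝ, (∀ g ∈ cs, v g.1 + g.2 = 0) → (∀ g ∈ as, v g.1 + v g.2.1 = v g.2.2) →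
      v 0 = 1) :
    HasHadamardDecomposition (matOf (rows q (ties q ++ ms)) (cols q cs as (ties q ++ ms)))
      (nfr q (ties q ++ ms).length) (nfr q (ties q ++ ms).length + 2) ↔
      ∃ v : ℕ → ℝ, Sat v cs as ms := by
  have hties : ∀ g ∈ ties q, g.1 < q ∧ g.2.1 < q ∧ g.2.2 < q := by
    intro g hg
    obtain ⟨j, hj, rfl⟩ := List.mem_map.1 hg
    have := List.mem_range.1 hj
    exact ⟨hq, this, this⟩
  have hms' : ∀ g ∈ ties q ++ ms, g.1 < q ∧ g.2.1 < q ∧ g.2.2 < q := fun g hg =>
    (List.mem_append.1 hg).elim (hties g) (hms g)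
  rw [bridge (by unfold nfr; omega) (by omega) _ _ (cols_range hcs has)]
  · constructor
    · rintro ⟨F, hF⟩
      exact sat_of_good hq hcs has hms hone hF
    · rintro ⟨v, hv⟩
      have h0 := hone v hv.cst hv.add
      refine good_of_sat hcs has hms' ⟨hv.cst, hv.add, fun g hg => ?_⟩
      rcases List.mem_append.1 hg with hg | hg
      · obtain ⟨j, _, rfl⟩ := List.mem_map.1 hg
        simp [h0]
      · exact hv.mul g hg
  · intro a ha b hb
    have := mem_units ha hb
    simp only [rows, List.mem_append, this, true_or]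
  · intro a ha b hb
    have := mem_units ha hb
    simp only [cols, List.mem_append, List.mem_map]
    exact Or.inl ⟨_, Or.inl (Or.inl (Or.inl (Or.inl this))), rfl⟩
  · intro a ha b hb b' hb'
    have : [((a, b), true), ((a, b'), true)] ∈ cliques (nfr q (ties q ++ ms).length)
        (nfr q (ties q ++ ms).length + 2) := by
      simp only [cliques, List.mem_flatMap, List.mem_map, List.mem_range]
      exact ⟨a, ha, b, hb, b', hb', rfl⟩
    simp only [rows, List.mem_append, this, true_or, or_true]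

end Pool.Agent.Hadamard
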