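import Pool.Agent.Lib_MP_c79a71_lc.Core

set_option autoImplicit false
set_option linter.unusedSectionVars false
set_option linter.unusedSimpArgs false
set_option linter.unusedVariables false

/-!
The rows and columns of the matrix which encodes a system of equations
`v i + n = 0`, `v i + v j = v k`, `v i * v j = v k`.
-/

namespace Pool.Agent.Hadamard

open Matrix

/-- sparse vectors with coefficients `1` (`true`) and `-1` (`false`), indexed by a frame and a
position -/
abbrev SV := List ((ℕ × ℕ) × Bool)

/-- the vector `c` in frame `a` together with the vector `c'` in frame `a'` -/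
def two (a : ℕ) (c : List (ℕ × Bool)) (a' : ℕ) (c' : List (ℕ × Bool)) : SV :=
  c.map (fun p => ((a, p.1), p.2)) ++ c'.map (fun p => ((a', p.1), p.2))

/-- same vector in both frames -/
def same (p : ℕ × ℕ) (c : List (ℕ × Bool)) : SV := two p.1 c p.2 c

/-- the pairs of frames in relation B -/
def rels (q T : ℕ) : List (ℕ × ℕ) :=
  (List.range q).map (fun j => (2 + j, 0)) ++
    (List.range T).flatMap (fun t => [(2 + q + 2 * t, 0), (3 + q + 2 * t, 1)])

/-- number of frames -/
def nfr (q T : ℕ) : ℕ := 2 + q + 2 * T

/-- all unit vectors -/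
def units (K N : ℕ) : List SV :=
  (List.range K).flatMap (fun a => (List.range N).map (fun b => [((a, b), true)]))

/-- sums of two unit vectors in the same frame -/
def cliques (K N : ℕ) : List SV :=
  (List.range K).flatMap (fun a => (List.range N).flatMap (fun b =>
    (List.range b).map (fun b' => [((a, b), true), ((a, b'), true)])))

/-- rows of relation A -/
def rowsA (N : ℕ) : List SV :=
  (List.range (N - 1)).flatMap (fun i => (List.range (i + 1)).map (fun i' =>
    same (1, 0) [(i + 1, true), (i' + 1, true)]))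

/-- the three vectors on the positions `0` and `1` -/
def low : List (List (ℕ × Bool)) := [[(0, true)], [(1, true)], [(0, true), (1, true)]]

/-- rows of relation B -/
def rowsB (q T : ℕ) : List SV := (rels q T).flatMap (fun r => low.map (fun c => same r c))

/-- rows which make the entries of the frame `B j` equal -/
def rowsE (q N : ℕ) : List SV :=
  (List.range q).flatMap (fun j => (List.range (N - 2)).flatMap (fun p =>
    (List.range p).map (fun p' => same (2 + j, 0) [(2 + p, true), (2 + p', false)])))

/-- rows which prescribe the entries of the frames `G t` -/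
def rowsG (q N : ℕ) (ms : List (ℕ × ℕ × ℕ)) : List SV :=
  (List.range ms.length).flatMap (fun t => (List.range (N - 2)).map (fun p =>
    two (2 + q + 2 * t) ((2 + p, true) :: (if p = (ms.getD t (0, 0, 0)).2.2 then [(1, true)] else []))
      (if p = (ms.getD t (0, 0, 0)).1 then 2 + (ms.getD t (0, 0, 0)).2.1 else 0) [(2 + p, true)]))

/-- all rows -/
def rows (q : ℕ) (ms : List (ℕ × ℕ × ℕ)) : List SV :=
  units (nfr q ms.length) (nfr q ms.length + 2) ++ cliques (nfr q ms.length) (nfr q ms.length + 2) ++
    rowsA (nfr q ms.length + 2) ++ rowsB q ms.length ++ rowsE q (nfr q ms.length + 2) ++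
    rowsG q (nfr q ms.length + 2) ms

/-- the positions different from `1` -/
def pos' (s : ℕ) : ℕ := if s = 0 then 0 else s + 1

/-- columns of relation B -/
def colsB (q T N : ℕ) : List SV :=
  (rels q T).flatMap (fun r => (List.range (N - 1)).flatMap (fun s =>
    (List.range (s + 1)).map (fun s' => same r [(pos' s, true), (pos' s', true)])))

/-- columns of the additions -/
def colsAdd (as : List (ℕ × ℕ × ℕ)) : List SV :=
  as.map (fun g => same (1, 0) [(2 + g.1, true), (2 + g.2.1, true), (2 + g.2.2, false)])

/-- columns of the multiplications -/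
def colsMul (q T : ℕ) : List SV :=
  (List.range T).map (fun t => two (3 + q + 2 * t) [(1, true)] (2 + q + 2 * t) [(1, true)])

/-- columns of the constants, with a coefficient at the entry `(0, 0)` -/
def colsCst (cs : List (ℕ × ℕ)) : List (SV × ℕ) :=
  cs.map (fun g => (same (1, 0) [(2 + g.1, true)], g.2))

/-- all columns; the number is an additional coefficient at the entry `(0, 0)` -/
def cols (q : ℕ) (cs : List (ℕ × ℕ)) (as ms : List (ℕ × ℕ × ℕ)) : List (SV × ℕ) :=
  (units (nfr q ms.length) (nfr q ms.length + 2) ++ low.map (fun c => same (1, 0) c) ++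
    colsB q ms.length (nfr q ms.length + 2) ++ colsAdd as ++ colsMul q ms.length).map
      (fun γ => (γ, 0)) ++ colsCst cs

/-- the ties -/
def ties (q : ℕ) : List (ℕ × ℕ × ℕ) := (List.range q).map (fun j => (0, j, j))

/-- solutions of the system -/
structure Sat (v : ℕ → ℝ) (cs : List (ℕ × ℕ)) (as ms : List (ℕ × ℕ × ℕ)) : Prop where
  cst : ∀ g ∈ cs, v g.1 + g.2 = 0
  add : ∀ g ∈ as, v g.1 + v g.2.1 = v g.2.2
  mul : ∀ g ∈ ms, v g.1 * v g.2.1 = v g.2.2

/-- sign -/
def sg (b : Bool) : ℝ := if b then 1 else -1

/-- the vector of a list -/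
noncomputable def lv (n : ℕ) (c : List (ℕ × Bool)) : Fin n → ℝ := fun i =>
  (c.map (fun p => if p.1 = (i : ℕ) then sg p.2 else 0)).sum

/-- the part of a sparse vector in frame `a` -/
noncomputable def rv (n : ℕ) (ρ : SV) (a : ℕ) : Fin n → ℝ := fun i =>
  (ρ.map (fun e => if e.1 = (a, (i : ℕ)) then sg e.2 else 0)).sum

/-- the part of a column in frame `a` -/
noncomputable def cv (n : ℕ) (γ : SV × ℕ) (a : ℕ) : Fin n → ℝ := fun i =>
  rv n γ.1 a i + if a = 0 ∧ (i : ℕ) = 0 then (γ.2 : ℝ) else 0

/-- families of frames satisfying the constraints given by rows and columns -/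
structure Good (k n : ℕ) (rows : List SV) (cols : List (SV × ℕ))
    (F : ℕ → Matrix (Fin n) (Fin n) ℝ) : Prop where
  unit : ∀ a < k, IsUnit (F a)
  row : ∀ ρ ∈ rows, ∃ (u : Fin n → ℝ) (s : ℕ → ℝ), ∀ a < k, rv n ρ a ᵥ* F a = s a • u
  col : ∀ γ ∈ cols, ∃ (v : Fin n → ℝ) (t : ℕ → ℝ), ∀ a < k, (F a)⁻¹ *ᵥ cv n γ a = t a • v

end Pool.Agent.Hadamard
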