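import Mathlib

set_option autoImplicit false
set_option linter.unusedSectionVars false
set_option linter.unusedSimpArgs false
set_option linter.unusedVariables false

/-!
The algebraic core: Hadamard decompositions of a matrix of rank `|K| * |N|` with ranks `|K|` and
`|N|` correspond to families of `|K|` frames of `ℝ^N`.
-/

namespace Pool.Agent.Hadamard

open Matrix

variable {K N ι κ : Type} [Fintype K] [DecidableEq K] [Fintype N] [DecidableEq N]
  [Fintype ι] [Fintype κ]

/-- rank factorisation -/
theorem exists_factor [DecidableEq κ] (M : Matrix ι κ ℝ) (h : M.rank = Fintype.card K) :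
    ∃ (U : ι → K → ℝ) (V : κ → K → ℝ), ∀ i j, M i j = ∑ k, U i k * V j k := by
  have h1 : Module.finrank ℝ (LinearMap.range M.mulVecLin) = Fintype.card K := h
  let b : Module.Basis K ℝ (LinearMap.range M.mulVecLin) :=
    (Module.finBasisOfFinrankEq ℝ _ h1).reindex (Fintype.equivFin K).symm
  refine ⟨fun i k => (b k : ι → ℝ) i,
    fun j k => b.repr ⟨M *ᵥ Pi.single j 1, ⟨Pi.single j 1, rfl⟩⟩ k, fun i j => ?_⟩
  have h2 := b.sum_repr ⟨M *ᵥ Pi.single j 1, ⟨Pi.single j 1, rfl⟩⟩
  have h3 := congrArg (fun v : LinearMap.range M.mulVecLin => (v : ι → ℝ) i) h2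
  simp only [Submodule.coe_sum, Submodule.coe_smul, Finset.sum_apply, Pi.smul_apply,
    smul_eq_mul] at h3
  have h4 : (M *ᵥ Pi.single j 1) i = M i j := by simp
  rw [← h4, ← h3]
  exact Finset.sum_congr rfl fun k _ => mul_comm _ _

/-- sums of two rank one tensors of rank one -/
theorem pair_lemma {x x' u : K → ℝ} {y y' v : N → ℝ}
    (h : ∀ a b, u a * v b = x a * y b + x' a * y' b) :
    (∀ a a', x a * x' a' = x a' * x' a) ∨ (∀ b b', y b * y' b' = y b' * y' b) := by
  by_contra hcon
  push Not at hcon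
  obtain ⟨⟨a, a', ha⟩, b, b', hb⟩ := hcon
  have h1 := h a b
  have h2 := h a' b'
  have h3 := h a b'
  have h4 := h a' b
  have h5 : (x a * x' a' - x a' * x' a) * (y b * y' b' - y b' * y' b) = 0 := by
    have : (u a * v b) * (u a' * v b') = (u a * v b') * (u a' * v b) := by ring
    rw [h1, h2, h3, h4] at this
    linear_combination this
  rcases mul_eq_zero.1 h5 with h6 | h6
  · exact ha (sub_eq_zero.1 h6)
  · exact hb (sub_eq_zero.1 h6)

theorem par_of_minor {x x' : K → ℝ} (hx : x ≠ 0) (h : ∀ a a', x a * x' a' = x a' * x' a) :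
    ∃ c : ℝ, x' = c • x := by
  obtain ⟨a, ha⟩ := Function.ne_iff.1 hx
  refine ⟨x' a / x a, ?_⟩
  funext a'
  simp only [Pi.smul_apply, smul_eq_mul]
  have h1 := h a a'
  have ha' : x a ≠ 0 := ha
  field_simp
  linarith

/-- The frames obtained from a Hadamard decomposition. -/
theorem core_mp [DecidableEq κ] (R : ι → K → N → ℝ) (C : κ → K → N → ℝ) (hK : 0 < Fintype.card K)
    (hKN : Fintype.card K < Fintype.card N)
    (hR1 : ∀ a b, ∃ i, R i = Pi.single a (Pi.single b 1))
    (hC1 : ∀ a b, ∃ j, C j = Pi.single a (Pi.single b 1))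
    (hR2 : ∀ a b b', b ≠ b' →
      ∃ i, R i = Pi.single a (Pi.single b 1) + Pi.single a (Pi.single b' 1))
    (M₁ M₂ : Matrix ι κ ℝ) (h₁ : M₁.rank = Fintype.card K) (h₂ : M₂.rank = Fintype.card N)
    (hM : ∀ i j, ∑ a, ∑ b, R i a b * C j a b = M₁ i j * M₂ i j) :
    ∃ F : K → Matrix N N ℝ, (∀ a, IsUnit (F a)) ∧
      (∀ i, ∃ (u : N → ℝ) (s : K → ℝ), ∀ a, R i a ᵥ* F a = s a • u) ∧
      ∀ j, ∃ (v : N → ℝ) (t : K → ℝ), ∀ a, (F a)⁻¹ *ᵥ C j a = t a • v := by
  classical
  obtain ⟨U1, V1, hM1⟩ := exists_factor (K := K) M₁ h₁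
  obtain ⟨U2, V2, hM2⟩ := exists_factor (K := N) M₂ h₂
  have hp : ∀ i j, (U1 i ⬝ᵥ V1 j) * (U2 i ⬝ᵥ V2 j) = ∑ a, R i a ⬝ᵥ C j a := by
    intro i j
    have := hM i j
    rw [hM1, hM2] at this
    exact this.symm
  choose ri hri using hR1
  choose cj hcj using hC1
  -- pairing with the unit rows and columns
  have hpr : ∀ i a b, (U1 i ⬝ᵥ V1 (cj a b)) * (U2 i ⬝ᵥ V2 (cj a b)) = R i a b := by
    intro i a b
    rw [hp, hcj, Finset.sum_eq_single a]
    · simp
    · intro a' _ ha'
      simp [Pi.single_eq_of_ne ha']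
    · simp
  have hpc : ∀ j a b, (U1 (ri a b) ⬝ᵥ V1 j) * (U2 (ri a b) ⬝ᵥ V2 j) = C j a b := by
    intro j a b
    rw [hp, hri, Finset.sum_eq_single a]
    · simp
    · intro a' _ ha'
      simp [Pi.single_eq_of_ne ha']
    · simp
  -- the two matrices of tensors
  let Tm : Matrix (K × N) (K × N) ℝ := fun p q => U1 (ri p.1 p.2) q.1 * U2 (ri p.1 p.2) q.2
  let Sm : Matrix (K × N) (K × N) ℝ := fun q p => V1 (cj p.1 p.2) q.1 * V2 (cj p.1 p.2) q.2
  have htens : ∀ (x z : K → ℝ) (y w : N → ℝ), ∑ q : K × N, (x q.1 * y q.2) * (z q.1 * w q.2) =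
      (x ⬝ᵥ z) * (y ⬝ᵥ w) := by
    intro x z y w
    rw [Fintype.sum_prod_type]
    simp only [dotProduct]
    rw [Finset.sum_mul_sum]
    refine Finset.sum_congr rfl fun a _ => Finset.sum_congr rfl fun b _ => ?_
    ring
  have hTS : Tm * Sm = 1 := by
    ext p q
    rw [mul_apply]
    simp only [Tm, Sm]
    rw [htens, hpr, hri, one_apply]
    by_cases h1 : p.1 = q.1
    · by_cases h2 : p.2 = q.2
      · have : p = q := Prod.ext h1 h2
        simp [this]
      · have : p ≠ q := fun h => h2 (by rw [h])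
        rw [if_neg this, ← h1]
        simp [Pi.single_apply, Ne.symm h2]
    · have : p ≠ q := fun h => h1 (by rw [h])
      rw [if_neg this, Pi.single_eq_of_ne (Ne.symm h1)]
      rfl
  have hST : Sm * Tm = 1 := mul_eq_one_comm.1 hTS
  -- expansion of the row tensors
  have hexp : ∀ i x y, U1 i x * U2 i y =
      ∑ p : K × N, R i p.1 p.2 * (U1 (ri p.1 p.2) x * U2 (ri p.1 p.2) y) := by
    intro i x y
    let w : K × N → ℝ := fun q => U1 i q.1 * U2 i q.2
    have h1 : w ᵥ* Sm = fun p => R i p.1 p.2 := by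
      funext p
      simp only [vecMul, dotProduct, w, Sm]
      rw [htens, hpr]
    have h2 : w = (fun p => R i p.1 p.2) ᵥ* Tm := by
      rw [← h1, vecMul_vecMul, hST, vecMul_one]
    have h3 := congrFun h2 (x, y)
    simp only [vecMul, dotProduct, w, Tm] at h3
    exact h3
  have hx0 : ∀ a b, U1 (ri a b) ≠ 0 := by
    intro a b h0
    have := hpr (ri a b) a b
    rw [h0, hri] at this
    simp at this
  have hy0 : ∀ a b, U2 (ri a b) ≠ 0 := by
    intro a b h0
    have := hpr (ri a b) a b
    rw [h0, hri] at this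
    simp at this
  -- pairs
  have hpair : ∀ a b b', b ≠ b' →
      (∀ k k', U1 (ri a b) k * U1 (ri a b') k' = U1 (ri a b) k' * U1 (ri a b') k) ∨
      (∀ k k', U2 (ri a b) k * U2 (ri a b') k' = U2 (ri a b) k' * U2 (ri a b') k) := by
    intro a b b' hbb
    obtain ⟨i, hi⟩ := hR2 a b b' hbb
    refine pair_lemma (u := U1 i) (v := U2 i) fun x y => ?_
    rw [hexp i x y, hi]
    have h1 : ∀ p : K × N, ((Pi.single a (Pi.single b 1) + Pi.single a (Pi.single b' 1) :
        K → N → ℝ) p.1 p.2) * (U1 (ri p.1 p.2) x * U2 (ri p.1 p.2) y) =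
        (if p = (a, b) then U1 (ri a b) x * U2 (ri a b) y else 0) +
        (if p = (a, b') then U1 (ri a b') x * U2 (ri a b') y else 0) := by
      rintro ⟨c, d⟩
      simp only [Pi.add_apply, Prod.mk.injEq]
      by_cases hc : c = a
      · subst hc
        simp only [Pi.single_eq_same, Pi.single_apply, true_and]
        by_cases hd : d = b
        · subst hd
          simp [hbb]
        · by_cases hd' : d = b'
          · subst hd'
            simp [hd]
          · simp [hd, hd']
      · simp [Pi.single_eq_of_ne hc, hc]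
    rw [Finset.sum_congr rfl fun p _ => h1 p, Finset.sum_add_distrib]
    simp
  -- the first factors in a block are parallel
  have hpar : ∀ a b b', ∀ k k', U1 (ri a b) k * U1 (ri a b') k' =
      U1 (ri a b) k' * U1 (ri a b') k := by
    intro a
    by_contra hcon
    push Not at hcon
    obtain ⟨b, b', k, k', hk⟩ := hcon
    have hbb : b ≠ b' := by
      rintro rfl
      exact hk (mul_comm _ _)
    have hY : ∀ b'', ∃ c : ℝ, U2 (ri a b'') = c • U2 (ri a b) := by
      have hY0 : ∃ c : ℝ, U2 (ri a b') = c • U2 (ri a b) := by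
        rcases hpair a b b' hbb with h | h
        · exact absurd (h k k') hk
        · exact par_of_minor (hy0 a b) h
      intro b''
      by_cases h1 : b'' = b
      · exact ⟨1, by rw [h1, one_smul]⟩
      by_cases h2 : b'' = b'
      · rw [h2]; exact hY0
      rcases hpair a b b'' (Ne.symm h1) with h3 | h3
      · rcases hpair a b' b'' (Ne.symm h2) with h4 | h4
        · exfalso
          obtain ⟨c, hc⟩ := par_of_minor (hx0 a b) h3
          obtain ⟨c', hc'⟩ := par_of_minor (hx0 a b') h4
          have hc0 : c ≠ 0 := by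
            rintro rfl
            exact hx0 a b'' (by rw [hc, zero_smul])
          have hc0' : c' ≠ 0 := by
            rintro rfl
            exact hx0 a b'' (by rw [hc', zero_smul])
          have e1 : ∀ l, U1 (ri a b) l = c⁻¹ * (c' * U1 (ri a b') l) := by
            intro l
            have h5 := congrFun hc l
            have h6 := congrFun hc' l
            simp only [Pi.smul_apply, smul_eq_mul] at h5 h6
            rw [← h6, h5]
            field_simp
          apply hk
          rw [e1 k, e1 k']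
          ring
        · obtain ⟨c, hc⟩ := hY0
          obtain ⟨c', hc'⟩ := par_of_minor (hy0 a b') h4
          exact ⟨c' * c, by rw [hc', hc, smul_smul]⟩
      · exact par_of_minor (hy0 a b) h3
    choose c hc using hY
    -- dimension count
    let W : Matrix N K ℝ := fun b'' x => c b'' * U1 (ri a b'') x
    let Z : Matrix K N ℝ := fun x b'' => V1 (cj a b'') x * (U2 (ri a b) ⬝ᵥ V2 (cj a b''))
    have hWZ : W * Z = 1 := by
      ext p q
      rw [mul_apply]
      simp only [W, Z]
      have h1 := hpr (ri a p) a q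
      rw [hc p, hri] at h1
      simp only [smul_dotProduct, smul_eq_mul, Pi.single_eq_same] at h1
      have h2 : ∑ x, c p * U1 (ri a p) x * (V1 (cj a q) x * (U2 (ri a b) ⬝ᵥ V2 (cj a q))) =
          (U1 (ri a p) ⬝ᵥ V1 (cj a q)) * (c p * (U2 (ri a b) ⬝ᵥ V2 (cj a q))) := by
        simp only [dotProduct]
        rw [Finset.sum_mul]
        refine Finset.sum_congr rfl fun x _ => ?_
        ring
      rw [h2, h1, one_apply, Pi.single_apply]
      simp only [eq_comm]
    have h3 : (1 : Matrix N N ℝ).rank ≤ Fintype.card K := by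
      rw [← hWZ]
      exact (rank_mul_le_left _ _).trans (rank_le_card_width _)
    rw [rank_one] at h3
    omega
  -- choose the common first factors
  have hN : 0 < Fintype.card N := lt_of_le_of_lt (Nat.zero_le _) hKN
  obtain ⟨b0⟩ := Fintype.card_pos_iff.1 hN
  have hX : ∀ a b, ∃ c : ℝ, U1 (ri a b) = c • U1 (ri a b0) := fun a b =>
    par_of_minor (hx0 a b0) (hpar a b0 b)
  choose c hc using hX
  let X : Matrix K K ℝ := fun a => U1 (ri a b0)
  let F : K → Matrix N N ℝ := fun a b => c a b • U2 (ri a b)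
  have hpc' : ∀ j a b, (X a ⬝ᵥ V1 j) * (F a b ⬝ᵥ V2 j) = C j a b := by
    intro j a b
    have := hpc j a b
    rw [hc a b] at this
    simp only [smul_dotProduct, smul_eq_mul] at this
    simp only [X, F, smul_dotProduct, smul_eq_mul]
    linear_combination this
  have hcol : ∀ j a, (X a ⬝ᵥ V1 j) • (F a *ᵥ V2 j) = C j a := by
    intro j a
    funext b
    exact hpc' j a b
  -- `F a` is invertible
  let G : K → Matrix N N ℝ := fun a n b => (X a ⬝ᵥ V1 (cj a b)) * V2 (cj a b) n
  have hFu : ∀ a, F a * G a = 1 := by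
    intro a
    ext b b'
    rw [mul_apply]
    simp only [G]
    have h1 := hpc' (cj a b') a b
    rw [hcj] at h1
    simp only [Pi.single_eq_same] at h1
    rw [one_apply]
    have h2 : ∑ n, F a b n * ((X a ⬝ᵥ V1 (cj a b')) * V2 (cj a b') n) =
        (X a ⬝ᵥ V1 (cj a b')) * (F a b ⬝ᵥ V2 (cj a b')) := by
      simp only [dotProduct, Finset.mul_sum]
      refine Finset.sum_congr rfl fun n _ => ?_
      ring
    rw [h2, h1, Pi.single_apply]
  have hF : ∀ a, IsUnit (F a) := fun a =>
    IsUnit.of_mul_eq_one _ (hFu a)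
  have hFdet : ∀ a, IsUnit (F a).det := fun a => (isUnit_iff_isUnit_det _).1 (hF a)
  refine ⟨F, hF, ?_, ?_⟩
  · -- rows
    intro i
    -- the vectors dual to the `X a`
    have hne : ∀ a, X a ⬝ᵥ V1 (cj a b0) ≠ 0 := by
      intro a h0
      have := hpc' (cj a b0) a b0
      rw [h0, hcj] at this
      simp at this
    have horth : ∀ a a' b, a' ≠ a → X a' ⬝ᵥ V1 (cj a b) = 0 := by
      intro a a' b haa
      by_contra h0
      have h1 := hcol (cj a b) a'
      rw [hcj, Pi.single_eq_of_ne haa] at h1
      have h2 : F a' *ᵥ V2 (cj a b) = 0 := by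
        have := congrArg (fun w => (X a' ⬝ᵥ V1 (cj a b))⁻¹ • w) h1
        simpa [smul_smul, inv_mul_cancel₀ h0] using this
      have h3 : V2 (cj a b) = 0 := by
        have := congrArg (fun w => (F a')⁻¹ *ᵥ w) h2
        simpa [mulVec_mulVec, nonsing_inv_mul _ (hFdet a')] using this
      have h4 := hpc' (cj a b) a b
      rw [h3, hcj] at h4
      simp at h4
    let Z : Matrix K K ℝ := fun x a => (X a ⬝ᵥ V1 (cj a b0))⁻¹ * V1 (cj a b0) x
    have hXZ : X * Z = 1 := by
      ext a a'
      rw [mul_apply]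
      simp only [Z]
      have h2 : ∑ x, X a x * ((X a' ⬝ᵥ V1 (cj a' b0))⁻¹ * V1 (cj a' b0) x) =
          (X a' ⬝ᵥ V1 (cj a' b0))⁻¹ * (X a ⬝ᵥ V1 (cj a' b0)) := by
        simp only [dotProduct, Finset.mul_sum]
        refine Finset.sum_congr rfl fun n _ => ?_
        ring
      rw [h2, one_apply]
      split_ifs with h3
      · rw [h3, inv_mul_cancel₀ (hne a')]
      · rw [horth a' a b0 h3, mul_zero]
    have hZX : Z * X = 1 := mul_eq_one_comm.1 hXZ
    have hV1 : ∀ a b, V1 (cj a b) = (X a ⬝ᵥ V1 (cj a b)) • fun x => Z x a := by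
      intro a b
      have h1 : X *ᵥ V1 (cj a b) = Pi.single a (X a ⬝ᵥ V1 (cj a b)) := by
        funext a'
        by_cases h : a' = a
        · subst h
          simp [mulVec]
        · rw [Pi.single_eq_of_ne h]
          exact horth a a' b h
      have h2 : V1 (cj a b) = Z *ᵥ (X *ᵥ V1 (cj a b)) := by
        rw [mulVec_mulVec, hZX, one_mulVec]
      rw [h1] at h2
      conv_lhs => rw [h2]
      funext x
      simp only [mulVec, dotProduct_single, Pi.smul_apply, smul_eq_mul]
      ring
    refine ⟨U2 i, fun a => U1 i ⬝ᵥ fun x => Z x a, fun a => ?_⟩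
    have h1 : ∀ b, R i a b = (U1 i ⬝ᵥ fun x => Z x a) *
        (U2 i ⬝ᵥ ((X a ⬝ᵥ V1 (cj a b)) • V2 (cj a b))) := by
      intro b
      rw [← hpr i a b]
      conv_lhs => rw [hV1 a b]
      simp only [dotProduct_smul, smul_eq_mul]
      ring
    have h2 : R i a = (U1 i ⬝ᵥ fun x => Z x a) • (U2 i ᵥ* (F a)⁻¹) := by
      have h3 : (F a)⁻¹ = G a := inv_eq_right_inv (hFu a)
      rw [h3]
      funext b
      rw [h1 b]
      rfl
    rw [h2, smul_vecMul, vecMul_vecMul, nonsing_inv_mul _ (hFdet a), vecMul_one]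
  · -- columns
    intro j
    refine ⟨V2 j, fun a => X a ⬝ᵥ V1 j, fun a => ?_⟩
    rw [← hcol j a, mulVec_smul, mulVec_mulVec, nonsing_inv_mul _ (hFdet a), one_mulVec]

/-- A matrix with a diagonal submatrix with nonzero entries has large rank. -/
theorem card_le_rank {α : Type} [Fintype α] [DecidableEq α] (M : Matrix ι κ ℝ) (f : α → ι)
    (g : α → κ) (h0 : ∀ a, M (f a) (g a) ≠ 0) (h : ∀ a a', a ≠ a' → M (f a) (g a') = 0) :
    Fintype.card α ≤ M.rank := by
  classical
  refine le_trans ?_ (rank_submatrix_le M f g)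
  have h1 : M.submatrix f g = diagonal (fun a => M (f a) (g a)) := by
    ext a a'
    rw [submatrix_apply, diagonal_apply]
    split_ifs with h2
    · rw [h2]
    · exact h a a' h2
  rw [h1, rank_diagonal]
  rw [Fintype.card_of_subtype (Finset.univ : Finset α) (fun a => by simp [h0 a])]
  rfl

/-- The Hadamard decomposition obtained from frames. -/
theorem core_mpr (R : ι → K → N → ℝ) (C : κ → K → N → ℝ) (hK : 0 < Fintype.card K)
    (hN : 0 < Fintype.card N)
    (hR1 : ∀ a b, ∃ i, R i = Pi.single a (Pi.single b 1))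
    (hC1 : ∀ a b, ∃ j, C j = Pi.single a (Pi.single b 1))
    (F : K → Matrix N N ℝ) (hF : ∀ a, IsUnit (F a))
    (hR : ∀ i, ∃ (u : N → ℝ) (s : K → ℝ), ∀ a, R i a ᵥ* F a = s a • u)
    (hC : ∀ j, ∃ (v : N → ℝ) (t : K → ℝ), ∀ a, (F a)⁻¹ *ᵥ C j a = t a • v) :
    ∃ M₁ M₂ : Matrix ι κ ℝ, M₁.rank = Fintype.card K ∧ M₂.rank = Fintype.card N ∧
      ∀ i j, ∑ a, ∑ b, R i a b * C j a b = M₁ i j * M₂ i j := by
  classical
  have hFdet : ∀ a, IsUnit (F a).det := fun a => (isUnit_iff_isUnit_det _).1 (hF a)
  choose u s hus using hR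
  choose v t hvt using hC
  choose ri hri using hR1
  choose cj hcj using hC1
  obtain ⟨a0⟩ := Fintype.card_pos_iff.1 hK
  obtain ⟨b0⟩ := Fintype.card_pos_iff.1 hN
  have hprod : ∀ i j, ∑ a, R i a ⬝ᵥ C j a = (s i ⬝ᵥ t j) * (u i ⬝ᵥ v j) := by
    intro i j
    have h1 : ∀ a, R i a ⬝ᵥ C j a = (s i a * t j a) * (u i ⬝ᵥ v j) := by
      intro a
      have h2 : R i a = (s i a • u i) ᵥ* (F a)⁻¹ := by
        rw [← hus, vecMul_vecMul, mul_nonsing_inv _ (hFdet a), vecMul_one]
      rw [h2, ← dotProduct_mulVec, hvt]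
      simp only [smul_dotProduct, dotProduct_smul, smul_eq_mul]
      ring
    rw [Finset.sum_congr rfl fun a _ => h1 a, ← Finset.sum_mul]
    rfl
  refine ⟨fun i j => s i ⬝ᵥ t j, fun i j => u i ⬝ᵥ v j, ?_, ?_, fun i j => hprod i j⟩
  · have hs : ∀ a b a', a' ≠ a → s (ri a b) a' = 0 := by
      intro a b a' haa
      by_contra h0
      have h1 := hus (ri a b) a'
      rw [hri, Pi.single_eq_of_ne haa, zero_vecMul] at h1
      have h2 : u (ri a b) = 0 := by
        rcases smul_eq_zero.1 h1.symm with h | h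
        · exact absurd h h0
        · exact h
      have h3 := hprod (ri a b) (cj a b)
      rw [h2, hri, hcj, zero_dotProduct, mul_zero, Finset.sum_eq_single a] at h3
      · simp at h3
      · intro a'' _ h
        simp [Pi.single_eq_of_ne h]
      · simp
    have ht : ∀ a b a', a' ≠ a → t (cj a b) a' = 0 := by
      intro a b a' haa
      by_contra h0
      have h1 := hvt (cj a b) a'
      rw [hcj, Pi.single_eq_of_ne haa, mulVec_zero] at h1
      have h2 : v (cj a b) = 0 := by
        rcases smul_eq_zero.1 h1.symm with h | h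
        · exact absurd h h0
        · exact h
      have h3 := hprod (ri a b) (cj a b)
      rw [h2, hri, hcj, dotProduct_zero, mul_zero, Finset.sum_eq_single a] at h3
      · simp at h3
      · intro a'' _ h
        simp [Pi.single_eq_of_ne h]
      · simp
    have hd : ∀ a a' b b', s (ri a b) ⬝ᵥ t (cj a' b') =
        if a = a' then s (ri a b) a * t (cj a' b') a else 0 := by
      intro a a' b b'
      rw [dotProduct, Finset.sum_eq_single a]
      · split_ifs with h
        · rfl
        · rw [ht a' b' a h, mul_zero]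
      · intro x _ hx
        rw [hs a b x hx, zero_mul]
      · simp
    apply le_antisymm
    · have : (fun i j => s i ⬝ᵥ t j : Matrix ι κ ℝ) = (of s) * (of t)ᵀ := by
        ext i j
        rw [mul_apply]
        rfl
      rw [this]
      exact (rank_mul_le_left _ _).trans (rank_le_card_width _)
    · refine card_le_rank _ (fun a => ri a b0) (fun a => cj a b0) (fun a => ?_) (fun a a' h => ?_)
      · intro h0
        have h3 := hprod (ri a b0) (cj a b0)
        rw [hri, hcj, show s (ri a b0) ⬝ᵥ t (cj a b0) = 0 from h0, zero_mul,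
          Finset.sum_eq_single a] at h3
        · simp at h3
        · intro a'' _ h
          simp [Pi.single_eq_of_ne h]
        · simp
      · rw [hd, if_neg h]
  · apply le_antisymm
    · have : (fun i j => u i ⬝ᵥ v j : Matrix ι κ ℝ) = (of u) * (of v)ᵀ := by
        ext i j
        rw [mul_apply]
        rfl
      rw [this]
      exact (rank_mul_le_left _ _).trans (rank_le_card_width _)
    · have key : ∀ b b', (s (ri a0 b) ⬝ᵥ t (cj a0 b')) * (u (ri a0 b) ⬝ᵥ v (cj a0 b')) =
          if b = b' then 1 else 0 := by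
        intro b b'
        rw [← hprod, hri, hcj, Finset.sum_eq_single a0]
        · simp [Pi.single_apply, eq_comm]
        · intro a'' _ h
          simp [Pi.single_eq_of_ne h]
        · simp
      have hs : ∀ b b', s (ri a0 b) ⬝ᵥ t (cj a0 b') ≠ 0 := by
        -- `s` and `t` are concentrated at `a0` with nonzero values
        have hs0 : ∀ b a', a' ≠ a0 → s (ri a0 b) a' = 0 := by
          intro b a' haa
          by_contra h0
          have h1 := hus (ri a0 b) a'
          rw [hri, Pi.single_eq_of_ne haa, zero_vecMul] at h1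
          have h2 : u (ri a0 b) = 0 := by
            rcases smul_eq_zero.1 h1.symm with h | h
            · exact absurd h h0
            · exact h
          have h3 := key b b
          rw [h2, zero_dotProduct, mul_zero, if_pos rfl] at h3
          exact zero_ne_one h3
        intro b b'
        have e1 : ∀ b b', s (ri a0 b) ⬝ᵥ t (cj a0 b') = s (ri a0 b) a0 * t (cj a0 b') a0 := by
          intro b b'
          rw [dotProduct, Finset.sum_eq_single a0]
          · intro x _ hx
            rw [hs0 b x hx, zero_mul]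
          · simp
        have n1 : s (ri a0 b) a0 ≠ 0 := by
          intro h
          have := key b b
          rw [e1, h] at this
          simp at this
        have n2 : t (cj a0 b') a0 ≠ 0 := by
          intro h
          have := key b' b'
          rw [e1, h] at this
          simp at this
        rw [e1]
        exact mul_ne_zero n1 n2
      refine card_le_rank _ (fun b => ri a0 b) (fun b => cj a0 b) (fun b => ?_) (fun b b' h => ?_)
      · intro h0
        have := key b b
        rw [show u (ri a0 b) ⬝ᵥ v (cj a0 b) = 0 from h0, mul_zero, if_pos rfl] at this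
        exact zero_ne_one this
      · have := key b b'
        rw [if_neg h] at this
        exact (mul_eq_zero.1 this).resolve_left (hs b b')

end Pool.Agent.Hadamard
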