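import Pool.Agent.Lib_MP_c79a71_lc.MemSem

set_option autoImplicit false

/-!
# The Hadamard decomposition problem is in `∃ℝ`
-/

namespace Pool.Agent.Hadamard

open Pool.Agent.PartSep.TM Pool.Agent.PartSep.CL
open Pool.Agent.PartSep.TM.Rep N487b59b3

set_option synthInstance.maxSize 2000

variable {E F : Type} [Rep E] [Rep F]

/-! ### The formula is a polynomial-time function -/

theorem fp_allE' [Inhabited F] {l : E → List F} (hl : FP l) {p : E × F → Bool} (hp : FP p) :
    FP (fun x => (l x).all (fun a => p (x, a))) := by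
  refine (FP.isEmptyE (FP.flatMapE hl (g := fun y => if p y then ([] : List ℕ) else [0])
    (FP.ite hp (FP.const _) (FP.const _)))).congr (fun x => ?_)
  induction l x with
  | nil => rfl
  | cons a l ih =>
    rw [List.flatMap_cons, List.all_cons]
    cases h : p (x, a)
    · simp
    · simp only [if_true, List.nil_append, Bool.true_and]
      exact ih

theorem fp_entD {d : E → Dat} {i j : E → ℕ} (hd : FP d) (hi : FP i) (hj : FP j) :
    FP (fun x => entD (d x) (i x) (j x)) :=
  FP.getE (FP.getE (FP.comp FP.fst hd) hi []) hj (([], []), [])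

theorem fp_ncols {d : E → Dat} (hd : FP d) : FP (fun x => ncols (d x)) :=
  FP.lengthE (FP.getE (FP.comp FP.fst hd) (FP.const 0) [])

theorem fp_lenE {e : E → Ent} (he : FP e) : FP (fun x => lenE (e x)) :=
  FP.add (FP.add (FP.length (FP.comp FP.fst (FP.comp FP.fst he)))
    (FP.length (FP.comp FP.snd (FP.comp FP.fst he)))) (FP.length (FP.comp FP.snd he))

theorem fp_numP (K : ℕ) {i j T : E → ℕ} (hi : FP i) (hj : FP j) (hT : FP T) :
    FP (fun x => pcode (numP K (i x) (j x) (T x))) :=
  fp_sumP (FP.range hT) (g := fun y : E × ℕ =>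
    .mul (.const (2 ^ y.2)) (.var (vix K (i y.1) (j y.1) y.2)))
    (fp_pmul (fp_pconst (fp_two_pow FP.snd)) (fp_pvar (fp_vix (FP.const K)
      (FP.comp hi FP.fst) (FP.comp hj FP.fst) FP.snd)))

theorem fp_bitsF (K : ℕ) {i j T : E → ℕ} (hi : FP i) (hj : FP j) (hT : FP T) :
    FP (fun x => fcode (bitsF K (i x) (j x) (T x))) := by
  have hv : FP (fun y : E × ℕ => pcode (.var (vix K (i y.1) (j y.1) y.2))) :=
    fp_pvar (fp_vix (FP.const K) (FP.comp hi FP.fst) (FP.comp hj FP.fst) FP.snd)
  exact fp_andF (FP.range hT) (g := fun y : E × ℕ =>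
    .eq (.mul (.var (vix K (i y.1) (j y.1) y.2)) (.var (vix K (i y.1) (j y.1) y.2)))
      (.var (vix K (i y.1) (j y.1) y.2))) (fp_feq (fp_pmul hv hv) hv)

theorem fp_copF {i j : E → ℕ} {e : E → Ent} (hi : FP i) (hj : FP j) (he : FP e) :
    FP (fun x => fcode (copF (i x) (j x) (e x))) := by
  unfold copF
  have hT := fp_lenE he
  refine fp_fand (fp_fand (fp_bitsF 8 hi hj hT) (fp_bitsF 9 hi hj hT)) (fp_feq ?_ ?_)
  · exact fp_pmul (fp_numP 9 hi hj hT) (fp_pconst (fp_nval (FP.comp FP.snd he)))
  · refine fp_padd (fp_pconst (FP.const _)) (fp_pmul (fp_numP 8 hi hj hT) (fp_padd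
      (fp_pconst (fp_nval (FP.comp FP.fst (FP.comp FP.fst he))))
      (fp_pconst (fp_nval (FP.comp FP.snd (FP.comp FP.fst he))))))

theorem fp_idF (K K' : ℕ) {k m : E → ℕ} (hk : FP k) (hm : FP m) :
    FP (fun x => fcode (idF K K' (k x) (m x))) := by
  refine fp_andF (FP.range hk) (g := fun y : E × ℕ =>
    andF ((List.range (k y.1)).map (fun b =>
    .eq (sumP ((List.range (m y.1)).map (fun i =>
      .mul (.var (vix K y.2 i 0)) (.var (vix K' i b 0)))))
      (.const (if decide (y.2 = b) then 1 else 0))))) ?_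
  refine fp_andF (FP.range (FP.comp hk FP.fst)) (g := fun z : (E × ℕ) × ℕ =>
    .eq (sumP ((List.range (m z.1.1)).map (fun i =>
      .mul (.var (vix K z.1.2 i 0)) (.var (vix K' i z.2 0)))))
      (.const (if decide (z.1.2 = z.2) then 1 else 0))) ?_
  refine fp_feq ?_ (fp_pconst ?_)
  · refine fp_sumP (FP.range (FP.comp hm (FP.comp FP.fst FP.fst)))
      (g := fun u : ((E × ℕ) × ℕ) × ℕ =>
      .mul (.var (vix K u.1.1.2 u.2 0)) (.var (vix K' u.2 u.1.2 0))) ?_
    exact fp_pmul (fp_pvar (fp_vix (FP.const K) (FP.comp FP.snd (FP.comp FP.fst FP.fst)) FP.snd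
      (FP.const 0))) (fp_pvar (fp_vix (FP.const K') FP.snd (FP.comp FP.snd FP.fst) (FP.const 0)))
  · refine (FP.ite (FP.natEq (FP.comp FP.snd FP.fst) FP.snd) (FP.const (natName 1))
      (FP.const (natName 0))).congr (fun z => ?_)
    by_cases h : z.1.2 = z.2 <;> simp [h]

theorem fp_prodP (K K' : ℕ) {k i j : E → ℕ} (hk : FP k) (hi : FP i) (hj : FP j) :
    FP (fun x => pcode (prodP K K' (k x) (i x) (j x))) :=
  fp_sumP (FP.range hk) (g := fun y : E × ℕ =>
    .mul (.var (vix K (i y.1) y.2 0)) (.var (vix K' y.2 (j y.1) 0)))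
    (fp_pmul (fp_pvar (fp_vix (FP.const K) (FP.comp hi FP.fst) FP.snd (FP.const 0)))
      (fp_pvar (fp_vix (FP.const K') FP.snd (FP.comp hj FP.fst) (FP.const 0))))

theorem fp_entF {k l i j : E → ℕ} {e : E → Ent} (hk : FP k) (hl : FP l) (hi : FP i) (hj : FP j)
    (he : FP e) : FP (fun x => fcode (entF (k x) (l x) (i x) (j x) (e x))) := by
  unfold entF
  refine fp_feq (fp_padd (fp_pmul (fp_pconst (fp_nval (FP.comp FP.snd he)))
    (fp_pmul (fp_prodP 0 1 hk hi hj) (fp_prodP 4 5 hl hi hj)))
    (fp_pconst (fp_nval (FP.comp FP.snd (FP.comp FP.fst he))))) (fp_pconst (fp_nval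
      (FP.comp FP.fst (FP.comp FP.fst he))))

theorem fp_matF {k l m n : E → ℕ} {d : E → Dat} (hk : FP k) (hl : FP l) (hm : FP m) (hn : FP n)
    (hd : FP d) : FP (fun x => fcode (matF (k x) (l x) (m x) (n x) (d x))) := by
  refine fp_andF (FP.range hm) (g := fun y : E × ℕ =>
    andF ((List.range (n y.1)).map (fun j => .and (copF y.2 j (entD (d y.1) y.2 j))
      (entF (k y.1) (l y.1) y.2 j (entD (d y.1) y.2 j))))) ?_
  refine fp_andF (FP.range (FP.comp hn FP.fst)) (g := fun z : (E × ℕ) × ℕ =>
    .and (copF z.1.2 z.2 (entD (d z.1.1) z.1.2 z.2))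
      (entF (k z.1.1) (l z.1.1) z.1.2 z.2 (entD (d z.1.1) z.1.2 z.2))) ?_
  have h1 : FP (fun z : (E × ℕ) × ℕ => z.1.1) := FP.comp FP.fst FP.fst
  have h2 : FP (fun z : (E × ℕ) × ℕ => z.1.2) := FP.comp FP.snd FP.fst
  have h3 : FP (fun z : (E × ℕ) × ℕ => z.2) := FP.snd
  have h4 := fp_entD (FP.comp hd h1) h2 h3
  exact fp_fand (fp_copF h2 h3 h4) (fp_entF (FP.comp hk h1) (FP.comp hl h1) h2 h3 h4)

theorem fp_instF {d : E → Dat} (hd : FP d) : FP (fun x => fcode (instF (d x))) := by
  unfold instF formF
  have hm : FP (fun x => (d x).1.length) := FP.lengthE (FP.comp FP.fst hd)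
  have hm1 : FP (fun x => (d x).1.length + 1) := FP.add hm (FP.const 1)
  have hk : FP (fun x => capval ((d x).1.length + 1) (d x).2.1) :=
    fp_capval hm1 (FP.comp FP.fst (FP.comp FP.snd hd))
  have hl : FP (fun x => capval ((d x).1.length + 1) (d x).2.2) :=
    fp_capval hm1 (FP.comp FP.snd (FP.comp FP.snd hd))
  have hn := fp_ncols hd
  exact fp_fand (fp_matF hk hl hm hn hd) (fp_fand (fp_fand (fp_idF 2 0 hk hm) (fp_idF 1 3 hk hn))
    (fp_fand (fp_idF 6 4 hl hm) (fp_idF 5 7 hl hn)))

/-! ### Validity of codes -/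

/-- validity of the code of a rational number, except for coprimality -/
def okEnt (e : Ent) : Bool :=
  okN e.1.1 && (okN e.1.2 && (okN e.2 && ((e.1.1.isEmpty || e.1.2.isEmpty) && !e.2.isEmpty)))

theorem fp_okEnt {e : E → Ent} (he : FP e) : FP (fun x => okEnt (e x)) := by
  have h1 := FP.comp FP.fst (FP.comp FP.fst he)
  have h2 := FP.comp FP.snd (FP.comp FP.fst he)
  have h3 := FP.comp FP.snd he
  exact FP.and (fp_okN h1) (FP.and (fp_okN h2) (FP.and (fp_okN h3)
    (FP.and (FP.or (FP.isEmpty h1) (FP.isEmpty h2)) (FP.not (FP.isEmpty h3)))))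

/-- validity of a parsed instance, except for coprimality -/
def okDat (d : Dat) : Bool :=
  (d.1.all (fun r => decide (r.length = ncols d) && r.all (fun e => okEnt e))) &&
    (okN d.2.1 && okN d.2.2)

theorem fp_okDat {d : E → Dat} (hd : FP d) : FP (fun x => okDat (d x)) := by
  refine FP.and ?_ (FP.and (fp_okN (FP.comp FP.fst (FP.comp FP.snd hd)))
    (fp_okN (FP.comp FP.snd (FP.comp FP.snd hd))))
  refine fp_allE' (FP.comp FP.fst hd) (p := fun y : E × List Ent =>
    decide (y.2.length = ncols (d y.1)) && y.2.all (fun e => okEnt e)) ?_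
  refine FP.and (FP.natEq (FP.lengthE FP.snd) (fp_ncols (FP.comp hd FP.fst))) ?_
  exact fp_allE' FP.snd (p := fun z : (E × List Ent) × Ent => okEnt z.2) (fp_okEnt FP.snd)

/-- Is the string a code, except for coprimality? -/
def validS (s : List Sym) : Bool := decide (unparseDat (parseDat s) = s) && okDat (parseDat s)

/-- a false formula -/
def falseF : Formula := .eq (.const 0) (.const 1)

/-- the output of the reduction -/
def outF (s : List Sym) : Formula := if validS s then instF (parseDat s) else falseF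

theorem fp_outF {s : E → List Sym} (hs : FP s) : FP (fun x => fcode (outF (s x))) := by
  have h1 : FP (fun x => validS (s x)) :=
    FP.and (FP.eqS (fp_unparseDat (fp_parseDat hs)) hs) (fp_okDat (fp_parseDat hs))
  refine (FP.ite h1 (fp_instF (fp_parseDat hs)) (FP.const (fcode falseF))).congr (fun x => ?_)
  unfold outF
  split_ifs <;> rfl

/-! ### Instances -/

/-- the parsed code of a rational number -/
def entOf (q : ℚ) : Ent := ((natName q.num.toNat, natName (-q.num).toNat), natName q.den)

/-- the parsed code of an instance -/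
def datOf {m n : ℕ} (M : Matrix (Fin m) (Fin n) ℚ) (k₁ k₂ : ℕ) : Dat :=
  (List.ofFn fun i => List.ofFn fun j => entOf (M i j), (natName k₁, natName k₂))

theorem bitEncode_rat (q : ℚ) : (bitEncode q).map bs = unparseEnt (entOf q) := by
  change (bitEncode (q.num, q.den)).map bs = _
  rw [bitEncode_prod]
  change del ((bitEncode (q.num.toNat, (-q.num).toNat)).map bs) ++ _ = _
  rw [bitEncode_prod]
  rfl

theorem encodeInstance_eq {m n : ℕ} (M : Matrix (Fin m) (Fin n) ℚ) (k₁ k₂ : ℕ) :
    (encodeInstance M k₁ k₂).map bs = unparseDat (datOf M k₁ k₂) := by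
  unfold encodeInstance
  rw [bitEncode_prod, bitEncode_prod]
  unfold unparseDat datOf
  simp only
  congr 1
  rw [bitEncode_list]
  have h1 : (List.ofFn fun i => List.ofFn fun j => entOf (M i j)) =
      (List.ofFn fun i => List.ofFn fun j => M i j).map (fun r => r.map entOf) := by
    rw [List.map_ofFn]
    congr 1
    funext i
    simp [List.map_ofFn, Function.comp_def]
  rw [h1, List.flatMap_map]
  congr 2
  funext r
  rw [bitEncode_list, List.flatMap_map]
  congr 2
  funext q
  rw [bitEncode_rat]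

theorem entD_datOf {m n : ℕ} (M : Matrix (Fin m) (Fin n) ℚ) (k₁ k₂ : ℕ) (i : Fin m) (j : Fin n) :
    entD (datOf M k₁ k₂) i j = entOf (M i j) := by
  simp [entD, datOf, List.getElem?_ofFn]

theorem ncols_datOf {m n : ℕ} (M : Matrix (Fin m) (Fin n) ℚ) (k₁ k₂ : ℕ) (hm : 0 < m) :
    ncols (datOf M k₁ k₂) = n := by
  simp [ncols, datOf, List.getElem?_ofFn, hm]

theorem natName_zero : natName 0 = [] := rfl

theorem natName_eq_nil {n : ℕ} (h : natName n = []) : n = 0 := by
  have := sval_natName n
  rw [h] at this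
  simpa [sval] using this.symm

theorem okEnt_entOf (q : ℚ) : okEnt (entOf q) = true := by
  unfold okEnt entOf
  simp only [okN_natName, Bool.true_and, Bool.and_eq_true, Bool.or_eq_true,
    List.isEmpty_iff, Bool.not_eq_true']
  constructor
  · rcases le_total q.num 0 with h | h
    · left
      rw [Int.toNat_of_nonpos h]; rfl
    · right
      rw [Int.toNat_of_nonpos (by omega)]; rfl
  · rw [← Bool.not_eq_true, List.isEmpty_iff]
    intro h
    exact q.den_nz (natName_eq_nil h)

theorem okDat_datOf {m n : ℕ} (M : Matrix (Fin m) (Fin n) ℚ) (k₁ k₂ : ℕ) :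
    okDat (datOf M k₁ k₂) = true := by
  unfold okDat
  rw [Bool.and_eq_true, List.all_eq_true]
  refine ⟨fun r hr => ?_, ?_⟩
  · obtain ⟨i, rfl⟩ := (List.mem_ofFn' _ _).1 hr
    rw [Bool.and_eq_true, decide_eq_true_eq, List.all_eq_true]
    refine ⟨?_, fun e he => ?_⟩
    · rw [ncols_datOf M k₁ k₂ (Fin.pos i), List.length_ofFn]
    · obtain ⟨j, rfl⟩ := (List.mem_ofFn' _ _).1 he
      exact okEnt_entOf _
  · change (okN (natName k₁) && okN (natName k₂)) = true
    rw [okN_natName, okN_natName]; rfl

theorem okEnt_iff (e : Ent) : okEnt e = true ↔ okN e.1.1 = true ∧ okN e.1.2 = true ∧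
    okN e.2 = true ∧ (e.1.1 = [] ∨ e.1.2 = []) ∧ e.2 ≠ [] := by
  unfold okEnt
  simp only [Bool.and_eq_true, Bool.or_eq_true, List.isEmpty_iff, Bool.not_eq_true',
    ← Bool.not_eq_true, ne_eq]

theorem nval_pos {w : List Sym} (h : okN w = true) (h' : w ≠ []) : 0 < nval w := by
  rw [Nat.pos_iff_ne_zero]
  intro h0
  have := natName_nval' h
  rw [h0] at this
  exact h' this.symm

theorem nval_nil : nval [] = 0 := by
  unfold nval
  split_ifs <;> rfl

/-- The rational number of an entry in lowest terms has this entry as its code. -/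
theorem entOf_entQ {e : Ent} (h : okEnt e = true)
    (hc : Nat.Coprime (nval e.1.1 + nval e.1.2) (nval e.2)) : entOf (entQ e) = e := by
  rw [okEnt_iff] at h
  obtain ⟨h1, h2, h3, h4, h5⟩ := h
  have h6 := nval_pos h3 h5
  have hb : (0 : ℤ) < (nval e.2 : ℤ) := by exact_mod_cast h6
  have habs : ((nval e.1.1 : ℤ) - (nval e.1.2 : ℤ)).natAbs = nval e.1.1 + nval e.1.2 := by
    rcases h4 with h4 | h4
    · rw [h4, nval_nil]; omega
    · rw [h4, nval_nil]; omega
  have hcop : Nat.Coprime ((nval e.1.1 : ℤ) - (nval e.1.2 : ℤ)).natAbs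
      ((nval e.2 : ℤ)).natAbs := by
    rw [habs, Int.natAbs_natCast]
    exact hc
  have hnum : (entQ e).num = (nval e.1.1 : ℤ) - (nval e.1.2 : ℤ) :=
    Rat.num_div_eq_of_coprime hb hcop
  have hden : ((entQ e).den : ℤ) = (nval e.2 : ℤ) := Rat.den_div_eq_of_coprime hb hcop
  have hden' : (entQ e).den = nval e.2 := by exact_mod_cast hden
  unfold entOf
  rw [hnum, hden', natName_nval' h3]
  have e1 : ((nval e.1.1 : ℤ) - (nval e.1.2 : ℤ)).toNat = nval e.1.1 := by
    rcases h4 with h4 | h4
    · rw [h4, nval_nil]; omega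
    · rw [h4, nval_nil]; omega
  have e2 : (-((nval e.1.1 : ℤ) - (nval e.1.2 : ℤ))).toNat = nval e.1.2 := by
    rcases h4 with h4 | h4
    · rw [h4, nval_nil]; omega
    · rw [h4, nval_nil]; omega
  rw [e1, e2, natName_nval' h1, natName_nval' h2]

theorem entQ_entOf (q : ℚ) : entQ (entOf q) = q := by
  unfold entQ entOf
  simp only [nval_natName]
  have h1 : ((q.num.toNat : ℤ) - ((-q.num).toNat : ℤ)) = q.num := by omega
  rw [h1]
  exact_mod_cast Rat.num_div_den q

theorem coprime_entOf (q : ℚ) :
    Nat.Coprime (nval (entOf q).1.1 + nval (entOf q).1.2) (nval (entOf q).2) := by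
  unfold entOf
  simp only [nval_natName]
  have h1 : q.num.toNat + (-q.num).toNat = q.num.natAbs := by omega
  rw [h1]
  exact q.reduced

theorem okDat_entD {d : Dat} (h : okDat d = true) {i j : ℕ} (hi : i < d.1.length)
    (hj : j < ncols d) : okEnt (entD d i j) = true := by
  unfold okDat at h
  rw [Bool.and_eq_true, List.all_eq_true] at h
  have h1 := h.1 _ (List.getElem_mem hi)
  rw [Bool.and_eq_true, decide_eq_true_eq, List.all_eq_true] at h1
  have hj' : j < d.1[i].length := by rw [h1.1]; exact hj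
  have h2 := h1.2 _ (List.getElem_mem hj')
  unfold entD
  rw [List.getElem?_eq_getElem hi, Option.getD_some, List.getElem?_eq_getElem hj',
    Option.getD_some]
  exact h2

theorem datOf_matD {d : Dat} (h : okDat d = true)
    (hc : ∀ i < d.1.length, ∀ j < ncols d, Nat.Coprime (nval (entD d i j).1.1 +
      nval (entD d i j).1.2) (nval (entD d i j).2)) :
    datOf (matD d.1.length (ncols d) d) (nval d.2.1) (nval d.2.2) = d := by
  have h0 := h
  unfold okDat at h0
  rw [Bool.and_eq_true, List.all_eq_true, Bool.and_eq_true] at h0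
  unfold datOf
  refine Prod.ext ?_ (Prod.ext (natName_nval' h0.2.1) (natName_nval' h0.2.2))
  apply List.ext_getElem
  · simp
  · intro i hi hi'
    simp only [List.getElem_ofFn]
    have h1 := h0.1 _ (List.getElem_mem hi')
    rw [Bool.and_eq_true, decide_eq_true_eq] at h1
    apply List.ext_getElem
    · rw [List.length_ofFn, h1.1]
    · intro j hj hj'
      rw [List.getElem_ofFn]
      have hjn : j < ncols d := by rw [← h1.1]; exact hj'
      change entOf (entQ (entD d i j)) = _
      rw [entOf_entQ (okDat_entD h hi' hjn) (hc i hi' j hjn)]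
      unfold entD
      rw [List.getElem?_eq_getElem hi', Option.getD_some, List.getElem?_eq_getElem hj',
        Option.getD_some]

theorem HasHadamardDecomposition.le {m n : ℕ} {M : Matrix (Fin m) (Fin n) ℚ} {k₁ k₂ : ℕ}
    (h : HasHadamardDecomposition M k₁ k₂) : k₁ ≤ m ∧ k₂ ≤ m := by
  obtain ⟨M₁, M₂, h1, h2, -⟩ := h
  constructor
  · rw [← h1]
    exact (Matrix.rank_le_card_height M₁).trans (by simp)
  · rw [← h2]
    exact (Matrix.rank_le_card_height M₂).trans (by simp)

/-- The output is a true sentence exactly for the yes-instances. -/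
theorem outF_iff (w : List Bool) :
    HadamardDecompositionProblem w = true ↔ ∃ x, (outF (w.map bs)).Holds x := by
  classical
  unfold HadamardDecompositionProblem
  rw [decide_eq_true_eq]
  constructor
  · rintro ⟨m, n, M, k₁, k₂, rfl, hM⟩
    have hval : validS ((encodeInstance M k₁ k₂).map bs) = true := by
      unfold validS
      rw [encodeInstance_eq, parse_unparse, okDat_datOf, decide_eq_true rfl]
      rfl
    unfold outF
    rw [if_pos hval, encodeInstance_eq, parse_unparse]
    obtain ⟨hk1, hk2⟩ := hM.le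
    have hlen : (datOf M k₁ k₂).1.length = m := by simp [datOf]
    unfold instF
    have hc1 : capval ((datOf M k₁ k₂).1.length + 1) (datOf M k₁ k₂).2.1 = k₁ := by
      rw [hlen, capval_eq]
      change min (m + 1) (sval (natName k₁)) = k₁
      rw [sval_natName]
      omega
    have hc2 : capval ((datOf M k₁ k₂).1.length + 1) (datOf M k₁ k₂).2.2 = k₂ := by
      rw [hlen, capval_eq]
      change min (m + 1) (sval (natName k₂)) = k₂
      rw [sval_natName]
      omega
    rw [hc1, hc2, hlen]
    rcases Nat.eq_zero_or_pos m with hm | hm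
    · subst hm
      refine (holds_formF k₁ k₂ (fun i hi => by omega)).2 ⟨fun i hi => by omega, ?_⟩
      refine ⟨0, 0, ?_, ?_, fun i => i.elim0⟩
      · rw [Matrix.rank_zero]; omega
      · rw [Matrix.rank_zero]; omega
    · rw [ncols_datOf M k₁ k₂ hm]
      refine (holds_formF k₁ k₂ (fun i hi j hj => ?_)).2 ⟨fun i hi j hj => ?_, ?_⟩
      · rw [entD_datOf M k₁ k₂ ⟨i, hi⟩ ⟨j, hj⟩]
        have := (okEnt_iff _).1 (okEnt_entOf (M ⟨i, hi⟩ ⟨j, hj⟩))
        exact nval_pos this.2.2.1 this.2.2.2.2
      · rw [entD_datOf M k₁ k₂ ⟨i, hi⟩ ⟨j, hj⟩]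
        exact coprime_entOf _
      · have : matD m n (datOf M k₁ k₂) = M := by
          ext i j
          unfold matD
          rw [entD_datOf, entQ_entOf]
        rw [this]
        exact hM
  · rintro ⟨x, hx⟩
    unfold outF at hx
    by_cases hval : validS (w.map bs) = true
    · rw [if_pos hval] at hx
      unfold validS at hval
      rw [Bool.and_eq_true, decide_eq_true_eq] at hval
      obtain ⟨hs, hok⟩ := hval
      set d := parseDat (w.map bs) with hd
      unfold instF at hx
      have hpos : ∀ i < d.1.length, ∀ j < ncols d, 0 < nval (entD d i j).2 := by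
        intro i hi j hj
        have := (okEnt_iff _).1 (okDat_entD hok hi hj)
        exact nval_pos this.2.2.1 this.2.2.2.2
      obtain ⟨hcop, hH⟩ := (holds_formF _ _ hpos).1 ⟨x, hx⟩
      have hokk : okN d.2.1 = true ∧ okN d.2.2 = true := by
        have h0 := hok
        unfold okDat at h0
        rw [Bool.and_eq_true, Bool.and_eq_true] at h0
        exact h0.2
      have hk := hH.le
      have hc1 : capval (d.1.length + 1) d.2.1 = nval d.2.1 := by
        have h1 := capval_eq (d.1.length + 1) d.2.1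
        have h2 : nval d.2.1 = sval d.2.1 := by unfold nval; rw [if_pos hokk.1]
        omega
      have hc2 : capval (d.1.length + 1) d.2.2 = nval d.2.2 := by
        have h1 := capval_eq (d.1.length + 1) d.2.2
        have h2 : nval d.2.2 = sval d.2.2 := by unfold nval; rw [if_pos hokk.2]
        omega
      rw [hc1, hc2] at hH
      refine ⟨d.1.length, ncols d, matD d.1.length (ncols d) d, nval d.2.1, nval d.2.2, ?_, hH⟩
      apply List.map_injective_iff.2 bs_injective
      rw [encodeInstance_eq, datOf_matD hok hcop, hs]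
    · rw [if_neg hval] at hx
      simp [falseF, Formula.Holds, PolyExpr.eval] at hx

theorem unbits (w : List Bool) :
    (splitB ((bitEncode w).map bs)).flatMap (fun s => s) = w.map bs := by
  rw [bitEncode_list]
  have h1 : w.flatMap (fun a => del ((bitEncode a).map bs)) =
      (w.map (fun b => [bs b])).flatMap del := by
    rw [List.flatMap_map]
    rfl
  rw [h1, splitB_flatMap, List.flatMap_map]
  exact flatMap_single _ _

/-- The Hadamard decomposition problem is in `∃ℝ`. -/
theorem hd_reduces_etr : N793a5b8e.ManyOneReducible HadamardDecompositionProblem ETR := by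
  refine ⟨fun w => bitEncode (outF (w.map bs)).tokens, ?_, fun w => ?_⟩
  · have hs : FP (fun s : List Sym => (splitB s).flatMap (fun s => s)) :=
      FP.flatMapS (FP.splitB FP.id) (g := fun y : List Sym × List Sym => y.2) FP.snd
    refine isPolyTime_of_fp (g := fun s => fcode (outF ((splitB s).flatMap (fun s => s))))
      (fp_outF hs) (fun w => ?_)
    rw [unbits, fcode_eq]
  · rw [Bool.eq_iff_iff, etr_code, outF_iff]

end Pool.Agent.Hadamard
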