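import Pool.Agent.Lib_MP_c79a71_lc.FPMat
import Pool.Agent.Lib_MP_c79a71_lc.Member

set_option autoImplicit false
set_option linter.unusedSectionVars false
set_option linter.unusedSimpArgs false
set_option linter.unusedVariables false

/-!
# The code of the matrix
-/

namespace Pool.Agent.Hadamard

open Pool.Agent.PartSep.TM Pool.Agent.PartSep.CL
open Pool.Agent.PartSep.TM.Rep N487b59b3

set_option synthInstance.maxSize 2000

/-- number of common positions of one entry -/
def cnt1 (s : Bool) (ρ : SV) (e' : (ℕ × ℕ) × Bool) : ℕ :=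
  (ρ.flatMap (fun e => if decide (e.1.1 = e'.1.1) && (decide (e.1.2 = e'.1.2) &&
    !((e.2 != e'.2) != s)) then [0] else [])).length

theorem cnt1_eq (ρ : SV) (e' : (ℕ × ℕ) × Bool) :
    (if e'.2 then coef ρ e'.1 else -coef ρ e'.1) = (cnt1 false ρ e' : ℤ) - cnt1 true ρ e' := by
  obtain ⟨⟨a, b⟩, s⟩ := e'
  induction ρ with
  | nil => simp [coef, cnt1]
  | cons e ρ ih =>
    obtain ⟨⟨a', b'⟩, s'⟩ := e
    have h1 : coef (((a', b'), s') :: ρ) (a, b) =
        (if (a', b') = (a, b) then (if s' then (1 : ℤ) else -1) else 0) + coef ρ (a, b) := rfl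
    have h2 : ∀ c : Bool, cnt1 c (((a', b'), s') :: ρ) ((a, b), s) =
        (if decide (a' = a) && (decide (b' = b) && !((s' != s) != c)) then 1 else 0) +
          cnt1 c ρ ((a, b), s) := by
      intro c
      unfold cnt1
      rw [List.flatMap_cons, List.length_append]
      congr 1
      split_ifs <;> rfl
    rw [h2, h2]
    simp only [h1, Prod.mk.injEq] at ih ⊢
    by_cases hab : a' = a ∧ b' = b
    · obtain ⟨rfl, rfl⟩ := hab
      cases s <;> cases s' <;> simp at ih ⊢ <;> omega
    · rw [if_neg hab]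
      have : (decide (a' = a) && decide (b' = b)) = false := by
        rw [← Bool.not_eq_true, Bool.and_eq_true, decide_eq_true_eq, decide_eq_true_eq]
        exact hab
      have h3 : ∀ c : Bool, (decide (a' = a) && (decide (b' = b) && c)) = false := by
        intro c
        rw [← Bool.and_assoc, this, Bool.false_and]
      simp only [h3, Bool.false_eq_true, if_false, zero_add]
      exact ih

theorem cnt_eq (ρ γ : SV) :
    (γ.map (fun e => if e.2 then coef ρ e.1 else -coef ρ e.1)).sum =
      (cnt false ρ γ : ℤ) - cnt true ρ γ := by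
  induction γ with
  | nil => simp [cnt]
  | cons e' γ ih =>
    have h2 : ∀ c : Bool, cnt c ρ (e' :: γ) = cnt1 c ρ e' + cnt c ρ γ := by
      intro c
      unfold cnt cnt1
      rw [List.flatMap_cons, List.length_append]
    rw [List.map_cons, List.sum_cons, ih, cnt1_eq, h2, h2]
    push_cast
    ring

theorem coef_of_c0 {ρ : SV} (h : c0 ρ = 0) : coef ρ (0, 0) = 0 := by
  unfold c0 at h
  rw [List.length_eq_zero_iff, List.flatMap_eq_nil_iff] at h
  unfold coef
  apply List.sum_eq_zero
  intro x hx
  obtain ⟨e, he, rfl⟩ := List.mem_map.1 hx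
  have h1 := h e he
  have h2 : e.1 ≠ (0, 0) := by
    intro h2
    simp [h2] at h1
  rw [if_neg h2]

/-- rows for which the entries are easy to compute -/
def RGood (ρ : SV) : Prop := c0 ρ = 0 ∨ ((∀ e ∈ ρ, e.2 = true) ∧ coef ρ (0, 0) = 1)

/-- columns for which the entries are easy to compute -/
def CGood (γ : SV × Name) : Prop := γ.2 = [] ∨ (okN γ.2 = true ∧ ∀ e ∈ γ.1, e.2 = true)

theorem cnt_true_eq_zero {ρ γ : SV} (h : ∀ e ∈ ρ, e.2 = true) (h' : ∀ e ∈ γ, e.2 = true) :
    cnt true ρ γ = 0 := by
  unfold cnt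
  rw [List.length_eq_zero_iff, List.flatMap_eq_nil_iff]
  intro e' he'
  rw [List.flatMap_eq_nil_iff]
  intro e he
  rw [h e he, h' e' he']
  simp

theorem entOf_int (z : ℤ) : entOf (z : ℚ) = ((natName z.toNat, natName (-z).toNat), natName 1) := by
  unfold entOf
  rw [Rat.num_intCast, Rat.den_intCast]

theorem entN_eq {ρ : SV} {γ : SV × Name} (hρ : RGood ρ) (hγ : CGood γ) :
    entN ρ γ = entOf (ent ρ (svl γ) : ℚ) := by
  rw [entOf_int]
  unfold entN
  by_cases h : c0 ρ = 0 ∨ γ.2 = []
  · have h1 : (decide (c0 ρ = 0) || γ.2.isEmpty) = true := by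
      simpa [Bool.or_eq_true] using h
    rw [if_pos h1]
    have h2 : ent ρ (svl γ) = (cnt false ρ γ.1 : ℤ) - cnt true ρ γ.1 := by
      unfold ent svl
      simp only
      rw [cnt_eq]
      rcases h with h | h
      · rw [coef_of_c0 h]; ring
      · rw [h, sval_nil]; push_cast; ring
    rw [h2]
    have e1 : ((cnt false ρ γ.1 : ℤ) - cnt true ρ γ.1).toNat =
        cnt false ρ γ.1 - cnt true ρ γ.1 := by omega
    have e2 : (-((cnt false ρ γ.1 : ℤ) - cnt true ρ γ.1)).toNat =
        cnt true ρ γ.1 - cnt false ρ γ.1 := by omega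
    rw [e1, e2]
  · have h1 : ¬ (decide (c0 ρ = 0) || γ.2.isEmpty) = true := by
      simpa [Bool.or_eq_true] using h
    rw [if_neg h1]
    rw [not_or] at h
    obtain ⟨hs, hc⟩ := hρ.resolve_left h.1
    obtain ⟨hok, hs'⟩ := hγ.resolve_left h.2
    have h2 : ent ρ (svl γ) = ((sval γ.2 + cnt false ρ γ.1 : ℕ) : ℤ) := by
      unfold ent svl
      simp only
      rw [cnt_eq, hc, cnt_true_eq_zero hs hs']
      push_cast
      ring
    rw [h2, iterate_incR hok]
    have e2 : (-((sval γ.2 + cnt false ρ γ.1 : ℕ) : ℤ)).toNat = 0 := by omega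
    rw [e2, Int.toNat_natCast]
    rfl

theorem c0_eq_zero {ρ : SV} (h : ∀ e ∈ ρ, e.1 ≠ (0, 0)) : c0 ρ = 0 := by
  unfold c0
  rw [List.length_eq_zero_iff, List.flatMap_eq_nil_iff]
  intro e he
  have := h e he
  by_cases h1 : e.1.1 = 0
  · have h2 : e.1.2 ≠ 0 := fun h2 => this (Prod.ext h1 h2)
    simp [h2]
  · simp [h1]

theorem two_ne {x x' : ℕ} {c c' : List (ℕ × Bool)} (h : x ≠ 0 ∨ ∀ p ∈ c, p.1 ≠ 0)
    (h' : x' ≠ 0 ∨ ∀ p ∈ c', p.1 ≠ 0) : ∀ e ∈ two x c x' c', e.1 ≠ (0, 0) := by
  intro e he
  simp only [two, List.mem_append, List.mem_map] at he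
  rcases he with ⟨p, hp, rfl⟩ | ⟨p, hp, rfl⟩
  · intro h0
    rcases h with h | h
    · exact h (congrArg Prod.fst h0)
    · exact h p hp (congrArg Prod.snd h0)
  · intro h0
    rcases h' with h | h
    · exact h (congrArg Prod.fst h0)
    · exact h p hp (congrArg Prod.snd h0)

theorem two_true {x x' : ℕ} {c c' : List (ℕ × Bool)} (h : ∀ p ∈ c, p.2 = true)
    (h' : ∀ p ∈ c', p.2 = true) : ∀ e ∈ two x c x' c', e.2 = true := by
  intro e he
  simp only [two, List.mem_append, List.mem_map] at he
  rcases he with ⟨p, hp, rfl⟩ | ⟨p, hp, rfl⟩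
  · exact h p hp
  · exact h' p hp

theorem low_good {x : ℕ} (hx : x ≠ 0) {c : List (ℕ × Bool)} (hc : c ∈ low) :
    RGood (same (x, 0) c) := by
  simp only [low, List.mem_cons, List.not_mem_nil, or_false] at hc
  rcases hc with rfl | rfl | rfl
  · right
    refine ⟨two_true (by simp) (by simp), ?_⟩
    simp [same, two, coef, hx]
  · left
    exact c0_eq_zero (two_ne (Or.inl hx) (Or.inr (by simp)))
  · right
    refine ⟨two_true (by simp) (by simp), ?_⟩
    simp [same, two, coef, hx]

theorem rows_good {q : ℕ} {ms : List (ℕ × ℕ × ℕ)} (ρ : SV) (hρ : ρ ∈ rows q ms) : RGood ρ := by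
  simp only [rows, List.mem_append] at hρ
  rcases hρ with ((((h | h) | h) | h) | h) | h
  · -- units
    simp only [units, List.mem_flatMap, List.mem_map, List.mem_range] at h
    obtain ⟨x, hx, y, hy, rfl⟩ := h
    by_cases h0 : (x, y) = (0, 0)
    · right
      rw [h0]
      exact ⟨by simp, by simp [coef]⟩
    · left
      exact c0_eq_zero (by
        intro e he
        rw [List.mem_singleton] at he
        rw [he]
        exact h0)
  · -- cliques
    simp only [cliques, List.mem_flatMap, List.mem_map, List.mem_range] at h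
    obtain ⟨x, hx, y, hy, y', hy', rfl⟩ := h
    by_cases h0 : x = 0 ∧ y' = 0
    · right
      obtain ⟨rfl, rfl⟩ := h0
      refine ⟨by simp, ?_⟩
      have : y ≠ 0 := by omega
      simp [coef, this]
    · left
      apply c0_eq_zero
      intro e he h1
      simp only [List.mem_cons, List.not_mem_nil, or_false] at he
      rcases he with rfl | rfl
      · have := congrArg Prod.snd h1
        simp only at this
        omega
      · exact h0 ⟨congrArg Prod.fst h1, congrArg Prod.snd h1⟩
  · -- relation A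
    simp only [rowsA, List.mem_flatMap, List.mem_map, List.mem_range] at h
    obtain ⟨i, hi, i', hi', rfl⟩ := h
    left
    exact c0_eq_zero (two_ne (Or.inr (by simp)) (Or.inr (by simp)))
  · -- relation B
    simp only [rowsB, List.mem_flatMap, List.mem_map] at h
    obtain ⟨r, hr, c, hc, rfl⟩ := h
    rcases rels_cases hr with ⟨j, hj, rfl⟩ | ⟨t, ht, rfl⟩ | ⟨t, ht, rfl⟩
    · exact low_good (by omega) hc
    · exact low_good (by omega) hc
    · left
      exact c0_eq_zero (two_ne (Or.inl (by simp)) (Or.inl (by simp)))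
  · -- rows E
    simp only [rowsE, List.mem_flatMap, List.mem_map, List.mem_range] at h
    obtain ⟨j, hj, p, hp, p', hp', rfl⟩ := h
    left
    exact c0_eq_zero (two_ne (Or.inl (by simp)) (Or.inr (by simp)))
  · -- rows G
    simp only [rowsG, List.mem_flatMap, List.mem_map, List.mem_range] at h
    obtain ⟨t, ht, p, hp, rfl⟩ := h
    left
    exact c0_eq_zero (two_ne (Or.inl (by omega)) (Or.inr (by simp)))

theorem cols_good {q : ℕ} {cs : List (ℕ × Name)} {as ms : List (ℕ × ℕ × ℕ)}
    (hcs : ∀ g ∈ cs, okN g.2 = true) (γ : SV × Name) (hγ : γ ∈ colsN q cs as ms) : CGood γ := by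
  unfold colsN at hγ
  rw [List.mem_append, List.mem_map, List.mem_map] at hγ
  rcases hγ with ⟨γ', -, rfl⟩ | ⟨g, hg, rfl⟩
  · exact Or.inl rfl
  · exact Or.inr ⟨hcs g hg, two_true (by simp) (by simp)⟩

theorem datOf_matOf {R : List SV} {C : List (SV × Name)} (hR : ∀ ρ ∈ R, RGood ρ)
    (hC : ∀ γ ∈ C, CGood γ) (k : ℕ) :
    datOf (matOf R (C.map svl)) k (k + 2) = datN R C k := by
  unfold datOf datN
  refine Prod.ext ?_ rfl
  simp only
  apply List.ext_getElem
  · simp
  · intro i hi hi'
    rw [List.getElem_ofFn, List.getElem_map]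
    apply List.ext_getElem
    · simp
    · intro j hj hj'
      rw [List.getElem_ofFn, List.getElem_map]
      rw [entN_eq (hR _ (List.getElem_mem _)) (hC _ (List.getElem_mem _))]
      simp only [matOf, Fin.getElem_fin, List.getElem_map]

/-! ### Names of the constants -/

theorem tokGates_names (t : Tok) (p a b : ℕ) (ht : okN t.2 = true) :
    ∀ g ∈ tokGates t p a b, okN g.2.2 = true := by
  have h0 : okN [] = true := rfl
  unfold tokGates
  intro g hg
  split_ifs at hg with k0 k1 k2 k3 k4 k5 k6 k7 k8 k9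
  all_goals
    simp only [zt, pp, List.mem_cons, List.not_mem_nil, or_false, List.mem_append] at hg
  · rcases hg with rfl | rfl
    · exact ht
    · exact h0
  · rcases hg with rfl; exact ht
  · rcases hg with rfl; exact h0
  · rcases hg with rfl; exact h0
  · rcases hg with rfl; exact h0
  · rcases hg with rfl | rfl | rfl | rfl <;> exact h0
  · rcases hg with rfl | (rfl | rfl | rfl | rfl) | rfl | rfl | rfl <;> exact h0
  · rcases hg with rfl | (rfl | rfl | rfl | rfl) | rfl | rfl | rfl <;> exact h0
  · rcases hg with rfl; exact h0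
  · rcases hg with rfl; exact h0
  · rcases hg with rfl | rfl | rfl <;> exact h0

theorem gat_names (l : List Tok) (h : ∀ t ∈ l, okT t = true) :
    ∀ g ∈ gat l, okN g.2.2 = true := by
  induction l with
  | nil => intro g hg; simp [gat] at hg
  | cons t l ih =>
    intro g hg
    rw [gat, List.mem_append] at hg
    rcases hg with hg | hg
    · exact tokGates_names t _ _ _ ((okT_iff t).1 (h t (by simp))).2.1 g hg
    · exact ih (fun t ht => h t (by simp [ht])) g hg

theorem csN_names (l : List Tok) (h : ∀ t ∈ l, okT t = true) :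
    ∀ g ∈ csN (allG l), okN g.2 = true := by
  intro y hy
  obtain ⟨g, hg, _, rfl⟩ := mem_csN.1 hy
  unfold allG at hg
  rw [List.mem_append, List.mem_cons] at hg
  rcases hg with hg | rfl | hg
  · simp only [initG, List.mem_cons, List.not_mem_nil, or_false] at hg
    rcases hg with rfl | rfl | rfl
    · exact okN_natName 1
    · rfl
    · rfl
  · rfl
  · exact gat_names l h g hg

end Pool.Agent.Hadamard
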