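import Pool.Agent.Lib_MP_c79a71_lc.LinAlg

set_option autoImplicit false
set_option linter.unusedSectionVars false
set_option linter.unusedSimpArgs false
set_option linter.unusedVariables false

/-!
From frames to a solution of the system.
-/

namespace Pool.Agent.Hadamard

open Matrix

variable {n : ℕ}

theorem lv_nil : lv n [] = 0 := by
  funext i
  simp [lv]

theorem lv_cons (k : ℕ) (b : Bool) (c : List (ℕ × Bool)) :
    lv n ((k, b) :: c) = sg b • e n k + lv n c := by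
  funext i
  simp only [lv, List.map_cons, List.sum_cons, Pi.add_apply, Pi.smul_apply, smul_eq_mul, e]
  congr 1
  by_cases h : k = (i : ℕ)
  · simp [h]
  · simp [h, Ne.symm h]

theorem sg_true : sg true = 1 := rfl
theorem sg_false : sg false = -1 := rfl

theorem rv_append (ρ ρ' : SV) (a : ℕ) : rv n (ρ ++ ρ') a = rv n ρ a + rv n ρ' a := by
  funext i
  simp [rv]

theorem rv_map_same (c : List (ℕ × Bool)) (a : ℕ) :
    rv n (c.map (fun p => ((a, p.1), p.2))) a = lv n c := by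
  funext i
  simp only [rv, lv, List.map_map]
  congr 2
  funext p
  simp

theorem rv_map_ne (c : List (ℕ × Bool)) {a b : ℕ} (h : a ≠ b) :
    rv n (c.map (fun p => ((a, p.1), p.2))) b = 0 := by
  funext i
  simp only [rv, List.map_map, Pi.zero_apply]
  apply List.sum_eq_zero
  intro x hx
  obtain ⟨p, _, rfl⟩ := List.mem_map.1 hx
  simp [h]

theorem rv_two_left (c c' : List (ℕ × Bool)) {a a' : ℕ} (h : a ≠ a') :
    rv n (two a c a' c') a = lv n c := by
  rw [two, rv_append, rv_map_same, rv_map_ne _ (Ne.symm h), add_zero]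

theorem rv_two_right (c c' : List (ℕ × Bool)) {a a' : ℕ} (h : a ≠ a') :
    rv n (two a c a' c') a' = lv n c' := by
  rw [two, rv_append, rv_map_same, rv_map_ne _ h, zero_add]

theorem rv_two_ne (c c' : List (ℕ × Bool)) {a a' b : ℕ} (h : a ≠ b) (h' : a' ≠ b) :
    rv n (two a c a' c') b = 0 := by
  rw [two, rv_append, rv_map_ne _ h, rv_map_ne _ h', zero_add]

theorem cv_zero (γ : SV) (a : ℕ) : cv n (γ, 0) a = rv n γ a := by
  funext i
  simp [cv]

variable {k : ℕ} {R : List SV} {C : List (SV × ℕ)} {F : ℕ → Matrix (Fin n) (Fin n) ℝ}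

theorem Good.row2 (G : Good k n R C F) {a a' : ℕ} {c c' : List (ℕ × Bool)}
    (hρ : two a c a' c' ∈ R) (ha : a ≠ a') (h1 : a < k) (h2 : a' < k) (hc : lv n c ≠ 0)
    (hc' : lv n c' ≠ 0) :
    ∃ μ : ℝ, μ ≠ 0 ∧ lv n c ᵥ* (F a * (F a')⁻¹) = μ • lv n c' := by
  obtain ⟨u, s, hs⟩ := G.row _ hρ
  have e1 := hs a h1
  have e2 := hs a' h2
  rw [rv_two_left _ _ ha] at e1
  rw [rv_two_right _ _ ha] at e2
  exact row_rel (G.unit a h1) (G.unit a' h2) e1 e2 hc hc'

theorem Good.col2 (G : Good k n R C F) {a a' : ℕ} {c c' : List (ℕ × Bool)}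
    (hγ : (two a c a' c', 0) ∈ C) (ha : a ≠ a') (h1 : a < k) (h2 : a' < k) (hc : lv n c ≠ 0)
    (hc' : lv n c' ≠ 0) :
    ∃ μ : ℝ, μ ≠ 0 ∧ (F a * (F a')⁻¹) *ᵥ lv n c' = μ • lv n c := by
  obtain ⟨v, t, ht⟩ := G.col _ hγ
  have e1 := ht a h1
  have e2 := ht a' h2
  rw [cv_zero, rv_two_left _ _ ha] at e1
  rw [cv_zero, rv_two_right _ _ ha] at e2
  exact col_rel (G.unit a h1) (G.unit a' h2) e1 e2 hc hc'

theorem e_vecMul {i : ℕ} (h : i < n) (E : Matrix (Fin n) (Fin n) ℝ) : e n i ᵥ* E = E ⟨i, h⟩ := by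
  rw [e_eq_single h, single_one_vecMul]
  rfl

theorem mulVec_e {i : ℕ} (h : i < n) (E : Matrix (Fin n) (Fin n) ℝ) :
    E *ᵥ e n i = Eᵀ ⟨i, h⟩ := by
  rw [e_eq_single h, mulVec_single_one]
  rfl

theorem pair_ne_zero {i j : ℕ} (hi : i < n) : lv n [(i, true), (j, true)] ≠ 0 := by
  intro h
  have := congrFun h ⟨i, hi⟩
  simp only [lv_cons, lv_nil, sg_true, Pi.add_apply, Pi.smul_apply, smul_eq_mul, e,
    Pi.zero_apply, if_true] at this
  split_ifs at this <;> norm_num at this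

theorem single_ne_zero {i : ℕ} (hi : i < n) : lv n [(i, true)] ≠ 0 := by
  rw [lv_cons, lv_nil, sg_true, one_smul, add_zero]
  exact e_ne_zero hi

theorem inv_unit {E : Matrix (Fin n) (Fin n) ℝ} (h : IsUnit E) : IsUnit E⁻¹ := by
  rw [isUnit_iff_isUnit_det, isUnit_nonsing_inv_det_iff]
  exact (isUnit_iff_isUnit_det _).1 h

/-- relation A -/
theorem Good.relA (G : Good k n R C F) (hn : 2 ≤ n) (hk : 1 < k)
    (hR : ∀ i i', i < n - 1 → i' ≤ i → same (1, 0) [(i + 1, true), (i' + 1, true)] ∈ R)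
    (hC : ∀ c ∈ low, (same (1, 0) c, 0) ∈ C) :
    ∃ (μ : ℝ) (a : Fin n → ℝ), μ ≠ 0 ∧ (∀ i : Fin n, (i : ℕ) < 2 → a i = 0) ∧
      F 1 * (F 0)⁻¹ = μ • (1 + vecMulVec (e n 0) a) := by
  have hE : IsUnit (F 1 * (F 0)⁻¹) := (G.unit 1 hk).mul (inv_unit (G.unit 0 (by omega)))
  have hrow : ∀ i i' : ℕ, i ≠ 0 → i' ≠ 0 → i < n → i' < n →
      ∃ μ : ℝ, (e n i + e n i') ᵥ* (F 1 * (F 0)⁻¹) = μ • (e n i + e n i') := by
    intro i i' hi hi' hin hin'
    rcases le_total i' i with h | h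
    · obtain ⟨μ, -, hμ⟩ := G.row2 (hR (i - 1) (i' - 1) (by omega) (by omega)) (by norm_num) hk
        (by simp; omega) (pair_ne_zero (by omega)) (pair_ne_zero (by omega))
      rw [show i - 1 + 1 = i by omega, show i' - 1 + 1 = i' by omega] at hμ
      simp only [lv_cons, lv_nil, sg_true, one_smul, add_zero] at hμ
      exact ⟨μ, hμ⟩
    · obtain ⟨μ, -, hμ⟩ := G.row2 (hR (i' - 1) (i - 1) (by omega) (by omega)) (by norm_num) hk
        (by simp; omega) (pair_ne_zero (by omega)) (pair_ne_zero (by omega))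
      rw [show i - 1 + 1 = i by omega, show i' - 1 + 1 = i' by omega] at hμ
      simp only [lv_cons, lv_nil, sg_true, one_smul, add_zero] at hμ
      rw [add_comm (e n i')] at hμ
      exact ⟨μ, hμ⟩
  have hcol : ∀ c ∈ low, lv n c ≠ 0 → ∃ μ : ℝ, (F 1 * (F 0)⁻¹) *ᵥ lv n c = μ • lv n c := by
    intro c hc h0
    obtain ⟨μ, -, hμ⟩ := G.col2 (hC c hc) (by norm_num) hk (by simp; omega) h0 h0
    exact ⟨μ, hμ⟩
  have hc0 : ∀ i : ℕ, i < 2 → ∃ μ : ℝ, (F 1 * (F 0)⁻¹) *ᵥ e n i = μ • e n i := by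
    intro i hi
    obtain ⟨μ, hμ⟩ := hcol [(i, true)] (by interval_cases i <;> simp [low])
      (single_ne_zero (by omega))
    simp only [lv_cons, lv_nil, sg_true, one_smul, add_zero] at hμ
    exact ⟨μ, hμ⟩
  obtain ⟨μ', hμ'⟩ := hcol [(0, true), (1, true)] (by simp [low]) (pair_ne_zero (by omega))
  simp only [lv_cons, lv_nil, sg_true, one_smul, add_zero] at hμ'
  refine relA_form hn _ hE ?_ ?_ ?_ ?_
  · intro i hi
    obtain ⟨μ, hμ⟩ := hrow i i hi hi i.2 i.2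
    refine ⟨μ, ?_⟩
    rw [add_vecMul, e_vecMul i.2, e_eq_single i.2] at hμ
    funext j
    have := congrFun hμ j
    simp only [Pi.add_apply, Pi.smul_apply, smul_eq_mul] at this ⊢
    linarith
  · intro i i' hi hi' hne
    obtain ⟨μ, hμ⟩ := hrow i i' hi hi' i.2 i'.2
    refine ⟨μ, ?_⟩
    rw [add_vecMul, e_vecMul i.2, e_vecMul i'.2, e_eq_single i.2, e_eq_single i'.2] at hμ
    exact hμ
  · intro i hi
    obtain ⟨μ, hμ⟩ := hc0 i hi
    refine ⟨μ, ?_⟩
    rw [mulVec_e i.2, e_eq_single i.2] at hμ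
    exact hμ
  · intro i i' hi hi' hne
    refine ⟨μ', ?_⟩
    rw [mulVec_add, mulVec_e (show 0 < n by omega), mulVec_e (show 1 < n by omega),
      e_eq_single (show 0 < n by omega), e_eq_single (show 1 < n by omega)] at hμ'
    have h01 : ((i : ℕ) = 0 ∧ (i' : ℕ) = 1) ∨ ((i : ℕ) = 1 ∧ (i' : ℕ) = 0) := by
      have : (i : ℕ) ≠ i' := fun h => hne (Fin.ext h)
      omega
    rcases h01 with ⟨h0, h1⟩ | ⟨h1, h0⟩
    · rw [show i = ⟨0, by omega⟩ from Fin.ext h0, show i' = ⟨1, by omega⟩ from Fin.ext h1]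
      exact hμ'
    · rw [show i' = ⟨0, by omega⟩ from Fin.ext h0, show i = ⟨1, by omega⟩ from Fin.ext h1]
      exact (add_comm _ _).trans (hμ'.trans (congrArg (μ' • ·) (add_comm _ _)))

/-- relation B -/
theorem Good.relB (G : Good k n R C F) (hn : 2 ≤ n) {x y : ℕ} (hxy : x ≠ y) (hx : x < k)
    (hy : y < k) (hR : ∀ c ∈ low, same (x, y) c ∈ R)
    (hC : ∀ s s', s < n - 1 → s' ≤ s → (same (x, y) [(pos' s, true), (pos' s', true)], 0) ∈ C) :
    ∃ (μ : ℝ) (b : Fin n → ℝ), μ ≠ 0 ∧ (∀ i : Fin n, (i : ℕ) < 2 → b i = 0) ∧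
      F x * (F y)⁻¹ = μ • (1 + vecMulVec b (e n 1)) := by
  have hE : IsUnit (F x * (F y)⁻¹) := (G.unit x hx).mul (inv_unit (G.unit y hy))
  have hpos : ∀ i : ℕ, i ≠ 1 → i < n → ∃ s, s < n - 1 ∧ pos' s = i := by
    intro i hi hin
    by_cases h : i = 0
    · exact ⟨0, by omega, by simp [pos', h]⟩
    · refine ⟨i - 1, by omega, ?_⟩
      unfold pos'
      rw [if_neg (by omega)]
      omega
  have hcol : ∀ i i' : ℕ, i ≠ 1 → i' ≠ 1 → i < n → i' < n →
      ∃ μ : ℝ, (F x * (F y)⁻¹) *ᵥ (e n i + e n i') = μ • (e n i + e n i') := by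
    intro i i' hi hi' hin hin'
    obtain ⟨s, hs, rfl⟩ := hpos i hi hin
    obtain ⟨s', hs', rfl⟩ := hpos i' hi' hin'
    rcases le_total s' s with h | h
    · obtain ⟨μ, -, hμ⟩ := G.col2 (hC s s' hs h) hxy hx hy (pair_ne_zero hin) (pair_ne_zero hin)
      simp only [lv_cons, lv_nil, sg_true, one_smul, add_zero] at hμ
      exact ⟨μ, hμ⟩
    · obtain ⟨μ, -, hμ⟩ := G.col2 (hC s' s hs' h) hxy hx hy (pair_ne_zero hin') (pair_ne_zero hin')
      simp only [lv_cons, lv_nil, sg_true, one_smul, add_zero] at hμ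
      rw [add_comm (e n (pos' s'))] at hμ
      exact ⟨μ, hμ⟩
  have hrow : ∀ c ∈ low, lv n c ≠ 0 → ∃ μ : ℝ, lv n c ᵥ* (F x * (F y)⁻¹) = μ • lv n c := by
    intro c hc h0
    obtain ⟨μ, -, hμ⟩ := G.row2 (hR c hc) hxy hx hy h0 h0
    exact ⟨μ, hμ⟩
  have hr0 : ∀ i : ℕ, i < 2 → ∃ μ : ℝ, e n i ᵥ* (F x * (F y)⁻¹) = μ • e n i := by
    intro i hi
    obtain ⟨μ, hμ⟩ := hrow [(i, true)] (by interval_cases i <;> simp [low])
      (single_ne_zero (by omega))
    simp only [lv_cons, lv_nil, sg_true, one_smul, add_zero] at hμ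
    exact ⟨μ, hμ⟩
  obtain ⟨μ', hμ'⟩ := hrow [(0, true), (1, true)] (by simp [low]) (pair_ne_zero (by omega))
  simp only [lv_cons, lv_nil, sg_true, one_smul, add_zero] at hμ'
  refine relB_form hn _ hE ?_ ?_ ?_ ?_
  · intro i hi
    obtain ⟨μ, hμ⟩ := hr0 i hi
    refine ⟨μ, ?_⟩
    rw [e_vecMul i.2, e_eq_single i.2] at hμ
    exact hμ
  · intro i i' hi hi' hne
    refine ⟨μ', ?_⟩
    rw [add_vecMul, e_vecMul (show 0 < n by omega), e_vecMul (show 1 < n by omega),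
      e_eq_single (show 0 < n by omega), e_eq_single (show 1 < n by omega)] at hμ'
    have h01 : ((i : ℕ) = 0 ∧ (i' : ℕ) = 1) ∨ ((i : ℕ) = 1 ∧ (i' : ℕ) = 0) := by
      have : (i : ℕ) ≠ i' := fun h => hne (Fin.ext h)
      omega
    rcases h01 with ⟨h0, h1⟩ | ⟨h1, h0⟩
    · rw [show i = ⟨0, by omega⟩ from Fin.ext h0, show i' = ⟨1, by omega⟩ from Fin.ext h1]
      exact hμ'
    · rw [show i' = ⟨0, by omega⟩ from Fin.ext h0, show i = ⟨1, by omega⟩ from Fin.ext h1]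
      exact (add_comm _ _).trans (hμ'.trans (congrArg (μ' • ·) (add_comm _ _)))
  · intro i hi
    obtain ⟨μ, hμ⟩ := hcol i i hi hi i.2 i.2
    refine ⟨μ, ?_⟩
    rw [mulVec_add, mulVec_e i.2, e_eq_single i.2] at hμ
    funext j
    have := congrFun hμ j
    simp only [Pi.add_apply, Pi.smul_apply, smul_eq_mul] at this ⊢
    linarith
  · intro i i' hi hi' hne
    obtain ⟨μ, hμ⟩ := hcol i i' hi hi' i.2 i'.2
    refine ⟨μ, ?_⟩
    rw [mulVec_add, mulVec_e i.2, mulVec_e i'.2, e_eq_single i.2, e_eq_single i'.2] at hμ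
    exact hμ

end Pool.Agent.Hadamard
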