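import Pool.Agent.Lib_MP_c79a71_lc.MemParse

set_option autoImplicit false
set_option linter.unusedSectionVars false
set_option linter.unusedSimpArgs false
set_option linter.unusedVariables false

/-!
# Names of numbers given in unary
-/

namespace Pool.Agent.Hadamard

open Pool.Agent.PartSep.TM Pool.Agent.PartSep.CL
open Pool.Agent.PartSep.TM.Rep

set_option synthInstance.maxSize 2000

variable {E F : Type} [Rep E] [Rep F]

/-- binary increment -/
def incR : List Sym → List Sym
  | [] => [Sym.i]
  | a :: w => if a = Sym.i then Sym.o :: incR w else Sym.i :: w

def incStep (a : Sym) (s : Bool × List Sym) : Bool × List Sym :=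
  if s.1 then (if a = Sym.i then (true, Sym.o :: s.2) else (false, Sym.i :: s.2))
  else (false, a :: s.2)

def finF (r : Bool × List Sym) : List Sym := r.2.reverse ++ (if r.1 then [Sym.i] else [])

def incF (w : List Sym) : List Sym := finF (w.foldl (fun s a => incStep a s) (true, []))

theorem incF_eq (w : List Sym) : incF w = incR w := by
  have h1 : ∀ (w acc : List Sym), w.foldl (fun s a => incStep a s) (false, acc) =
      (false, w.reverse ++ acc) := by
    intro w
    induction w with
    | nil => intro acc; rfl
    | cons a w ih =>
      intro acc
      rw [List.foldl_cons]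
      have : incStep a (false, acc) = (false, a :: acc) := rfl
      rw [this, ih]
      simp
  have h2 : ∀ (w acc : List Sym),
      finF (w.foldl (fun s a => incStep a s) (true, acc)) = acc.reverse ++ incR w := by
    intro w
    induction w with
    | nil => intro acc; rfl
    | cons a w ih =>
      intro acc
      rw [List.foldl_cons]
      by_cases ha : a = Sym.i
      · have : incStep a (true, acc) = (true, Sym.o :: acc) := by simp [incStep, ha]
        rw [this, ih, incR, if_pos ha]
        simp
      · have : incStep a (true, acc) = (false, Sym.i :: acc) := by simp [incStep, ha]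
        rw [this, h1, incR, if_neg ha]
        simp [finF]
  have := h2 w []
  simpa [incF] using this

theorem fp_incF {w : E → List Sym} (hw : FP w) : FP (fun x => incF (w x)) := by
  have hs : FP (fun x => (w x).foldl (fun s a => incStep a s) (true, ([] : List Sym))) := by
    refine FP.foldl_growth hw (init := fun _ => (true, ([] : List Sym))) (FP.const _)
      (step := fun a y => incStep a y.2) (fun a => ?_) 2 ?_
    · unfold incStep
      refine FP.ite (FP.comp FP.fst FP.snd) ?_
        (FP.pair (FP.const _) (FP.cons a (FP.comp FP.snd FP.snd)))
      by_cases h : a = Sym.i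
      · simp only [h, if_true]
        exact FP.pair (FP.const _) (FP.cons _ (FP.comp FP.snd FP.snd))
      · simp only [h, if_false]
        exact FP.pair (FP.const _) (FP.cons _ (FP.comp FP.snd FP.snd))
    · intro a x s
      obtain ⟨b, l⟩ := s
      have h1 := size_bool true
      have h2 := size_bool false
      simp only [incStep]
      split_ifs <;> simp only [size_pair, size_list, List.length_cons, Polynomial.eval_ofNat] <;>
        omega
  exact FP.append (FP.reverse (FP.comp FP.snd hs))
    (FP.ite (FP.comp FP.fst hs) (FP.const _) (FP.const _))

theorem sval_incR (w : List Sym) : sval (incR w) = sval w + 1 := by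
  induction w with
  | nil => rfl
  | cons a w ih =>
    have h1 : ∀ (b : Sym) (u : List Sym), sval (b :: u) = 2 * sval u + (if b = Sym.i then 1 else 0) :=
      fun _ _ => rfl
    unfold incR
    by_cases ha : a = Sym.i
    · rw [if_pos ha, h1, h1, ih, if_pos ha, if_neg (by decide)]
      ring
    · rw [if_neg ha, h1, h1, if_neg ha, if_pos rfl]

theorem incR_bits {w : List Sym} (hw : ∀ a ∈ w, a = Sym.i ∨ a = Sym.o) :
    ∀ a ∈ incR w, a = Sym.i ∨ a = Sym.o := by
  induction w with
  | nil => simp [incR]
  | cons a w ih =>
    have hw' : ∀ b ∈ w, b = Sym.i ∨ b = Sym.o := fun b hb => hw b (by simp [hb])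
    unfold incR
    split_ifs with h
    · intro b hb
      rcases List.mem_cons.1 hb with rfl | hb
      · exact Or.inr rfl
      · exact ih hw' b hb
    · intro b hb
      rcases List.mem_cons.1 hb with rfl | hb
      · exact Or.inl rfl
      · exact hw' b hb

theorem canon_cons {a : Sym} {w : List Sym} (hw : w ≠ []) : canon (a :: w) = canon w := by
  unfold canon
  rw [List.reverse_cons]
  cases h : w.reverse with
  | nil => exact absurd (List.reverse_eq_nil_iff.1 h) hw
  | cons b l =>
    have : w.isEmpty = false := by
      cases w with
      | nil => exact absurd rfl hw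
      | cons _ _ => rfl
    simp [this]

theorem incR_ne_nil (w : List Sym) : incR w ≠ [] := by
  cases w with
  | nil => simp [incR]
  | cons a w => unfold incR; split_ifs <;> simp

theorem canon_incR {w : List Sym} (hw : canon w = true) : canon (incR w) = true := by
  induction w with
  | nil => rfl
  | cons a w ih =>
    have h1 : canon w = true := by
      by_cases h : w = []
      · rw [h]; rfl
      · rw [canon_cons h] at hw
        exact hw
    unfold incR
    split_ifs with h
    · rw [canon_cons (incR_ne_nil w)]
      exact ih h1
    · by_cases h2 : w = []
      · rw [h2]; rfl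
      · rw [canon_cons h2]
        exact h1

theorem okN_incR {w : List Sym} (hw : okN w = true) : okN (incR w) = true := by
  rw [okN_iff] at hw ⊢
  exact ⟨incR_bits hw.1, canon_incR hw.2⟩

theorem iterate_incR {w : List Sym} (hw : okN w = true) (m : ℕ) :
    incR^[m] w = natName (sval w + m) := by
  induction m generalizing w with
  | zero =>
    rw [Function.iterate_zero, id, add_zero]
    exact (natName_sval ((okN_iff w).1 hw).1 ((okN_iff w).1 hw).2).symm
  | succ m ih =>
    rw [Function.iterate_succ_apply, ih (okN_incR hw), sval_incR]
    congr 1
    ring

theorem length_incF (w : List Sym) : (incF w).length ≤ w.length + 1 := by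
  rw [incF_eq]
  induction w with
  | nil => simp [incR]
  | cons a w ih =>
    unfold incR
    split_ifs <;> simp only [List.length_cons] <;> omega

/-- addition of a number in unary to a number in binary -/
theorem fp_addName {w : E → List Sym} (hw : FP w) {m : E → ℕ} (hm : FP m) :
    FP (fun x => incR^[m x] (w x)) := by
  have := FP.natRec_growth hm hw (step := fun y => incF y.2) (fp_incF FP.snd) 1 (by
    intro x s
    simp only [size_list, Polynomial.eval_one]
    exact length_incF s)
  refine this.congr (fun x => ?_)
  have : (fun s => incF s) = incR := by
    funext s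
    exact incF_eq s
  rw [this]

/-- names of numbers given in unary -/
theorem fp_natName {f : E → ℕ} (hf : FP f) : FP (fun x => natName (f x)) := by
  refine (fp_addName (FP.const []) hf).congr (fun x => ?_)
  rw [iterate_incR rfl]
  congr 1
  simp [sval]

end Pool.Agent.Hadamard
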