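import Pool.Agent.Lib_MP_c79a71_lc.System
import Pool.Agent.Lib_MP_c79a71_lc.Inc

set_option autoImplicit false
set_option linter.unusedSectionVars false
set_option linter.unusedSimpArgs false
set_option linter.unusedVariables false

/-!
# The system of equations is a polynomial-time function of the tokens
-/

namespace Pool.Agent.Hadamard

open Pool.Agent.PartSep.TM Pool.Agent.PartSep.CL
open Pool.Agent.PartSep.TM.Rep

set_option synthInstance.maxSize 2000

variable {E F G : Type} [Rep E] [Rep F] [Rep G]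

theorem fp_if {p : E → Prop} [∀ x, Decidable (p x)] (hp : FP (fun x => decide (p x)))
    {f g : E → F} (hf : FP f) (hg : FP g) : FP (fun x => if p x then f x else g x) :=
  (FP.ite hp hf hg).congr (fun x => by by_cases h : p x <;> simp [h])

theorem fp_wire {p : E → ℕ} (hp : FP p) (s : ℕ) : FP (fun x => wire (p x) s) :=
  FP.add (FP.add (FP.const 3) (FP.mul (FP.const 10) hp)) (FP.const s)

theorem fp_gadd {a b c : E → ℕ} (ha : FP a) (hb : FP b) (hc : FP c) :
    FP (fun x => gadd (a x) (b x) (c x)) :=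
  FP.pair (FP.const 1) (FP.pair (FP.pair ha (FP.pair hb hc)) (FP.const []))

theorem fp_gmul {a b c : E → ℕ} (ha : FP a) (hb : FP b) (hc : FP c) :
    FP (fun x => gmul (a x) (b x) (c x)) :=
  FP.pair (FP.const 2) (FP.pair (FP.pair ha (FP.pair hb hc)) (FP.const []))

theorem fp_zt {p R z e : E → ℕ} (hp : FP p) (hR : FP R) (hz : FP z) (he : FP e) :
    FP (fun x => zt (p x) (R x) (z x) (e x)) :=
  FP.consE (fp_gmul hR hz (FP.const 1)) (FP.consE (fp_gmul hR (fp_wire hp 2) he)
    (FP.consE (fp_gadd he hz (FP.const 0)) (FP.const [])))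

theorem fp_pp {p : E → ℕ} (hp : FP p) : FP (fun x => pp (p x)) :=
  FP.consE (fp_gmul (fp_wire hp 4) (fp_wire hp 4) (fp_wire hp 6))
    (FP.consE (fp_gmul (fp_wire hp 5) (fp_wire hp 5) (fp_wire hp 7))
    (FP.consE (fp_gadd (fp_wire hp 1) (fp_wire hp 7) (fp_wire hp 6))
    (FP.consE (fp_gmul (fp_wire hp 4) (fp_wire hp 5) (FP.const 1)) (FP.const []))))

theorem fp_tokGates {t : E → Tok} {p a b : E → ℕ} (ht : FP t) (hp : FP p) (ha : FP a)
    (hb : FP b) : FP (fun x => tokGates (t x) (p x) (a x) (b x)) := by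
  have ht1 : FP (fun x => (t x).1) := FP.comp FP.fst ht
  have ht2 : FP (fun x => (t x).2) := FP.comp FP.snd ht
  have hk : ∀ k, FP (fun x => decide ((t x).1 = k)) := fun k => FP.natEq ht1 (FP.const k)
  have hw : ∀ s, FP (fun x => wire (p x) s) := fun s => fp_wire hp s
  have hc : ∀ c : ℕ, FP (fun _ : E => c) := fun c => FP.const c
  have hn : FP (fun _ : E => ([] : List Gate)) := FP.const []
  unfold tokGates
  refine fp_if (hk 0) ?_ (fp_if (hk 1) ?_ (fp_if (hk 2) ?_ (fp_if (hk 3) ?_ (fp_if (hk 4) ?_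
    (fp_if (hk 5) ?_ (fp_if (hk 6) ?_ (fp_if (hk 7) ?_ (fp_if (hk 8) ?_ (fp_if (hk 9) ?_ ?_)))))))))
  · exact FP.consE (FP.pair (hc 0) (FP.pair (FP.pair (hw 1) (FP.pair (hc 0) (hc 0))) ht2))
      (FP.consE (fp_gadd (hw 0) (hw 1) (hc 1)) hn)
  · exact FP.consE (FP.pair (hc 3) (FP.pair (FP.pair (hw 0) (FP.pair (hc 0) (hc 0))) ht2)) hn
  · exact FP.consE (fp_gadd (hw 0) ha (hc 1)) hn
  · exact FP.consE (fp_gadd ha hb (hw 0)) hn
  · exact FP.consE (fp_gmul ha hb (hw 0)) hn
  · exact FP.consE (fp_gadd hb (hw 1) ha) (fp_zt hp (hw 1) (hw 0) (hw 3))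
  · exact FP.consE (fp_gadd ha (hw 1) hb) (FP.appendE (fp_pp hp) (fp_zt hp (hw 6) (hw 8) (hw 0)))
  · exact FP.consE (fp_gadd hb (hw 1) ha) (FP.appendE (fp_pp hp) (fp_zt hp (hw 6) (hw 0) (hw 3)))
  · exact FP.consE (fp_gadd (hw 0) ha (hc 0)) hn
  · exact FP.consE (fp_gmul ha hb (hw 0)) hn
  · exact FP.consE (fp_gmul ha hb (hw 1)) (FP.consE (fp_gadd ha hb (hw 2))
      (FP.consE (fp_gadd (hw 0) (hw 1) (hw 2)) hn))

theorem fp_argT {k : E → ℕ} (hk : FP k) : FP (fun x => argT (k x)) := FP.natLe (FP.const 8) hk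

theorem fp_resT {k : E → ℕ} (hk : FP k) : FP (fun x => resT (k x)) := FP.natLe (FP.const 5) hk

theorem fp_okS {f : E → Bool} {s : E → List (ℕ × Bool)} (hf : FP f) (hs : FP s) (i : ℕ) :
    FP (fun x => okS (f x) (s x) i) :=
  FP.and (FP.natLt (FP.const i) (FP.lengthE hs))
    (FP.not (FP.bne (FP.comp FP.snd (FP.getE hs (FP.const i) (0, false))) hf))

theorem fp_pstep {t : E → Tok} {p : E → ℕ} {s : E → Bool × List (ℕ × Bool)} (ht : FP t)
    (hp : FP p) (hs : FP s) : FP (fun x => pstep (t x) (p x) (s x)) := by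
  have ht1 : FP (fun x => (t x).1) := FP.comp FP.fst ht
  have s1 : FP (fun x => (s x).1) := FP.comp FP.fst hs
  have s2 : FP (fun x => (s x).2) := FP.comp FP.snd hs
  have hk : ∀ k, FP (fun x => decide ((t x).1 = k)) := fun k => FP.natEq ht1 (FP.const k)
  have h28 : FP (fun x => decide ((t x).1 = 2 ∨ (t x).1 = 8)) :=
    (FP.or (hk 2) (hk 8)).congr (fun x => by simp)
  have hpr : FP (fun x => (p x, resT (t x).1)) := FP.pair hp (fp_resT ht1)
  unfold pstep
  refine fp_if (FP.natLt ht1 (FP.const 2)) ?_ (fp_if h28 ?_ ?_)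
  · exact FP.pair s1 (FP.consE hpr s2)
  · exact FP.pair (FP.and s1 (fp_okS (fp_argT ht1) s2 0)) (FP.consE hpr (FP.tailE s2))
  · exact FP.pair (FP.and s1 (FP.and (fp_okS (fp_argT ht1) s2 0) (fp_okS (fp_argT ht1) s2 1)))
      (FP.consE hpr (FP.tailE (FP.tailE s2)))

/-- the tokens from right to left, with their positions -/
def enT (l : List Tok) : List (ℕ × Tok) :=
  (List.range l.length).map (fun j => (j + 1, l[l.length - 1 - j]?.getD (0, [])))

theorem enT_cons (t : Tok) (l : List Tok) : enT (t :: l) = enT l ++ [(l.length + 1, t)] := by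
  unfold enT
  rw [List.length_cons, List.range_succ, List.map_append, List.map_singleton]
  congr 1
  · apply List.map_congr_left
    intro j hj
    have hj := List.mem_range.1 hj
    have e : l.length + 1 - 1 - j = (l.length - 1 - j) + 1 := by omega
    rw [e, List.getElem?_cons_succ]
  · simp

theorem pstk_eq (l : List Tok) :
    pstk l = (enT l).foldl (fun s y => pstep y.2 y.1 s) (true, []) := by
  induction l with
  | nil => rfl
  | cons t l ih => rw [enT_cons, List.foldl_append, ← ih]; rfl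

theorem fp_enT {l : E → List Tok} (hl : FP l) : FP (fun x => enT (l x)) :=
  FP.mapE (FP.range (FP.lengthE hl)) (g := fun y : E × ℕ =>
    (y.2 + 1, (l y.1)[(l y.1).length - 1 - y.2]?.getD (0, [])))
    (FP.pair (FP.add FP.snd (FP.const 1)) (FP.getE (FP.comp hl FP.fst)
      (FP.sub (FP.sub (FP.lengthE (FP.comp hl FP.fst)) (FP.const 1)) FP.snd) (0, [])))

theorem size_tail_le' (s : List (ℕ × Bool)) : size s.tail ≤ size s := size_tail_le s

theorem fp_pstk {l : E → List Tok} (hl : FP l) : FP (fun x => pstk (l x)) := by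
  obtain ⟨p, hp⟩ := (fp_enT hl).size_le
  have := FP.foldlE_growth (fp_enT hl) (init := fun _ => ((true, []) : Bool × List (ℕ × Bool)))
    (FP.const _) (step := fun y : E × (Bool × List (ℕ × Bool)) × (ℕ × Tok) =>
      pstep y.2.2.2 y.2.2.1 y.2.1)
    (fp_pstep (FP.comp FP.snd (FP.comp FP.snd FP.snd)) (FP.comp FP.fst (FP.comp FP.snd FP.snd))
      (FP.comp FP.fst FP.snd)) (10 + 2 * p) ?_
  · exact this.congr (fun x => (pstk_eq (l x)).symm)
  · intro x s a ha
    obtain ⟨b, st⟩ := s
    obtain ⟨j, t⟩ := a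
    have h1 := (size_le_of_mem ha).trans (hp x)
    rw [size_pair, size_nat] at h1
    simp only at h1
    have hb : ∀ c : Bool, size c ≤ 1 := size_bool
    have ht := size_tail_le st
    have ht' := (size_tail_le st.tail).trans ht
    have hc : Fintype.card (ix (ℕ × Bool)) = 2 := rfl
    simp only [Polynomial.eval_add, Polynomial.eval_mul, Polynomial.eval_ofNat]
    simp only [pstep]
    have hr := hb (resT t.1)
    split_ifs
    · simp only [size_pair, size_cons, hc, size_nat]
      omega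
    · have h3 := hb (b && okS (argT t.1) st 0)
      simp only [size_pair, size_cons, hc, size_nat]
      omega
    · have h3 := hb (b && (okS (argT t.1) st 0 && okS (argT t.1) st 1))
      simp only [size_pair, size_cons, hc, size_nat]
      omega

theorem fp_argw {s : E → List (ℕ × Bool)} (hs : FP s) (i : ℕ) : FP (fun x => argw (s x) i) :=
  fp_wire (FP.comp FP.fst (FP.getE hs (FP.const i) (0, false))) 0

theorem gat_eq (l : List Tok) : gat l = (List.range l.length).flatMap (fun i =>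
    tokGates (l[i]?.getD (0, [])) (l.length - i) (argw (pstk (l.drop (i + 1))).2 0)
      (argw (pstk (l.drop (i + 1))).2 1)) := by
  induction l with
  | nil => rfl
  | cons t l ih =>
    rw [List.length_cons, List.range_succ_eq_map, List.flatMap_cons, List.flatMap_map]
    simp only [gat]
    congr 1
    rw [ih]
    congr 1
    funext i
    simp

theorem fp_gat {l : E → List Tok} (hl : FP l) : FP (fun x => gat (l x)) := by
  have hl' : FP (fun y : E × ℕ => l y.1) := FP.comp hl FP.fst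
  have hd : FP (fun y : E × ℕ => (pstk ((l y.1).drop (y.2 + 1))).2) :=
    FP.comp FP.snd (fp_pstk (FP.dropE hl' (FP.add FP.snd (FP.const 1))))
  refine (FP.flatMapE (FP.range (FP.lengthE hl)) (g := fun y : E × ℕ =>
    tokGates ((l y.1)[y.2]?.getD (0, [])) ((l y.1).length - y.2)
      (argw (pstk ((l y.1).drop (y.2 + 1))).2 0)
      (argw (pstk ((l y.1).drop (y.2 + 1))).2 1)) ?_).congr (fun x => (gat_eq (l x)).symm)
  exact fp_tokGates (FP.getE hl' FP.snd (0, [])) (FP.sub (FP.lengthE hl') FP.snd)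
    (fp_argw hd 0) (fp_argw hd 1)

theorem fp_allG {l : E → List Tok} (hl : FP l) : FP (fun x => allG (l x)) :=
  FP.appendE (FP.const initG) (FP.consE (fp_gadd (fp_wire (FP.lengthE hl) 0) (FP.const 1)
    (FP.const 0)) (fp_gat hl))

theorem fp_csN {G : E → List Gate} (hG : FP G) : FP (fun x => csN (G x)) :=
  FP.flatMapE hG (g := fun y : E × Gate => if y.2.1 = 0 then [(y.2.2.1.1, y.2.2.2)] else [])
    (fp_if (FP.natEq (FP.comp FP.fst FP.snd) (FP.const 0))
      (FP.consE (FP.pair (FP.comp FP.fst (FP.comp FP.fst (FP.comp FP.snd FP.snd)))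
        (FP.comp FP.snd (FP.comp FP.snd FP.snd))) (FP.const [])) (FP.const []))

theorem fp_vsG {G : E → List Gate} (hG : FP G) : FP (fun x => vsG (G x)) :=
  FP.flatMapE hG (g := fun y : E × Gate => if 2 < y.2.1 then [(y.2.2.1.1, y.2.2.2)] else [])
    (fp_if (FP.natLt (FP.const 2) (FP.comp FP.fst FP.snd))
      (FP.consE (FP.pair (FP.comp FP.fst (FP.comp FP.fst (FP.comp FP.snd FP.snd)))
        (FP.comp FP.snd (FP.comp FP.snd FP.snd))) (FP.const [])) (FP.const []))

theorem fp_asG {G : E → List Gate} (hG : FP G) : FP (fun x => asG (G x)) :=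
  FP.flatMapE hG (g := fun y : E × Gate => if y.2.1 = 1 then [y.2.2.1] else [])
    (fp_if (FP.natEq (FP.comp FP.fst FP.snd) (FP.const 1))
      (FP.consE (FP.comp FP.fst (FP.comp FP.snd FP.snd)) (FP.const [])) (FP.const []))

theorem fp_msG {G : E → List Gate} (hG : FP G) : FP (fun x => msG (G x)) :=
  FP.flatMapE hG (g := fun y : E × Gate => if y.2.1 = 2 then [y.2.2.1] else [])
    (fp_if (FP.natEq (FP.comp FP.fst FP.snd) (FP.const 2))
      (FP.consE (FP.comp FP.fst (FP.comp FP.snd FP.snd)) (FP.const [])) (FP.const []))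

theorem fp_asE {G : E → List Gate} (hG : FP G) : FP (fun x => asE (G x)) := by
  refine FP.flatMapE (fp_vsG hG) (g := fun y : E × (ℕ × Name) =>
    (vsG (G y.1)).flatMap (fun b => if y.2.2 = b.2 then [(y.2.1, 1, b.1)] else [])) ?_
  refine FP.flatMapE (fp_vsG (FP.comp hG FP.fst)) (g := fun z : (E × (ℕ × Name)) × (ℕ × Name) =>
    if z.1.2.2 = z.2.2 then [(z.1.2.1, 1, z.2.1)] else []) ?_
  refine fp_if (FP.eqS (FP.comp FP.snd (FP.comp FP.snd FP.fst)) (FP.comp FP.snd FP.snd)) ?_
    (FP.const [])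
  exact FP.consE (FP.pair (FP.comp FP.fst (FP.comp FP.snd FP.fst)) (FP.pair (FP.const 1)
    (FP.comp FP.fst FP.snd))) (FP.const [])

theorem fp_qOf {l : E → List Tok} (hl : FP l) : FP (fun x => qOf (l x)) :=
  fp_wire (FP.add (FP.lengthE hl) (FP.const 1)) 0

theorem fp_asOf {l : E → List Tok} (hl : FP l) : FP (fun x => asOf (l x)) :=
  FP.appendE (fp_asG (fp_allG hl)) (fp_asE (fp_allG hl))

theorem fp_ties {q : E → ℕ} (hq : FP q) : FP (fun x => ties (q x)) :=
  FP.mapE (FP.range hq) (g := fun y : E × ℕ => (0, y.2, y.2))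
    (FP.pair (FP.const 0) (FP.pair FP.snd FP.snd))

theorem fp_msOf {l : E → List Tok} (hl : FP l) : FP (fun x => msOf (l x)) :=
  FP.appendE (fp_ties (fp_qOf hl)) (fp_msG (fp_allG hl))

end Pool.Agent.Hadamard
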