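import Pool.Agent.Lib_MP_c79a71_lc.FPGates

set_option autoImplicit false
set_option linter.unusedSectionVars false
set_option linter.unusedSimpArgs false
set_option linter.unusedVariables false

/-!
# The rows and the columns are polynomial-time functions of the system
-/

namespace Pool.Agent.Hadamard

open Pool.Agent.PartSep.TM Pool.Agent.PartSep.CL
open Pool.Agent.PartSep.TM.Rep

set_option synthInstance.maxSize 2000

variable {E F G : Type} [Rep E] [Rep F] [Rep G]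

theorem fp_two {a a' : E → ℕ} {c c' : E → List (ℕ × Bool)} (ha : FP a) (hc : FP c) (ha' : FP a')
    (hc' : FP c') : FP (fun x => two (a x) (c x) (a' x) (c' x)) :=
  FP.appendE
    (FP.mapE hc (g := fun y : E × (ℕ × Bool) => ((a y.1, y.2.1), y.2.2))
      (FP.pair (FP.pair (FP.comp ha FP.fst) (FP.comp FP.fst FP.snd)) (FP.comp FP.snd FP.snd)))
    (FP.mapE hc' (g := fun y : E × (ℕ × Bool) => ((a' y.1, y.2.1), y.2.2))
      (FP.pair (FP.pair (FP.comp ha' FP.fst) (FP.comp FP.fst FP.snd)) (FP.comp FP.snd FP.snd)))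

theorem fp_same {p : E → ℕ × ℕ} {c : E → List (ℕ × Bool)} (hp : FP p) (hc : FP c) :
    FP (fun x => same (p x) (c x)) :=
  fp_two (FP.comp FP.fst hp) hc (FP.comp FP.snd hp) hc

theorem fp_rels {q T : E → ℕ} (hq : FP q) (hT : FP T) : FP (fun x => rels (q x) (T x)) := by
  refine FP.appendE (FP.mapE (FP.range hq) (g := fun y : E × ℕ => (2 + y.2, 0))
    (FP.pair (FP.add (FP.const 2) FP.snd) (FP.const 0))) ?_
  refine FP.flatMapE (FP.range hT) (g := fun y : E × ℕ =>
    [(2 + q y.1 + 2 * y.2, 0), (3 + q y.1 + 2 * y.2, 1)]) ?_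
  have h2 : FP (fun y : E × ℕ => 2 * y.2) := FP.mul (FP.const 2) FP.snd
  have hq' : FP (fun y : E × ℕ => q y.1) := FP.comp hq FP.fst
  exact FP.consE (FP.pair (FP.add (FP.add (FP.const 2) hq') h2) (FP.const 0))
    (FP.consE (FP.pair (FP.add (FP.add (FP.const 3) hq') h2) (FP.const 1)) (FP.const []))

theorem fp_nfr {q T : E → ℕ} (hq : FP q) (hT : FP T) : FP (fun x => nfr (q x) (T x)) :=
  FP.add (FP.add (FP.const 2) hq) (FP.mul (FP.const 2) hT)

theorem fp_units {K N : E → ℕ} (hK : FP K) (hN : FP N) : FP (fun x => units (K x) (N x)) := by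
  refine FP.flatMapE (FP.range hK) (g := fun y : E × ℕ =>
    (List.range (N y.1)).map (fun b => [((y.2, b), true)])) ?_
  refine FP.mapE (FP.range (FP.comp hN FP.fst)) (g := fun z : (E × ℕ) × ℕ =>
    [((z.1.2, z.2), true)]) ?_
  exact FP.consE (FP.pair (FP.pair (FP.comp FP.snd FP.fst) FP.snd) (FP.const true)) (FP.const [])

theorem fp_cliques {K N : E → ℕ} (hK : FP K) (hN : FP N) :
    FP (fun x => cliques (K x) (N x)) := by
  refine FP.flatMapE (FP.range hK) (g := fun y : E × ℕ =>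
    (List.range (N y.1)).flatMap (fun b =>
      (List.range b).map (fun b' => [((y.2, b), true), ((y.2, b'), true)]))) ?_
  refine FP.flatMapE (FP.range (FP.comp hN FP.fst)) (g := fun z : (E × ℕ) × ℕ =>
    (List.range z.2).map (fun b' => [((z.1.2, z.2), true), ((z.1.2, b'), true)])) ?_
  refine FP.mapE (FP.range FP.snd) (g := fun u : ((E × ℕ) × ℕ) × ℕ =>
    [((u.1.1.2, u.1.2), true), ((u.1.1.2, u.2), true)]) ?_
  have h1 : FP (fun u : ((E × ℕ) × ℕ) × ℕ => u.1.1.2) := FP.comp FP.snd (FP.comp FP.fst FP.fst)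
  have h2 : FP (fun u : ((E × ℕ) × ℕ) × ℕ => u.1.2) := FP.comp FP.snd FP.fst
  exact FP.consE (FP.pair (FP.pair h1 h2) (FP.const true))
    (FP.consE (FP.pair (FP.pair h1 FP.snd) (FP.const true)) (FP.const []))

/-- a list of position and sign -/
theorem fp_pos1 {p : E → ℕ} {b : Bool} (hp : FP p) {l : E → List (ℕ × Bool)} (hl : FP l) :
    FP (fun x => (p x, b) :: l x) := FP.consE (FP.pair hp (FP.const b)) hl

theorem fp_rowsA {N : E → ℕ} (hN : FP N) : FP (fun x => rowsA (N x)) := by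
  refine FP.flatMapE (FP.range (FP.sub hN (FP.const 1))) (g := fun y : E × ℕ =>
    (List.range (y.2 + 1)).map (fun i' => same (1, 0) [(y.2 + 1, true), (i' + 1, true)])) ?_
  refine FP.mapE (FP.range (FP.add FP.snd (FP.const 1))) (g := fun z : (E × ℕ) × ℕ =>
    same (1, 0) [(z.1.2 + 1, true), (z.2 + 1, true)]) ?_
  exact fp_same (FP.const _) (fp_pos1 (FP.add (FP.comp FP.snd FP.fst) (FP.const 1))
    (fp_pos1 (FP.add FP.snd (FP.const 1)) (FP.const [])))

theorem fp_rowsB {q T : E → ℕ} (hq : FP q) (hT : FP T) : FP (fun x => rowsB (q x) (T x)) := by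
  refine FP.flatMapE (fp_rels hq hT) (g := fun y : E × (ℕ × ℕ) =>
    low.map (fun c => same y.2 c)) ?_
  exact FP.mapE (FP.const low) (g := fun z : (E × (ℕ × ℕ)) × List (ℕ × Bool) => same z.1.2 z.2)
    (fp_same (FP.comp FP.snd FP.fst) FP.snd)

theorem fp_rowsE {q N : E → ℕ} (hq : FP q) (hN : FP N) : FP (fun x => rowsE (q x) (N x)) := by
  refine FP.flatMapE (FP.range hq) (g := fun y : E × ℕ =>
    (List.range (N y.1 - 2)).flatMap (fun p =>
      (List.range p).map (fun p' => same (2 + y.2, 0) [(2 + p, true), (2 + p', false)]))) ?_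
  refine FP.flatMapE (FP.range (FP.sub (FP.comp hN FP.fst) (FP.const 2)))
    (g := fun z : (E × ℕ) × ℕ =>
    (List.range z.2).map (fun p' => same (2 + z.1.2, 0) [(2 + z.2, true), (2 + p', false)])) ?_
  refine FP.mapE (FP.range FP.snd) (g := fun u : ((E × ℕ) × ℕ) × ℕ =>
    same (2 + u.1.1.2, 0) [(2 + u.1.2, true), (2 + u.2, false)]) ?_
  have h1 : FP (fun u : ((E × ℕ) × ℕ) × ℕ => u.1.1.2) := FP.comp FP.snd (FP.comp FP.fst FP.fst)
  have h2 : FP (fun u : ((E × ℕ) × ℕ) × ℕ => u.1.2) := FP.comp FP.snd FP.fst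
  exact fp_same (FP.pair (FP.add (FP.const 2) h1) (FP.const 0))
    (fp_pos1 (FP.add (FP.const 2) h2) (fp_pos1 (FP.add (FP.const 2) FP.snd) (FP.const [])))

theorem getD_eq (ms : List (ℕ × ℕ × ℕ)) (t : ℕ) :
    ms.getD t (0, 0, 0) = ms[t]?.getD (0, 0, 0) := by
  rw [List.getD_eq_getElem?_getD]

theorem fp_rowsG {q N : E → ℕ} {ms : E → List (ℕ × ℕ × ℕ)} (hq : FP q) (hN : FP N)
    (hms : FP ms) : FP (fun x => rowsG (q x) (N x) (ms x)) := by
  unfold rowsG
  simp only [getD_eq]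
  refine FP.flatMapE (FP.range (FP.lengthE hms)) (g := fun y : E × ℕ =>
    (List.range (N y.1 - 2)).map (fun p =>
    two (2 + q y.1 + 2 * y.2)
      ((2 + p, true) :: (if p = ((ms y.1)[y.2]?.getD (0, 0, 0)).2.2 then [(1, true)] else []))
      (if p = ((ms y.1)[y.2]?.getD (0, 0, 0)).1 then 2 + ((ms y.1)[y.2]?.getD (0, 0, 0)).2.1
        else 0) [(2 + p, true)])) ?_
  refine FP.mapE (FP.range (FP.sub (FP.comp hN FP.fst) (FP.const 2)))
    (g := fun z : (E × ℕ) × ℕ => two (2 + q z.1.1 + 2 * z.1.2)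
      ((2 + z.2, true) :: (if z.2 = ((ms z.1.1)[z.1.2]?.getD (0, 0, 0)).2.2
        then [(1, true)] else []))
      (if z.2 = ((ms z.1.1)[z.1.2]?.getD (0, 0, 0)).1 then
        2 + ((ms z.1.1)[z.1.2]?.getD (0, 0, 0)).2.1 else 0) [(2 + z.2, true)]) ?_
  have h1 : FP (fun z : (E × ℕ) × ℕ => z.1.1) := FP.comp FP.fst FP.fst
  have h2 : FP (fun z : (E × ℕ) × ℕ => z.1.2) := FP.comp FP.snd FP.fst
  have h3 : FP (fun z : (E × ℕ) × ℕ => z.2) := FP.snd
  have hg : FP (fun z : (E × ℕ) × ℕ => (ms z.1.1)[z.1.2]?.getD (0, 0, 0)) :=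
    FP.getE (FP.comp hms h1) h2 (0, 0, 0)
  have hp2 : FP (fun z : (E × ℕ) × ℕ => 2 + z.2) := FP.add (FP.const 2) h3
  refine fp_two (FP.add (FP.add (FP.const 2) (FP.comp hq h1)) (FP.mul (FP.const 2) h2)) ?_ ?_
    (fp_pos1 hp2 (FP.const []))
  · exact fp_pos1 hp2 (fp_if (FP.natEq h3 (FP.comp FP.snd (FP.comp FP.snd hg))) (FP.const _)
      (FP.const _))
  · exact fp_if (FP.natEq h3 (FP.comp FP.fst hg))
      (FP.add (FP.const 2) (FP.comp FP.fst (FP.comp FP.snd hg))) (FP.const 0)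

theorem fp_rows {q : E → ℕ} {ms : E → List (ℕ × ℕ × ℕ)} (hq : FP q) (hms : FP ms) :
    FP (fun x => rows (q x) (ms x)) := by
  have hT : FP (fun x => (ms x).length) := FP.lengthE hms
  have hK := fp_nfr hq hT
  have hN : FP (fun x => nfr (q x) (ms x).length + 2) := FP.add hK (FP.const 2)
  exact FP.appendE (FP.appendE (FP.appendE (FP.appendE (FP.appendE (fp_units hK hN)
    (fp_cliques hK hN)) (fp_rowsA hN)) (fp_rowsB hq hT)) (fp_rowsE hq hN)) (fp_rowsG hq hN hms)

theorem fp_pos' {s : E → ℕ} (hs : FP s) : FP (fun x => pos' (s x)) :=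
  fp_if (FP.natEq hs (FP.const 0)) (FP.const 0) (FP.add hs (FP.const 1))

theorem fp_colsB {q T N : E → ℕ} (hq : FP q) (hT : FP T) (hN : FP N) :
    FP (fun x => colsB (q x) (T x) (N x)) := by
  refine FP.flatMapE (fp_rels hq hT) (g := fun y : E × (ℕ × ℕ) =>
    (List.range (N y.1 - 1)).flatMap (fun s =>
      (List.range (s + 1)).map (fun s' => same y.2 [(pos' s, true), (pos' s', true)]))) ?_
  refine FP.flatMapE (FP.range (FP.sub (FP.comp hN FP.fst) (FP.const 1)))
    (g := fun z : (E × (ℕ × ℕ)) × ℕ =>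
    (List.range (z.2 + 1)).map (fun s' => same z.1.2 [(pos' z.2, true), (pos' s', true)])) ?_
  refine FP.mapE (FP.range (FP.add FP.snd (FP.const 1)))
    (g := fun u : ((E × (ℕ × ℕ)) × ℕ) × ℕ =>
    same u.1.1.2 [(pos' u.1.2, true), (pos' u.2, true)]) ?_
  exact fp_same (FP.comp FP.snd (FP.comp FP.fst FP.fst)) (fp_pos1 (fp_pos' (FP.comp FP.snd FP.fst))
    (fp_pos1 (fp_pos' FP.snd) (FP.const [])))

theorem fp_colsAdd {as : E → List (ℕ × ℕ × ℕ)} (has : FP as) :
    FP (fun x => colsAdd (as x)) := by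
  refine FP.mapE has (g := fun y : E × (ℕ × ℕ × ℕ) =>
    same (1, 0) [(2 + y.2.1, true), (2 + y.2.2.1, true), (2 + y.2.2.2, false)]) ?_
  exact fp_same (FP.const _) (fp_pos1 (FP.add (FP.const 2) (FP.comp FP.fst FP.snd))
    (fp_pos1 (FP.add (FP.const 2) (FP.comp FP.fst (FP.comp FP.snd FP.snd)))
    (fp_pos1 (FP.add (FP.const 2) (FP.comp FP.snd (FP.comp FP.snd FP.snd))) (FP.const []))))

theorem fp_colsMul {q T : E → ℕ} (hq : FP q) (hT : FP T) :
    FP (fun x => colsMul (q x) (T x)) := by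
  refine FP.mapE (FP.range hT) (g := fun y : E × ℕ =>
    two (3 + q y.1 + 2 * y.2) [(1, true)] (2 + q y.1 + 2 * y.2) [(1, true)]) ?_
  have h2 : FP (fun y : E × ℕ => 2 * y.2) := FP.mul (FP.const 2) FP.snd
  have hq' : FP (fun y : E × ℕ => q y.1) := FP.comp hq FP.fst
  exact fp_two (FP.add (FP.add (FP.const 3) hq') h2) (FP.const _)
    (FP.add (FP.add (FP.const 2) hq') h2) (FP.const _)

/-- the columns, with names -/
def colsN (q : ℕ) (cs : List (ℕ × Name)) (as ms : List (ℕ × ℕ × ℕ)) : List (SV × Name) :=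
  (units (nfr q ms.length) (nfr q ms.length + 2) ++ low.map (fun c => same (1, 0) c) ++
    colsB q ms.length (nfr q ms.length + 2) ++ colsAdd as ++ colsMul q ms.length).map
      (fun γ => (γ, [])) ++ cs.map (fun g => (same (1, 0) [(2 + g.1, true)], g.2))

def svl (γ : SV × Name) : SV × ℕ := (γ.1, sval γ.2)

theorem cols_eq (q : ℕ) (cs : List (ℕ × Name)) (as ms : List (ℕ × ℕ × ℕ)) :
    cols q (cs.map cval) as ms = (colsN q cs as ms).map svl := by
  unfold cols colsN colsCst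
  generalize units (nfr q ms.length) (nfr q ms.length + 2) ++ low.map (fun c => same (1, 0) c) ++
    colsB q ms.length (nfr q ms.length + 2) ++ colsAdd as ++ colsMul q ms.length = L
  rw [List.map_append, List.map_map, List.map_map, List.map_map]
  rfl

theorem fp_colsN {q : E → ℕ} {cs : E → List (ℕ × Name)} {as ms : E → List (ℕ × ℕ × ℕ)}
    (hq : FP q) (hcs : FP cs) (has : FP as) (hms : FP ms) :
    FP (fun x => colsN (q x) (cs x) (as x) (ms x)) := by
  have hT : FP (fun x => (ms x).length) := FP.lengthE hms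
  have hK := fp_nfr hq hT
  have hN : FP (fun x => nfr (q x) (ms x).length + 2) := FP.add hK (FP.const 2)
  refine FP.appendE (FP.mapE (FP.appendE (FP.appendE (FP.appendE (FP.appendE (fp_units hK hN)
    (FP.const _)) (fp_colsB hq hT hN)) (fp_colsAdd has)) (fp_colsMul hq hT))
    (g := fun y : E × SV => (y.2, ([] : Name))) (FP.pair FP.snd (FP.const []))) ?_
  exact FP.mapE hcs (g := fun y : E × (ℕ × Name) => (same (1, 0) [(2 + y.2.1, true)], y.2.2))
    (FP.pair (fp_same (FP.const _) (fp_pos1 (FP.add (FP.const 2) (FP.comp FP.fst FP.snd))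
      (FP.const []))) (FP.comp FP.snd FP.snd))

/-! ### Entries -/

/-- number of common positions with equal (`s = false`) or different (`s = true`) signs -/
def cnt (s : Bool) (ρ γ : SV) : ℕ :=
  (γ.flatMap (fun e' => ρ.flatMap (fun e =>
    if decide (e.1.1 = e'.1.1) && (decide (e.1.2 = e'.1.2) && !((e.2 != e'.2) != s)) then [0]
      else []))).length

/-- number of occurrences of the position `(0, 0)` -/
def c0 (ρ : SV) : ℕ :=
  (ρ.flatMap (fun e => if decide (e.1.1 = 0) && decide (e.1.2 = 0) then [0] else [])).length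

/-- the code of an entry -/
def entN (ρ : SV) (γ : SV × Name) : Ent :=
  if decide (c0 ρ = 0) || γ.2.isEmpty then
    ((natName (cnt false ρ γ.1 - cnt true ρ γ.1), natName (cnt true ρ γ.1 - cnt false ρ γ.1)),
      natName 1)
  else ((incR^[cnt false ρ γ.1] γ.2, []), natName 1)

/-- the code of the matrix -/
def datN (R : List SV) (C : List (SV × Name)) (k : ℕ) : Dat :=
  (R.map (fun ρ => C.map (fun γ => entN ρ γ)), (natName k, natName (k + 2)))

theorem fp_cnt (s : Bool) {ρ γ : E → SV} (hρ : FP ρ) (hγ : FP γ) :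
    FP (fun x => cnt s (ρ x) (γ x)) := by
  refine FP.lengthE (FP.flatMapE (G := ℕ) hγ (g := fun y : E × ((ℕ × ℕ) × Bool) =>
    (ρ y.1).flatMap (fun e => if decide (e.1.1 = y.2.1.1) && (decide (e.1.2 = y.2.1.2) &&
      !((e.2 != y.2.2) != s)) then [0] else [])) ?_)
  refine FP.flatMapE (FP.comp hρ FP.fst) (g := fun z : (E × ((ℕ × ℕ) × Bool)) × ((ℕ × ℕ) × Bool) =>
    if decide (z.2.1.1 = z.1.2.1.1) && (decide (z.2.1.2 = z.1.2.1.2) &&
      !((z.2.2 != z.1.2.2) != s)) then [0] else []) ?_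
  have h1 : FP (fun z : (E × ((ℕ × ℕ) × Bool)) × ((ℕ × ℕ) × Bool) => z.2.1.1) :=
    FP.comp FP.fst (FP.comp FP.fst FP.snd)
  have h2 : FP (fun z : (E × ((ℕ × ℕ) × Bool)) × ((ℕ × ℕ) × Bool) => z.2.1.2) :=
    FP.comp FP.snd (FP.comp FP.fst FP.snd)
  have h3 : FP (fun z : (E × ((ℕ × ℕ) × Bool)) × ((ℕ × ℕ) × Bool) => z.1.2.1.1) :=
    FP.comp FP.fst (FP.comp FP.fst (FP.comp FP.snd FP.fst))
  have h4 : FP (fun z : (E × ((ℕ × ℕ) × Bool)) × ((ℕ × ℕ) × Bool) => z.1.2.1.2) :=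
    FP.comp FP.snd (FP.comp FP.fst (FP.comp FP.snd FP.fst))
  have h5 : FP (fun z : (E × ((ℕ × ℕ) × Bool)) × ((ℕ × ℕ) × Bool) => z.2.2) :=
    FP.comp FP.snd FP.snd
  have h6 : FP (fun z : (E × ((ℕ × ℕ) × Bool)) × ((ℕ × ℕ) × Bool) => z.1.2.2) :=
    FP.comp FP.snd (FP.comp FP.snd FP.fst)
  exact FP.ite (FP.and (FP.natEq h1 h3) (FP.and (FP.natEq h2 h4)
    (FP.not (FP.bne (FP.bne h5 h6) (FP.const s))))) (FP.const _) (FP.const _)

theorem fp_c0 {ρ : E → SV} (hρ : FP ρ) : FP (fun x => c0 (ρ x)) := by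
  refine FP.lengthE (FP.flatMapE (G := ℕ) hρ (g := fun y : E × ((ℕ × ℕ) × Bool) =>
    if decide (y.2.1.1 = 0) && decide (y.2.1.2 = 0) then [0] else []) ?_)
  exact FP.ite (FP.and (FP.natEq (FP.comp FP.fst (FP.comp FP.fst FP.snd)) (FP.const 0))
    (FP.natEq (FP.comp FP.snd (FP.comp FP.fst FP.snd)) (FP.const 0))) (FP.const _) (FP.const _)

theorem fp_entN {ρ : E → SV} {γ : E → SV × Name} (hρ : FP ρ) (hγ : FP γ) :
    FP (fun x => entN (ρ x) (γ x)) := by
  have h1 := fp_cnt false hρ (FP.comp FP.fst hγ)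
  have h2 := fp_cnt true hρ (FP.comp FP.fst hγ)
  unfold entN
  refine FP.ite (FP.or (FP.natIsZero (fp_c0 hρ)) (FP.isEmpty (FP.comp FP.snd hγ))) ?_ ?_
  · exact FP.pair (FP.pair (fp_natName (FP.sub h1 h2)) (fp_natName (FP.sub h2 h1))) (FP.const _)
  · exact FP.pair (FP.pair (fp_addName (FP.comp FP.snd hγ) h1) (FP.const [])) (FP.const _)

theorem fp_datN {R : E → List SV} {C : E → List (SV × Name)} {k : E → ℕ} (hR : FP R) (hC : FP C)
    (hk : FP k) : FP (fun x => datN (R x) (C x) (k x)) := by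
  refine FP.pair ?_ (FP.pair (fp_natName hk) (fp_natName (FP.add hk (FP.const 2))))
  refine FP.mapE hR (g := fun y : E × SV => (C y.1).map (fun γ => entN y.2 γ)) ?_
  exact FP.mapE (FP.comp hC FP.fst) (g := fun z : (E × SV) × (SV × Name) => entN z.1.2 z.2)
    (fp_entN (FP.comp FP.snd FP.fst) FP.snd)

end Pool.Agent.Hadamard
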