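import Pool.Agent.Lib_MP_c79a71_lc.SolveB

set_option autoImplicit false
set_option linter.unusedSectionVars false
set_option linter.unusedSimpArgs false
set_option linter.unusedVariables false

/-!
From a solution of the system to frames.
-/

namespace Pool.Agent.Hadamard

open Matrix

variable {n : ℕ}

/-- matrices `1 + e₀ αᵀ + b e₁ᵀ` -/
noncomputable def fr (n : ℕ) (α b : Fin n → ℝ) : Matrix (Fin n) (Fin n) ℝ :=
  1 + vecMulVec (e n 0) α + vecMulVec b (e n 1)

theorem vecMul_fr (α b c : Fin n → ℝ) :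
    c ᵥ* fr n α b = c + (c ⬝ᵥ e n 0) • α + (c ⬝ᵥ b) • e n 1 := by
  have h1 := vecMul_A α c
  have h2 := vecMul_B b c
  rw [vecMul_add, vecMul_one] at h1 h2
  rw [fr, vecMul_add, vecMul_add, vecMul_one, add_assoc, add_assoc]
  rw [add_left_cancel h1, add_left_cancel h2]

theorem mulVec_fr (α b d : Fin n → ℝ) :
    fr n α b *ᵥ d = d + (α ⬝ᵥ d) • e n 0 + (e n 1 ⬝ᵥ d) • b := by
  have h1 := mulVec_A α d
  have h2 := mulVec_B b d
  rw [add_mulVec, one_mulVec] at h1 h2
  rw [fr, add_mulVec, add_mulVec, one_mulVec, add_assoc, add_assoc]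
  rw [add_left_cancel h1, add_left_cancel h2]

theorem fr_mul (hn : 2 ≤ n) {α b : Fin n → ℝ} (hα : ∀ i : Fin n, (i : ℕ) < 2 → α i = 0)
    (hb : ∀ i : Fin n, (i : ℕ) < 2 → b i = 0) (h : α ⬝ᵥ b = 0) :
    fr n α b * fr n (-α) (-b) = 1 := by
  have h0 : 0 < n := by omega
  have h1 : 1 < n := by omega
  apply Matrix.ext_of_mulVec_single
  intro i
  rw [← mulVec_mulVec, mulVec_fr, mulVec_fr, one_mulVec]
  set x : Fin n → ℝ := Pi.single i 1 with hx
  have e10 : e n 1 ⬝ᵥ e n 0 = 0 := by rw [e_dot h1]; simp [e]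
  have ab : α ⬝ᵥ e n 0 = 0 := by rw [dot_e h0]; exact hα _ (by simp)
  have be : e n 1 ⬝ᵥ b = 0 := by rw [e_dot h1]; exact hb _ (by simp)
  simp only [dotProduct_add, dotProduct_smul, dotProduct_neg, neg_dotProduct, smul_neg, h, e10,
    ab, be, smul_eq_mul, mul_zero, neg_zero, add_zero, neg_smul]
  abel

theorem fr_isUnit (hn : 2 ≤ n) {α b : Fin n → ℝ} (hα : ∀ i : Fin n, (i : ℕ) < 2 → α i = 0)
    (hb : ∀ i : Fin n, (i : ℕ) < 2 → b i = 0) (h : α ⬝ᵥ b = 0) : IsUnit (fr n α b) :=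
  (IsUnit.of_mul_eq_one _ (fr_mul hn hα hb h))

theorem fr_inv (hn : 2 ≤ n) {α b : Fin n → ℝ} (hα : ∀ i : Fin n, (i : ℕ) < 2 → α i = 0)
    (hb : ∀ i : Fin n, (i : ℕ) < 2 → b i = 0) (h : α ⬝ᵥ b = 0) (d : Fin n → ℝ) :
    (fr n α b)⁻¹ *ᵥ d = d - (α ⬝ᵥ d) • e n 0 - (e n 1 ⬝ᵥ d) • b := by
  rw [inv_eq_right_inv (fr_mul hn hα hb h), mulVec_fr]
  simp only [neg_dotProduct, neg_smul, smul_neg]
  abel

theorem rv_single (x y a : ℕ) :
    rv n [((x, y), true)] a = if a = x then e n y else 0 := by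
  funext i
  by_cases h : a = x
  · subst h
    simp only [rv, List.map_cons, List.map_nil, List.sum_cons, List.sum_nil, add_zero, if_true,
      Prod.mk.injEq, true_and, e, sg_true]
    by_cases h2 : y = (i : ℕ)
    · simp [h2]
    · simp [h2, Ne.symm h2]
  · have : ¬ (x = a) := fun h' => h h'.symm
    simp [rv, h, this]

theorem rv_clique (x y y' a : ℕ) :
    rv n [((x, y), true), ((x, y'), true)] a = if a = x then e n y + e n y' else 0 := by
  have h1 := rv_append (n := n) [((x, y), true)] [((x, y'), true)] a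
  rw [List.singleton_append] at h1
  rw [h1, rv_single, rv_single]
  split_ifs <;> simp

open Classical in
theorem exists_common {V : Type} [AddCommGroup V] [Module ℝ V] {k : ℕ} (f : ℕ → V) (u : V)
    (h : ∀ a < k, f a = 0 ∨ f a = u) : ∃ (u : V) (s : ℕ → ℝ), ∀ a < k, f a = s a • u := by
  refine ⟨u, fun a => if f a = u then 1 else 0, fun a ha => ?_⟩
  by_cases h1 : f a = u
  · simp [h1]
  · simp [h1, (h a ha).resolve_right h1]

variable {k : ℕ} {F : ℕ → Matrix (Fin n) (Fin n) ℝ}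

theorem row_ok_two {x x' : ℕ} {c c' : List (ℕ × Bool)} (hx : x ≠ x')
    (h : lv n c ᵥ* F x = lv n c' ᵥ* F x') :
    ∃ (u : Fin n → ℝ) (s : ℕ → ℝ), ∀ a < k, rv n (two x c x' c') a ᵥ* F a = s a • u := by
  refine exists_common _ (lv n c ᵥ* F x) fun a _ => ?_
  by_cases h1 : a = x
  · subst h1
    rw [rv_two_left _ _ hx]
    exact Or.inr rfl
  by_cases h2 : a = x'
  · subst h2
    rw [rv_two_right _ _ hx]
    exact Or.inr h.symm
  · rw [rv_two_ne _ _ (Ne.symm h1) (Ne.symm h2), zero_vecMul]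
    exact Or.inl rfl

theorem col_ok_two {x x' : ℕ} {c c' : List (ℕ × Bool)} (hx : x ≠ x')
    (h : (F x)⁻¹ *ᵥ lv n c = (F x')⁻¹ *ᵥ lv n c') :
    ∃ (v : Fin n → ℝ) (t : ℕ → ℝ), ∀ a < k, (F a)⁻¹ *ᵥ cv n (two x c x' c', 0) a = t a • v := by
  refine exists_common _ ((F x)⁻¹ *ᵥ lv n c) fun a _ => ?_
  rw [cv_zero]
  by_cases h1 : a = x
  · subst h1
    rw [rv_two_left _ _ hx]
    exact Or.inr rfl
  by_cases h2 : a = x'
  · subst h2
    rw [rv_two_right _ _ hx]
    exact Or.inr h.symm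
  · rw [rv_two_ne _ _ (Ne.symm h1) (Ne.symm h2), mulVec_zero]
    exact Or.inl rfl

/-- the vector of the values -/
noncomputable def va (n : ℕ) (v : ℕ → ℝ) : Fin n → ℝ := fun i =>
  if (i : ℕ) < 2 then 0 else v ((i : ℕ) - 2)

/-- the vector of a multiplication -/
noncomputable def vb (n : ℕ) (v : ℕ → ℝ) (g : ℕ × ℕ × ℕ) : Fin n → ℝ :=
  v g.2.1 • e n (2 + g.1) - e n (2 + g.2.2)

/-- the constant vector -/
noncomputable def vc (n : ℕ) (x : ℝ) : Fin n → ℝ := fun i => if (i : ℕ) < 2 then 0 else x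

/-- the vectors `α` of all frames -/
noncomputable def av (n q : ℕ) (v : ℕ → ℝ) (x : ℕ) : Fin n → ℝ :=
  if x = 1 ∨ (2 + q ≤ x ∧ (x - (2 + q)) % 2 = 1) then va n v else 0

/-- the vectors `b` of all frames -/
noncomputable def bv (n q : ℕ) (v : ℕ → ℝ) (ms : List (ℕ × ℕ × ℕ)) (x : ℕ) : Fin n → ℝ :=
  if x < 2 then 0 else if x < 2 + q then vc n (v (x - 2)) else
    vb n v (ms.getD ((x - (2 + q)) / 2) (0, 0, 0))

variable {q : ℕ} {v : ℕ → ℝ} {ms : List (ℕ × ℕ × ℕ)}

theorem av_zero : av n q v 0 = 0 := by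
  rw [av, if_neg (by omega)]

theorem av_one : av n q v 1 = va n v := by
  rw [av, if_pos (by omega)]

theorem av_B {j : ℕ} (h : j < q) : av n q v (2 + j) = 0 := by
  rw [av, if_neg (by omega)]

theorem av_G (t : ℕ) : av n q v (2 + q + 2 * t) = 0 := by
  rw [av, if_neg (by omega)]

theorem av_H (t : ℕ) : av n q v (3 + q + 2 * t) = va n v := by
  rw [av, if_pos (by omega)]

theorem bv_zero : bv n q v ms 0 = 0 := by
  rw [bv, if_pos (by omega)]

theorem bv_one : bv n q v ms 1 = 0 := by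
  rw [bv, if_pos (by omega)]

theorem bv_B {j : ℕ} (h : j < q) : bv n q v ms (2 + j) = vc n (v j) := by
  rw [bv, if_neg (by omega), if_pos (by omega), show 2 + j - 2 = j by omega]

theorem bv_G (t : ℕ) : bv n q v ms (2 + q + 2 * t) = vb n v (ms.getD t (0, 0, 0)) := by
  rw [bv, if_neg (by omega), if_neg (by omega), show (2 + q + 2 * t - (2 + q)) / 2 = t by omega]

theorem bv_H (t : ℕ) : bv n q v ms (3 + q + 2 * t) = vb n v (ms.getD t (0, 0, 0)) := by
  rw [bv, if_neg (by omega), if_neg (by omega), show (3 + q + 2 * t - (2 + q)) / 2 = t by omega]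

theorem av_low (x : ℕ) (i : Fin n) (hi : (i : ℕ) < 2) : av n q v x i = 0 := by
  unfold av
  split_ifs
  · simp [va, hi]
  · rfl

theorem bv_low (x : ℕ) (i : Fin n) (hi : (i : ℕ) < 2) : bv n q v ms x i = 0 := by
  unfold bv
  split_ifs
  · rfl
  · simp [vc, hi]
  · have h1 : ∀ j, (i : ℕ) ≠ 2 + j := by intro j; omega
    simp [vb, e, h1]

theorem va_apply {i : ℕ} (h : 2 + i < n) : va n v ⟨2 + i, h⟩ = v i := by
  have h1 : ¬ (2 + i < 2) := by omega
  simp only [va, h1, if_false, Nat.add_sub_cancel_left]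

theorem vc_apply {i : ℕ} {x : ℝ} (h : 2 + i < n) : vc n x ⟨2 + i, h⟩ = x := by
  have h1 : ¬ (2 + i < 2) := by omega
  simp only [vc, h1, if_false]

/-- the frames of a solution -/
noncomputable def frames (n q : ℕ) (v : ℕ → ℝ) (ms : List (ℕ × ℕ × ℕ)) (x : ℕ) :
    Matrix (Fin n) (Fin n) ℝ := fr n (av n q v x) (bv n q v ms x)

theorem frame_cases {T x : ℕ} (h : x < nfr q T) : x = 0 ∨ x = 1 ∨ (∃ j < q, x = 2 + j) ∨
    (∃ t < T, x = 2 + q + 2 * t) ∨ ∃ t < T, x = 3 + q + 2 * t := by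
  unfold nfr at h
  by_cases h0 : x = 0
  · exact Or.inl h0
  by_cases h1 : x = 1
  · exact Or.inr (Or.inl h1)
  by_cases h2 : x < 2 + q
  · exact Or.inr (Or.inr (Or.inl ⟨x - 2, by omega, by omega⟩))
  rcases Nat.mod_two_eq_zero_or_one (x - (2 + q)) with h3 | h3
  · exact Or.inr (Or.inr (Or.inr (Or.inl ⟨(x - (2 + q)) / 2, by omega, by omega⟩)))
  · exact Or.inr (Or.inr (Or.inr (Or.inr ⟨(x - (2 + q)) / 2, by omega, by omega⟩)))

theorem va_dot_vb {g : ℕ × ℕ × ℕ} (h1 : 2 + g.1 < n) (h2 : 2 + g.2.2 < n)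
    (h : v g.1 * v g.2.1 = v g.2.2) : va n v ⬝ᵥ vb n v g = 0 := by
  rw [vb, dotProduct_sub, dotProduct_smul, dot_e h1, dot_e h2, va_apply, va_apply, smul_eq_mul, ← h]
  ring

theorem av_dot_bv (hn : ∀ i < q, 2 + i < n)
    (hms : ∀ g ∈ ms, g.1 < q ∧ g.2.1 < q ∧ g.2.2 < q)
    (h : ∀ g ∈ ms, v g.1 * v g.2.1 = v g.2.2) {x : ℕ} (hx : x < nfr q ms.length) :
    av n q v x ⬝ᵥ bv n q v ms x = 0 := by
  rcases frame_cases hx with rfl | rfl | ⟨j, hj, rfl⟩ | ⟨t, ht, rfl⟩ | ⟨t, ht, rfl⟩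
  · rw [av_zero, zero_dotProduct]
  · rw [bv_one, dotProduct_zero]
  · rw [av_B hj, zero_dotProduct]
  · rw [av_G, zero_dotProduct]
  · rw [av_H, bv_H]
    have hg : ms.getD t (0, 0, 0) ∈ ms := by
      rw [List.getD_eq_getElem _ _ ht]
      exact List.getElem_mem ht
    exact va_dot_vb (hn _ (hms _ hg).1) (hn _ (hms _ hg).2.2) (h _ hg)

theorem rels_cases {T : ℕ} {r : ℕ × ℕ} (h : r ∈ rels q T) :
    (∃ j < q, r = (2 + j, 0)) ∨ (∃ t < T, r = (2 + q + 2 * t, 0)) ∨
      ∃ t < T, r = (3 + q + 2 * t, 1) := by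
  simp only [rels, List.mem_append, List.mem_map, List.mem_range, List.mem_flatMap,
    List.mem_cons, List.not_mem_nil, or_false] at h
  rcases h with ⟨j, hj, h⟩ | ⟨t, ht, h | h⟩
  · exact Or.inl ⟨j, hj, h.symm⟩
  · exact Or.inr (Or.inl ⟨t, ht, h⟩)
  · exact Or.inr (Or.inr ⟨t, ht, h⟩)

theorem low_dot {c : List (ℕ × Bool)} (hc : c ∈ low) (hn : 2 ≤ n) {b : Fin n → ℝ}
    (hb : ∀ i : Fin n, (i : ℕ) < 2 → b i = 0) : lv n c ⬝ᵥ b = 0 := by
  have h0 : 0 < n := by omega
  have h1 : 1 < n := by omega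
  simp only [low, List.mem_cons, List.not_mem_nil, or_false] at hc
  rcases hc with rfl | rfl | rfl
  · rw [lv_cons, lv_nil, sg_true, one_smul, add_zero, e_dot h0]
    exact hb _ (by simp)
  · rw [lv_cons, lv_nil, sg_true, one_smul, add_zero, e_dot h1]
    exact hb _ (by simp)
  · rw [lv_cons, lv_cons, lv_nil, sg_true, one_smul, one_smul, add_zero, add_dotProduct,
      e_dot h0, e_dot h1, hb _ (by simp), hb _ (by simp), add_zero]

theorem pos'_ne (s : ℕ) : pos' s ≠ 1 := by
  unfold pos'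
  split_ifs <;> omega

theorem e_dot_e {i j : ℕ} (hi : i < n) : e n i ⬝ᵥ e n j = if i = j then 1 else 0 := by
  rw [e_dot hi]
  rfl

/-- The rows are fine. -/
theorem frames_row (hn : n = nfr q ms.length + 2) (hms : ∀ g ∈ ms, g.1 < q ∧ g.2.1 < q ∧ g.2.2 < q)
    (ρ : SV) (hρ : ρ ∈ rows q ms) :
    ∃ (u : Fin n → ℝ) (s : ℕ → ℝ), ∀ a < nfr q ms.length,
      rv n ρ a ᵥ* frames n q v ms a = s a • u := by
  have h0 : 0 < n := by omega
  have h1 : 1 < n := by omega
  have hn2 : 2 ≤ n := by omega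
  simp only [rows, List.mem_append] at hρ
  rcases hρ with ((((h | h) | h) | h) | h) | h
  · -- units
    simp only [units, List.mem_flatMap, List.mem_map, List.mem_range] at h
    obtain ⟨x, hx, y, hy, rfl⟩ := h
    refine exists_common _ (e n y ᵥ* frames n q v ms x) fun a _ => ?_
    rw [rv_single]
    by_cases h1 : a = x
    · rw [if_pos h1, h1]; exact Or.inr rfl
    · rw [if_neg h1, zero_vecMul]; exact Or.inl rfl
  · -- cliques
    simp only [cliques, List.mem_flatMap, List.mem_map, List.mem_range] at h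
    obtain ⟨x, hx, y, hy, y', hy', rfl⟩ := h
    refine exists_common _ ((e n y + e n y') ᵥ* frames n q v ms x) fun a _ => ?_
    rw [rv_clique]
    by_cases h1 : a = x
    · rw [if_pos h1, h1]; exact Or.inr rfl
    · rw [if_neg h1, zero_vecMul]; exact Or.inl rfl
  · -- relation A
    simp only [rowsA, List.mem_flatMap, List.mem_map, List.mem_range] at h
    obtain ⟨i, hi, i', hi', rfl⟩ := h
    refine row_ok_two (by norm_num) ?_
    simp only [frames, vecMul_fr, av_one, av_zero, bv_one, bv_zero, dotProduct_zero, zero_smul,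
      smul_zero, add_zero]
    have : lv n [(i + 1, true), (i' + 1, true)] ⬝ᵥ e n 0 = 0 := by
      rw [dot_e h0]
      simp [lv_cons, lv_nil, e]
    rw [this, zero_smul, add_zero]
  · -- relation B
    simp only [rowsB, List.mem_flatMap, List.mem_map] at h
    obtain ⟨r, hr, c, hc, rfl⟩ := h
    rcases rels_cases hr with ⟨j, hj, rfl⟩ | ⟨t, ht, rfl⟩ | ⟨t, ht, rfl⟩
    · refine row_ok_two (by simp) ?_
      simp only [frames, vecMul_fr, av_zero, bv_zero, dotProduct_zero, zero_smul,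
        smul_zero, add_zero, av_B hj, low_dot hc hn2 (bv_low _)]
    · refine row_ok_two (by simp) ?_
      simp only [frames, vecMul_fr, av_zero, bv_zero, dotProduct_zero, zero_smul,
        smul_zero, add_zero, av_G, low_dot hc hn2 (bv_low _)]
    · refine row_ok_two (by simp; omega) ?_
      simp only [frames, vecMul_fr, av_one, bv_one, dotProduct_zero, zero_smul,
        smul_zero, add_zero, av_H, low_dot hc hn2 (bv_low _)]
  · -- rows E
    simp only [rowsE, List.mem_flatMap, List.mem_map, List.mem_range] at h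
    obtain ⟨j, hj, p, hp, p', hp', rfl⟩ := h
    refine row_ok_two (by simp) ?_
    have hpn : 2 + p < n := by omega
    have hpn' : 2 + p' < n := by omega
    simp only [frames, vecMul_fr, av_zero, bv_zero, dotProduct_zero, zero_smul,
      smul_zero, add_zero, av_B hj, bv_B hj]
    have : lv n [(2 + p, true), (2 + p', false)] ⬝ᵥ vc n (v j) = 0 := by
      simp only [lv_cons, lv_nil, sg_true, sg_false, one_smul, add_zero, add_dotProduct,
        smul_dotProduct, e_dot hpn, e_dot hpn', smul_eq_mul, vc_apply]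
      ring
    rw [this, zero_smul, add_zero]
  · -- rows G
    simp only [rowsG, List.mem_flatMap, List.mem_map, List.mem_range] at h
    obtain ⟨t, ht, p, hp, rfl⟩ := h
    have hg : ms.getD t (0, 0, 0) ∈ ms := by
      rw [List.getD_eq_getElem _ _ ht]
      exact List.getElem_mem ht
    obtain ⟨g1, g2, g3⟩ := hms _ hg
    have hpn : 2 + p < n := by omega
    have hbv : bv n q v ms (2 + q + 2 * t) = vb n v (ms.getD t (0, 0, 0)) := bv_G t
    generalize ms.getD t (0, 0, 0) = g at *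
    refine row_ok_two (by split_ifs <;> omega) ?_
    have hc : lv n ((2 + p, true) :: (if p = g.2.2 then [(1, true)] else [])) =
        e n (2 + p) + (if p = g.2.2 then (1 : ℝ) else 0) • e n 1 := by
      rw [lv_cons, sg_true, one_smul]
      split_ifs <;> simp [lv_nil, lv_cons, sg_true]
    have hc' : lv n [(2 + p, true)] = e n (2 + p) := by
      rw [lv_cons, lv_nil, sg_true, one_smul, add_zero]
    have hbp : e n (2 + p) ⬝ᵥ vb n v g =
        (if p = g.1 then v g.2.1 else 0) - (if p = g.2.2 then 1 else 0) := by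
      rw [e_dot hpn]
      simp only [vb, Pi.sub_apply, Pi.smul_apply, smul_eq_mul, e, add_right_inj]
      split_ifs <;> simp
    have hb1 : e n 1 ⬝ᵥ vb n v g = 0 := by
      rw [e_dot h1]
      have h2 : ∀ j, 1 ≠ 2 + j := by intro j; omega
      simp [vb, e, h2]
    have hpe : e n (2 + p) ⬝ᵥ e n 0 = 0 := by
      rw [e_dot_e hpn, if_neg (by omega)]
    have h1e : e n 1 ⬝ᵥ e n 0 = 0 := by
      rw [e_dot_e h1, if_neg (by omega)]
    rw [hc, hc']
    simp only [frames, vecMul_fr, av_G, hbv, add_dotProduct, smul_dotProduct, hpe, h1e, hbp, hb1,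
      smul_eq_mul, mul_zero, add_zero, zero_smul, smul_zero]
    by_cases h3 : p = g.1
    · rw [if_pos h3, if_pos h3, bv_B g2]
      have : e n (2 + p) ⬝ᵥ vc n (v g.2.1) = v g.2.1 := by
        rw [e_dot hpn, vc_apply]
      rw [this, add_assoc, ← add_smul]
      congr 2
      ring
    · rw [if_neg h3, if_neg h3, bv_zero, dotProduct_zero, add_assoc, ← add_smul]
      congr 1
      simp

/-- The columns are fine. -/
theorem frames_col {cs : List (ℕ × ℕ)} {as : List (ℕ × ℕ × ℕ)} (hn : n = nfr q ms.length + 2)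
    (hcs : ∀ g ∈ cs, g.1 < q) (has : ∀ g ∈ as, g.1 < q ∧ g.2.1 < q ∧ g.2.2 < q)
    (hms : ∀ g ∈ ms, g.1 < q ∧ g.2.1 < q ∧ g.2.2 < q) (hv : Sat v cs as ms)
    (γ : SV × ℕ) (hγ : γ ∈ cols q cs as ms) :
    ∃ (u : Fin n → ℝ) (s : ℕ → ℝ), ∀ a < nfr q ms.length,
      (frames n q v ms a)⁻¹ *ᵥ cv n γ a = s a • u := by
  have h0 : 0 < n := by omega
  have h1 : 1 < n := by omega
  have hn2 : 2 ≤ n := by omega
  have hqn : ∀ i < q, 2 + i < n := by intro i hi; unfold nfr at hn; omega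
  have hinv : ∀ x < nfr q ms.length, ∀ d, (frames n q v ms x)⁻¹ *ᵥ d =
      d - (av n q v x ⬝ᵥ d) • e n 0 - (e n 1 ⬝ᵥ d) • bv n q v ms x := by
    intro x hx d
    exact fr_inv hn2 (av_low x) (bv_low x) (av_dot_bv hqn hms hv.mul hx) d
  have k0 : 0 < nfr q ms.length := by unfold nfr; omega
  have k1 : 1 < nfr q ms.length := by unfold nfr; omega
  have kB : ∀ j < q, 2 + j < nfr q ms.length := by intro j hj; unfold nfr; omega
  have kG : ∀ t < ms.length, 2 + q + 2 * t < nfr q ms.length := by intro j hj; unfold nfr; omega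
  have kH : ∀ t < ms.length, 3 + q + 2 * t < nfr q ms.length := by intro j hj; unfold nfr; omega
  simp only [cols, List.mem_append, List.mem_map] at hγ
  rcases hγ with ⟨γ, (((h | h) | h) | h) | h, rfl⟩ | h
  · -- units
    simp only [units, List.mem_flatMap, List.mem_map, List.mem_range] at h
    obtain ⟨x, hx, y, hy, rfl⟩ := h
    refine exists_common _ ((frames n q v ms x)⁻¹ *ᵥ e n y) fun a _ => ?_
    rw [cv_zero, rv_single]
    by_cases h1 : a = x
    · rw [if_pos h1, h1]; exact Or.inr rfl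
    · rw [if_neg h1, mulVec_zero]; exact Or.inl rfl
  · -- low
    obtain ⟨c, hc, rfl⟩ := h
    refine col_ok_two (by norm_num) ?_
    rw [hinv 1 k1, hinv 0 k0]
    have : va n v ⬝ᵥ lv n c = 0 := by
      rw [dotProduct_comm]
      exact low_dot hc hn2 (fun i hi => by simp [va, hi])
    simp only [av_one, av_zero, bv_one, bv_zero, this, zero_smul, smul_zero, sub_zero,
      zero_dotProduct]
  · -- relation B
    simp only [colsB, List.mem_flatMap, List.mem_map, List.mem_range] at h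
    obtain ⟨r, hr, s, hs, s', hs', rfl⟩ := h
    have hd : e n 1 ⬝ᵥ lv n [(pos' s, true), (pos' s', true)] = 0 := by
      simp only [lv_cons, lv_nil, sg_true, one_smul, add_zero, dotProduct_add, e_dot_e h1]
      rw [if_neg (Ne.symm (pos'_ne s)), if_neg (Ne.symm (pos'_ne s')), add_zero]
    rcases rels_cases hr with ⟨j, hj, rfl⟩ | ⟨t, ht, rfl⟩ | ⟨t, ht, rfl⟩
    · refine col_ok_two (by simp) ?_
      simp only [hinv _ (kB j hj), hinv 0 k0, hd, av_B hj, av_zero, zero_smul]
    · refine col_ok_two (by simp) ?_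
      simp only [hinv _ (kG t ht), hinv 0 k0, hd, av_G, av_zero, zero_smul]
    · refine col_ok_two (by simp; omega) ?_
      simp only [hinv _ (kH t ht), hinv 1 k1, hd, av_H, av_one, zero_smul]
  · -- additions
    simp only [colsAdd, List.mem_map] at h
    obtain ⟨g, hg, rfl⟩ := h
    obtain ⟨g1, g2, g3⟩ := has g hg
    replace g1 := hqn _ g1
    replace g2 := hqn _ g2
    replace g3 := hqn _ g3
    refine col_ok_two (by norm_num) ?_
    rw [hinv 1 k1, hinv 0 k0]
    have : va n v ⬝ᵥ lv n [(2 + g.1, true), (2 + g.2.1, true), (2 + g.2.2, false)] = 0 := by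
      simp only [lv_cons, lv_nil, sg_true, sg_false, one_smul, add_zero, dotProduct_add,
        dotProduct_smul, dot_e g1, dot_e g2, dot_e g3, smul_eq_mul, va_apply]
      have := hv.add g hg
      linarith
    simp only [av_one, av_zero, bv_one, bv_zero, this, zero_smul, smul_zero, sub_zero,
      zero_dotProduct]
  · -- multiplications
    simp only [colsMul, List.mem_map, List.mem_range] at h
    obtain ⟨t, ht, rfl⟩ := h
    refine col_ok_two (by omega) ?_
    rw [hinv _ (kH t ht), hinv _ (kG t ht)]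
    have : va n v ⬝ᵥ lv n [(1, true)] = 0 := by
      rw [lv_cons, lv_nil, sg_true, one_smul, add_zero, dot_e h1]
      simp [va]
    simp only [av_H, av_G, bv_H, bv_G, this, zero_smul, smul_zero, sub_zero,
      zero_dotProduct]
  · -- constants
    simp only [colsCst, List.mem_map] at h
    obtain ⟨g, hg, rfl⟩ := h
    have g1 := hqn _ (hcs g hg)
    have c1 : cv n (same (1, 0) [(2 + g.1, true)], g.2) 1 = e n (2 + g.1) := by
      funext i
      simp only [cv, same]
      rw [rv_two_left _ _ (by norm_num : (1 : ℕ) ≠ 0), lv_cons, lv_nil]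
      simp [sg_true]
    have c0 : cv n (same (1, 0) [(2 + g.1, true)], g.2) 0 =
        e n (2 + g.1) + (g.2 : ℝ) • e n 0 := by
      funext i
      simp only [cv, same]
      rw [rv_two_right _ _ (by norm_num : (1 : ℕ) ≠ 0), lv_cons, lv_nil]
      simp [e, sg_true]
    have cn : ∀ a, a ≠ 1 → a ≠ 0 → cv n (same (1, 0) [(2 + g.1, true)], g.2) a = 0 := by
      intro a ha1 ha0
      funext i
      simp only [cv, same]
      rw [rv_two_ne _ _ (Ne.symm ha1) (Ne.symm ha0)]
      simp [ha0]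
    have he : e n 1 ⬝ᵥ e n (2 + g.1) = 0 := by
      rw [e_dot_e h1, if_neg (by omega)]
    have he0 : e n 1 ⬝ᵥ e n 0 = 0 := by
      rw [e_dot_e h1, if_neg (by omega)]
    have hva : va n v ⬝ᵥ e n (2 + g.1) = v g.1 := by
      rw [dot_e g1, va_apply]
    refine exists_common _ (e n (2 + g.1) + (g.2 : ℝ) • e n 0) fun a ha => ?_
    by_cases a1 : a = 1
    · right
      subst a1
      rw [c1, hinv 1 k1, av_one, bv_one, hva, he, zero_smul, sub_zero]
      have h2 : v g.1 = -(g.2 : ℝ) := by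
        have := hv.cst g hg
        linarith
      rw [h2, neg_smul, sub_neg_eq_add]
    by_cases a0 : a = 0
    · right
      subst a0
      rw [c0, hinv 0 k0, av_zero, bv_zero, zero_dotProduct, zero_smul, smul_zero, sub_zero,
        sub_zero]
    · left
      rw [cn a a1 a0, mulVec_zero]

theorem good_of_sat {q : ℕ} {cs : List (ℕ × ℕ)} {as ms : List (ℕ × ℕ × ℕ)}
    (hcs : ∀ g ∈ cs, g.1 < q) (has : ∀ g ∈ as, g.1 < q ∧ g.2.1 < q ∧ g.2.2 < q)
    (hms : ∀ g ∈ ms, g.1 < q ∧ g.2.1 < q ∧ g.2.2 < q) {v : ℕ → ℝ} (hv : Sat v cs as ms) :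
    ∃ F : ℕ → Matrix (Fin (nfr q ms.length + 2)) (Fin (nfr q ms.length + 2)) ℝ,
      Good (nfr q ms.length) (nfr q ms.length + 2) (rows q ms) (cols q cs as ms) F := by
  have hqn : ∀ i < q, 2 + i < nfr q ms.length + 2 := by intro i hi; unfold nfr; omega
  refine ⟨frames (nfr q ms.length + 2) q v ms, fun a ha => ?_, fun ρ hρ => ?_, fun γ hγ => ?_⟩
  · exact fr_isUnit (by omega) (av_low a) (bv_low a) (av_dot_bv hqn hms hv.mul ha)
  · exact frames_row rfl hms ρ hρ
  · exact frames_col rfl hcs has hms hv γ hγ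

end Pool.Agent.Hadamard
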