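import Pool.Agent.Lib_MP_c79a71_lc.MemParse

set_option autoImplicit false
set_option linter.unusedSectionVars false
set_option linter.unusedSimpArgs false
set_option linter.unusedVariables false

/-!
# From formulas to systems of equations
-/

namespace Pool.Agent.Hadamard

open Pool.Agent.PartSep.TM Pool.Agent.PartSep.CL

/-- tokens with names of numbers -/
abbrev Tok := ℕ × Name

/-- gates: kind (`0` constant, `1` addition, `2` multiplication, `3` variable), wires, name -/
abbrev Gate := ℕ × (ℕ × ℕ × ℕ) × Name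

def gadd (a b c : ℕ) : Gate := (1, (a, b, c), [])
def gmul (a b c : ℕ) : Gate := (2, (a, b, c), [])

/-- wire `s` of the position `p` -/
def wire (p s : ℕ) : ℕ := 3 + 10 * p + s

/-- `z = 1` and `e = 0` if `R = 0`, and `z = 0` and `e = 1` otherwise -/
def zt (p R z e : ℕ) : List Gate := [gmul R z 1, gmul R (wire p 2) e, gadd e z 0]

/-- wire `6` is the positive part of wire `1` -/
def pp (p : ℕ) : List Gate :=
  [gmul (wire p 4) (wire p 4) (wire p 6), gmul (wire p 5) (wire p 5) (wire p 7),
    gadd (wire p 1) (wire p 7) (wire p 6), gmul (wire p 4) (wire p 5) 1]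

/-- the gates of a token at the position `p`, with the wires `a` and `b` of the arguments -/
def tokGates (t : Tok) (p a b : ℕ) : List Gate :=
  if t.1 = 0 then [(0, (wire p 1, 0, 0), t.2), gadd (wire p 0) (wire p 1) 1]
  else if t.1 = 1 then [(3, (wire p 0, 0, 0), t.2)]
  else if t.1 = 2 then [gadd (wire p 0) a 1]
  else if t.1 = 3 then [gadd a b (wire p 0)]
  else if t.1 = 4 then [gmul a b (wire p 0)]
  else if t.1 = 5 then gadd b (wire p 1) a :: zt p (wire p 1) (wire p 0) (wire p 3)
  else if t.1 = 6 then gadd a (wire p 1) b :: (pp p ++ zt p (wire p 6) (wire p 8) (wire p 0))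
  else if t.1 = 7 then gadd b (wire p 1) a :: (pp p ++ zt p (wire p 6) (wire p 0) (wire p 3))
  else if t.1 = 8 then [gadd (wire p 0) a 0]
  else if t.1 = 9 then [gmul a b (wire p 0)]
  else [gmul a b (wire p 1), gadd a b (wire p 2), gadd (wire p 0) (wire p 1) (wire p 2)]

open Classical in
/-- the value of a token -/
noncomputable def tokVal (x : Name → ℝ) (t : Tok) (a b : ℝ) : ℝ :=
  if t.1 = 0 then sval t.2
  else if t.1 = 1 then x t.2
  else if t.1 = 2 then -a
  else if t.1 = 3 then a + b
  else if t.1 = 4 then a * b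
  else if t.1 = 5 then (if a = b then 1 else 0)
  else if t.1 = 6 then (if a < b then 1 else 0)
  else if t.1 = 7 then (if a ≤ b then 1 else 0)
  else if t.1 = 8 then 1 - a
  else if t.1 = 9 then a * b
  else a + b - a * b

/-- The gate is satisfied. -/
def GOk (v : ℕ → ℝ) (x : Name → ℝ) (g : Gate) : Prop :=
  if g.1 = 0 then v g.2.1.1 + sval g.2.2 = 0
  else if g.1 = 1 then v g.2.1.1 + v g.2.1.2.1 = v g.2.1.2.2
  else if g.1 = 2 then v g.2.1.1 * v g.2.1.2.1 = v g.2.1.2.2
  else v g.2.1.1 = x g.2.2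

variable {v : ℕ → ℝ} {x : Name → ℝ}

theorem gok_add (a b c : ℕ) : GOk v x (gadd a b c) ↔ v a + v b = v c := by
  simp [GOk, gadd]

theorem gok_mul (a b c : ℕ) : GOk v x (gmul a b c) ↔ v a * v b = v c := by
  simp [GOk, gmul]

theorem zt_sound {p R z e : ℕ} (h0 : v 0 = 1) (h1 : v 1 = 0)
    (h : ∀ g ∈ zt p R z e, GOk v x g) :
    (v R = 0 → v z = 1 ∧ v e = 0) ∧ (v R ≠ 0 → v z = 0 ∧ v e = 1) := by
  simp only [zt, List.mem_cons, List.not_mem_nil, or_false, forall_eq_or_imp, forall_eq,
    gok_add, gok_mul, h0, h1] at h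
  obtain ⟨h2, h3, h4⟩ := h
  constructor
  · intro hR
    rw [hR, zero_mul] at h3
    constructor <;> linarith
  · intro hR
    have h5 := (mul_eq_zero.1 h2).resolve_left hR
    constructor
    · exact h5
    · linarith

theorem pp_sound {p : ℕ} (h1 : v 1 = 0) (h : ∀ g ∈ pp p, GOk v x g) :
    v (wire p 6) ≠ 0 ↔ 0 < v (wire p 1) := by
  simp only [pp, List.mem_cons, List.not_mem_nil, or_false, forall_eq_or_imp, forall_eq,
    gok_add, gok_mul, h1] at h
  obtain ⟨h2, h3, h4, h5⟩ := h
  have h6 : v (wire p 1) = v (wire p 4) ^ 2 - v (wire p 5) ^ 2 := by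
    rw [← h2, ← h3] at h4
    linarith
  rcases mul_eq_zero.1 h5 with h7 | h7
  · rw [h7, mul_zero] at h2
    rw [← h2, h6, h7]
    constructor
    · intro h8; exact absurd rfl h8
    · intro h8
      have := sq_nonneg (v (wire p 5))
      exfalso
      linarith
  · rw [h6, h7, ← h2]
    constructor
    · intro h8
      have := lt_of_le_of_ne (mul_self_nonneg _) (Ne.symm h8)
      nlinarith
    · intro h8 h9
      nlinarith

theorem tok_sound (t : Tok) (p a b : ℕ) (h0 : v 0 = 1) (h1 : v 1 = 0)
    (h : ∀ g ∈ tokGates t p a b, GOk v x g) : v (wire p 0) = tokVal x t (v a) (v b) := by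
  unfold tokGates at h
  unfold tokVal
  by_cases k0 : t.1 = 0
  · rw [if_pos k0] at h ⊢
    simp only [List.mem_cons, List.not_mem_nil, or_false, forall_eq_or_imp, forall_eq,
      gok_add, gok_mul, h0, h1, GOk, if_true] at h
    simp only [gadd] at h
    obtain ⟨h2, h3⟩ := h
    simp only [one_ne_zero, if_false, if_true, h1] at h3
    linarith
  rw [if_neg k0] at h ⊢
  by_cases k1 : t.1 = 1
  · rw [if_pos k1] at h ⊢
    simpa [GOk] using h
  rw [if_neg k1] at h ⊢
  by_cases k2 : t.1 = 2
  · rw [if_pos k2] at h ⊢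
    simp only [List.mem_cons, List.not_mem_nil, or_false, forall_eq, gok_add, gok_mul, h0, h1] at h
    linarith
  rw [if_neg k2] at h ⊢
  by_cases k3 : t.1 = 3
  · rw [if_pos k3] at h ⊢
    simp only [List.mem_cons, List.not_mem_nil, or_false, forall_eq, gok_add, gok_mul, h0, h1] at h
    exact h.symm
  rw [if_neg k3] at h ⊢
  by_cases k4 : t.1 = 4
  · rw [if_pos k4] at h ⊢
    simp only [List.mem_cons, List.not_mem_nil, or_false, forall_eq, gok_add, gok_mul, h0, h1] at h
    exact h.symm
  rw [if_neg k4] at h ⊢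
  by_cases k5 : t.1 = 5
  · rw [if_pos k5] at h ⊢
    rw [List.forall_mem_cons, gok_add] at h
    obtain ⟨h2, h3⟩ := h
    obtain ⟨h4, h5⟩ := zt_sound h0 h1 h3
    by_cases hab : v a = v b
    · rw [if_pos hab]
      exact (h4 (by linarith)).1
    · rw [if_neg hab]
      exact (h5 (fun h => hab (by linarith))).1
  rw [if_neg k5] at h ⊢
  by_cases k6 : t.1 = 6
  · rw [if_pos k6] at h ⊢
    rw [List.forall_mem_cons, gok_add, List.forall_mem_append] at h
    obtain ⟨h2, h3, h3'⟩ := h
    have h6 := pp_sound h1 h3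
    obtain ⟨h4, h5⟩ := zt_sound h0 h1 h3'
    by_cases hab : v a < v b
    · rw [if_pos hab]
      exact (h5 (h6.2 (by linarith))).2
    · rw [if_neg hab]
      refine (h4 ?_).2
      by_contra hc
      exact hab (by linarith [h6.1 hc])
  rw [if_neg k6] at h ⊢
  by_cases k7 : t.1 = 7
  · rw [if_pos k7] at h ⊢
    rw [List.forall_mem_cons, gok_add, List.forall_mem_append] at h
    obtain ⟨h2, h3, h3'⟩ := h
    have h6 := pp_sound h1 h3
    obtain ⟨h4, h5⟩ := zt_sound h0 h1 h3'
    by_cases hab : v a ≤ v b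
    · rw [if_pos hab]
      refine (h4 ?_).1
      by_contra hc
      linarith [h6.1 hc]
    · rw [if_neg hab]
      exact (h5 (h6.2 (by linarith [not_le.1 hab]))).1
  rw [if_neg k7] at h ⊢
  by_cases k8 : t.1 = 8
  · rw [if_pos k8] at h ⊢
    simp only [List.mem_cons, List.not_mem_nil, or_false, forall_eq, gok_add, gok_mul, h0, h1] at h
    linarith
  rw [if_neg k8] at h ⊢
  by_cases k9 : t.1 = 9
  · rw [if_pos k9] at h ⊢
    simp only [List.mem_cons, List.not_mem_nil, or_false, forall_eq, gok_add, gok_mul, h0, h1] at h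
    exact h.symm
  rw [if_neg k9] at h ⊢
  simp only [List.mem_cons, List.not_mem_nil, or_false, forall_eq_or_imp, forall_eq, gok_add,
    gok_mul, h0, h1] at h
  obtain ⟨h2, h3, h4⟩ := h
  linarith

/-- the inverse or `0` -/
theorem zt_complete {p R z e : ℕ} {r y : ℝ} (h0 : v 0 = 1) (h1 : v 1 = 0) (hR : v R = r)
    (hy : v (wire p 2) = r⁻¹) (hz : v z = if r = 0 then 1 else 0)
    (he : v e = if r = 0 then 0 else 1) :
    ∀ g ∈ zt p R z e, GOk v x g := by
  simp only [zt, List.mem_cons, List.not_mem_nil, or_false, forall_eq_or_imp, forall_eq,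
    gok_add, gok_mul, h0, h1, hR, hy, hz, he]
  by_cases hr : r = 0
  · simp [hr]
  · simp [hr]

theorem pp_complete {p : ℕ} {d : ℝ} (h1 : v 1 = 0) (hd : v (wire p 1) = d)
    (h4 : v (wire p 4) = Real.sqrt d) (h5 : v (wire p 5) = Real.sqrt (-d))
    (h6 : v (wire p 6) = max d 0) (h7 : v (wire p 7) = max (-d) 0) :
    ∀ g ∈ pp p, GOk v x g := by
  simp only [pp, List.mem_cons, List.not_mem_nil, or_false, forall_eq_or_imp, forall_eq,
    gok_add, gok_mul, h1, hd, h4, h5, h6, h7]
  rcases le_total 0 d with h | h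
  · have h' : -d ≤ 0 := by linarith
    rw [max_eq_left h, max_eq_right h', Real.sqrt_eq_zero_of_nonpos h', Real.mul_self_sqrt h]
    simp
  · have h' : 0 ≤ -d := by linarith
    rw [max_eq_right h, max_eq_left h', Real.sqrt_eq_zero_of_nonpos h, Real.mul_self_sqrt h']
    simp

theorem tok_complete (x : Name → ℝ) (t : Tok) (p a b : ℕ) (A B : ℝ) :
    ∃ loc : ℕ → ℝ, ∀ v : ℕ → ℝ, v 0 = 1 → v 1 = 0 → (2 ≤ t.1 → v a = A) →
      (3 ≤ t.1 → t.1 ≠ 8 → v b = B) → (∀ s < 10, v (wire p s) = loc s) →
      ∀ g ∈ tokGates t p a b, GOk v x g := by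
  unfold tokGates
  by_cases k0 : t.1 = 0
  · refine ⟨fun s => if s = 0 then sval t.2 else -(sval t.2 : ℝ), fun v h0 h1 ha hb hs => ?_⟩
    rw [if_pos k0]
    have s0 := hs 0 (by norm_num)
    have s1 := hs 1 (by norm_num)
    simp only [if_true, one_ne_zero, if_false] at s0 s1
    rw [List.forall_mem_cons]
    constructor
    · simp [GOk, s1]
    · simp only [List.mem_cons, List.not_mem_nil, or_false, forall_eq, gok_add, s0, s1, h1]
      ring
  by_cases k1 : t.1 = 1
  · refine ⟨fun s => x t.2, fun v h0 h1 ha hb hs => ?_⟩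
    rw [if_neg k0, if_pos k1]
    have s0 := hs 0 (by norm_num)
    simp [GOk, s0]
  by_cases k2 : t.1 = 2
  · refine ⟨fun s => -A, fun v h0 h1 ha hb hs => ?_⟩
    rw [if_neg k0, if_neg k1, if_pos k2]
    have s0 := hs 0 (by norm_num)
    simp only [List.mem_cons, List.not_mem_nil, or_false, forall_eq, gok_add, s0,
      ha (by omega), h1]
    ring
  by_cases k3 : t.1 = 3
  · refine ⟨fun s => A + B, fun v h0 h1 ha hb hs => ?_⟩
    rw [if_neg k0, if_neg k1, if_neg k2, if_pos k3]
    have s0 := hs 0 (by norm_num)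
    simp only [List.mem_cons, List.not_mem_nil, or_false, forall_eq, gok_add, s0,
      ha (by omega), hb (by omega) (by omega)]
  by_cases k4 : t.1 = 4
  · refine ⟨fun s => A * B, fun v h0 h1 ha hb hs => ?_⟩
    rw [if_neg k0, if_neg k1, if_neg k2, if_neg k3, if_pos k4]
    have s0 := hs 0 (by norm_num)
    simp only [List.mem_cons, List.not_mem_nil, or_false, forall_eq, gok_mul, s0,
      ha (by omega), hb (by omega) (by omega)]
  by_cases k5 : t.1 = 5
  · refine ⟨fun s => if s = 1 then A - B else if s = 2 then (A - B)⁻¹ else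
      if s = 0 then (if A - B = 0 then 1 else 0) else (if A - B = 0 then 0 else 1),
      fun v h0 h1 ha hb hs => ?_⟩
    rw [if_neg k0, if_neg k1, if_neg k2, if_neg k3, if_neg k4, if_pos k5]
    have s0 := hs 0 (by norm_num)
    have s1 := hs 1 (by norm_num)
    have s2 := hs 2 (by norm_num)
    have s3 := hs 3 (by norm_num)
    norm_num at s0 s1 s2 s3
    rw [List.forall_mem_cons]
    refine ⟨?_, zt_complete (y := 0) h0 h1 s1 s2 s0 s3⟩
    rw [gok_add, s1, ha (by omega), hb (by omega) (by omega)]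
    ring
  by_cases k6 : t.1 = 6
  · refine ⟨fun s => if s = 1 then B - A else if s = 2 then (max (B - A) 0)⁻¹ else
      if s = 4 then Real.sqrt (B - A) else if s = 5 then Real.sqrt (-(B - A)) else
      if s = 6 then max (B - A) 0 else if s = 7 then max (-(B - A)) 0 else
      if s = 8 then (if max (B - A) 0 = 0 then 1 else 0) else
      (if max (B - A) 0 = 0 then 0 else 1),
      fun v h0 h1 ha hb hs => ?_⟩
    rw [if_neg k0, if_neg k1, if_neg k2, if_neg k3, if_neg k4, if_neg k5, if_pos k6]
    have s0 := hs 0 (by norm_num)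
    have s1 := hs 1 (by norm_num)
    have s2 := hs 2 (by norm_num)
    have s4 := hs 4 (by norm_num)
    have s5 := hs 5 (by norm_num)
    have s6 := hs 6 (by norm_num)
    have s7 := hs 7 (by norm_num)
    have s8 := hs 8 (by norm_num)
    simp only [OfNat.zero_ne_ofNat, zero_ne_one, OfNat.ofNat_ne_one,
      Nat.reduceEqDiff, if_true, if_false] at s0 s1 s2 s4 s5 s6 s7 s8
    rw [List.forall_mem_cons, List.forall_mem_append]
    refine ⟨?_, pp_complete h1 s1 s4 s5 s6 s7, zt_complete (y := 0) h0 h1 s6 s2 s8 s0⟩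
    rw [gok_add, s1, ha (by omega), hb (by omega) (by omega)]
    ring
  by_cases k7 : t.1 = 7
  · refine ⟨fun s => if s = 1 then A - B else if s = 2 then (max (A - B) 0)⁻¹ else
      if s = 4 then Real.sqrt (A - B) else if s = 5 then Real.sqrt (-(A - B)) else
      if s = 6 then max (A - B) 0 else if s = 7 then max (-(A - B)) 0 else
      if s = 0 then (if max (A - B) 0 = 0 then 1 else 0) else
      (if max (A - B) 0 = 0 then 0 else 1),
      fun v h0 h1 ha hb hs => ?_⟩
    rw [if_neg k0, if_neg k1, if_neg k2, if_neg k3, if_neg k4, if_neg k5, if_neg k6, if_pos k7]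
    have s0 := hs 0 (by norm_num)
    have s1 := hs 1 (by norm_num)
    have s2 := hs 2 (by norm_num)
    have s3 := hs 3 (by norm_num)
    have s4 := hs 4 (by norm_num)
    have s5 := hs 5 (by norm_num)
    have s6 := hs 6 (by norm_num)
    have s7 := hs 7 (by norm_num)
    simp only [OfNat.zero_ne_ofNat, zero_ne_one, OfNat.ofNat_ne_one,
      Nat.reduceEqDiff, if_true, if_false, OfNat.ofNat_ne_zero] at s0 s1 s2 s3 s4 s5 s6 s7
    rw [List.forall_mem_cons, List.forall_mem_append]
    refine ⟨?_, pp_complete h1 s1 s4 s5 s6 s7, zt_complete (y := 0) h0 h1 s6 s2 s0 s3⟩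
    rw [gok_add, s1, ha (by omega), hb (by omega) (by omega)]
    ring
  by_cases k8 : t.1 = 8
  · refine ⟨fun s => 1 - A, fun v h0 h1 ha hb hs => ?_⟩
    rw [if_neg k0, if_neg k1, if_neg k2, if_neg k3, if_neg k4, if_neg k5, if_neg k6, if_neg k7,
      if_pos k8]
    have s0 := hs 0 (by norm_num)
    simp only [List.mem_cons, List.not_mem_nil, or_false, forall_eq, gok_add, s0,
      ha (by omega), h0]
    ring
  by_cases k9 : t.1 = 9
  · refine ⟨fun s => A * B, fun v h0 h1 ha hb hs => ?_⟩
    rw [if_neg k0, if_neg k1, if_neg k2, if_neg k3, if_neg k4, if_neg k5, if_neg k6, if_neg k7,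
      if_neg k8, if_pos k9]
    have s0 := hs 0 (by norm_num)
    simp only [List.mem_cons, List.not_mem_nil, or_false, forall_eq, gok_mul, s0,
      ha (by omega), hb (by omega) (by omega)]
  · refine ⟨fun s => if s = 0 then A + B - A * B else if s = 1 then A * B else A + B,
      fun v h0 h1 ha hb hs => ?_⟩
    rw [if_neg k0, if_neg k1, if_neg k2, if_neg k3, if_neg k4, if_neg k5, if_neg k6, if_neg k7,
      if_neg k8, if_neg k9]
    have s0 := hs 0 (by norm_num)
    have s1 := hs 1 (by norm_num)
    have s2 := hs 2 (by norm_num)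
    norm_num at s0 s1 s2
    simp only [List.mem_cons, List.not_mem_nil, or_false, forall_eq_or_imp, forall_eq, gok_mul,
      gok_add, s0, s1, s2, ha (by omega), hb (by omega) (by omega)]
    refine ⟨trivial, trivial, by ring⟩

/-- All wires of the gate are smaller than `W`. -/
def GLt (W : ℕ) (g : Gate) : Prop := g.2.1.1 < W ∧ g.2.1.2.1 < W ∧ g.2.1.2.2 < W

theorem GOk.congr {v v' : ℕ → ℝ} {W : ℕ} {g : Gate} (hg : GLt W g) (h : ∀ w < W, v' w = v w)
    (hv : GOk v x g) : GOk v' x g := by
  obtain ⟨h1, h2, h3⟩ := hg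
  unfold GOk at *
  rw [h _ h1, h _ h2, h _ h3]
  exact hv

theorem tok_lt (t : Tok) {p a b : ℕ} (ha : 2 ≤ t.1 → a < wire p 0)
    (hb : 3 ≤ t.1 → t.1 ≠ 8 → b < wire p 0) :
    ∀ g ∈ tokGates t p a b, GLt (wire (p + 1) 0) g := by
  unfold tokGates
  intro g hg
  unfold wire at ha hb
  split_ifs at hg with k0 k1 k2 k3 k4 k5 k6 k7 k8 k9
  all_goals
    simp only [zt, pp, List.mem_cons, List.not_mem_nil, or_false, List.mem_append] at hg
  · rcases hg with rfl | rfl <;> simp only [GLt, gadd, wire] <;> omega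
  · rcases hg with rfl; simp only [GLt, gadd, wire]; omega
  · have := ha (by omega)
    rcases hg with rfl; simp only [GLt, gadd, wire]; omega
  · have := ha (by omega)
    have := hb (by omega) (by omega)
    rcases hg with rfl; simp only [GLt, gadd, wire]; omega
  · have := ha (by omega)
    have := hb (by omega) (by omega)
    rcases hg with rfl; simp only [GLt, gmul, wire]; omega
  · have := ha (by omega)
    have := hb (by omega) (by omega)
    rcases hg with rfl | rfl | rfl | rfl <;> simp only [GLt, gmul, gadd, wire] <;> omega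
  · have := ha (by omega)
    have := hb (by omega) (by omega)
    rcases hg with rfl | (rfl | rfl | rfl | rfl) | rfl | rfl | rfl <;>
      simp only [GLt, gmul, gadd, wire] <;> omega
  · have := ha (by omega)
    have := hb (by omega) (by omega)
    rcases hg with rfl | (rfl | rfl | rfl | rfl) | rfl | rfl | rfl <;>
      simp only [GLt, gmul, gadd, wire] <;> omega
  · have := ha (by omega)
    rcases hg with rfl; simp only [GLt, gadd, wire]; omega
  · have := ha (by omega)
    have := hb (by omega) (by omega)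
    rcases hg with rfl; simp only [GLt, gmul, wire]; omega
  · have := ha (by omega)
    have := hb (by omega) (by omega)
    rcases hg with rfl | rfl | rfl <;> simp only [GLt, gmul, gadd, wire] <;> omega

theorem tokGates_congr0 (t : Tok) (h : t.1 < 2) (p a b a' b' : ℕ) :
    tokGates t p a b = tokGates t p a' b' := by
  unfold tokGates
  by_cases k0 : t.1 = 0
  · rw [if_pos k0, if_pos k0]
  · rw [if_neg k0, if_neg k0, if_pos (by omega), if_pos (by omega)]

theorem tokGates_congr1 (t : Tok) (h : t.1 = 2 ∨ t.1 = 8) (p a b b' : ℕ) :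
    tokGates t p a b = tokGates t p a b' := by
  unfold tokGates
  rcases h with h | h
  · simp [h]
  · simp [h]

end Pool.Agent.Hadamard
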