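import Pool.Agent.Lib_MP_c79a71_lc.EntSem

set_option autoImplicit false
set_option linter.unusedSectionVars false
set_option linter.unusedSimpArgs false
set_option linter.unusedVariables false

/-!
# The existential theory of the reals reduces to the Hadamard decomposition problem
-/

namespace Pool.Agent.Hadamard

open Pool.Agent.PartSep.TM Pool.Agent.PartSep.CL
open Pool.Agent.PartSep.TM.Rep N487b59b3

set_option synthInstance.maxSize 2000

variable {E F G : Type} [Rep E] [Rep F] [Rep G]

/-- reading a token -/
def parseT (b : List Sym) : Tok := (capval 11 (undel b).1, (undel b).2)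

/-- reading a list of tokens -/
def parseL (s : List Sym) : List Tok := (splitB s).map parseT

/-- writing a list of tokens -/
def unparseL (l : List Tok) : List Sym := l.flatMap (fun t => del (del (natName t.1) ++ t.2))

theorem fp_parseL {s : E → List Sym} (hs : FP s) : FP (fun x => parseL (s x)) :=
  FP.mapE (FP.splitB hs) (g := fun y : E × List Sym => parseT y.2)
    (FP.pair (fp_capval (FP.const 11) (FP.comp FP.fst (fp_undel FP.snd)))
      (FP.comp FP.snd (fp_undel FP.snd)))

theorem fp_unparseL {l : E → List Tok} (hl : FP l) : FP (fun x => unparseL (l x)) :=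
  FP.flatMapS hl (g := fun y : E × Tok => del (del (natName y.2.1) ++ y.2.2))
    (FP.del (FP.append (FP.del (fp_natName (FP.comp FP.fst FP.snd))) (FP.comp FP.snd FP.snd)))

/-- Is the list of tokens a formula? -/
def okL (l : List Tok) : Bool :=
  l.all (fun t => okT t) && ((pstk l).1 && (okS true (pstk l).2 0 &&
    decide ((pstk l).2.length = 1)))

/-- Is the string the code of a formula? -/
def validF (s : List Sym) : Bool := decide (unparseL (parseL s) = s) && okL (parseL s)

theorem fp_okT {t : E → Tok} (ht : FP t) : FP (fun x => okT (t x)) :=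
  FP.and (FP.natLe (FP.comp FP.fst ht) (FP.const 10)) (FP.and (fp_okN (FP.comp FP.snd ht))
    (FP.or (FP.natLt (FP.comp FP.fst ht) (FP.const 2)) (FP.isEmpty (FP.comp FP.snd ht))))

theorem fp_okL {l : E → List Tok} (hl : FP l) : FP (fun x => okL (l x)) := by
  have hp := fp_pstk hl
  have hp2 : FP (fun x => (pstk (l x)).2) := FP.comp FP.snd hp
  exact FP.and (fp_allE' hl (p := fun y : E × Tok => okT y.2) (fp_okT FP.snd))
    (FP.and (FP.comp FP.fst hp) (FP.and (fp_okS (FP.const true) hp2 0)
      (FP.natEq (FP.lengthE hp2) (FP.const 1))))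

theorem fp_validF {s : E → List Sym} (hs : FP s) : FP (fun x => validF (s x)) :=
  FP.and (FP.eqS (fp_unparseL (fp_parseL hs)) hs) (fp_okL (fp_parseL hs))

theorem unparse_ntok (l : List (ℕ × ℕ)) : unparseL (l.map ntok) = l.flatMap tstr := by
  unfold unparseL
  rw [List.flatMap_map]
  rfl

theorem poly_kinds (p : PolyExpr) : ∀ t ∈ p.tokens, t.1 ≤ 10 ∧ (2 ≤ t.1 → t.2 = 0) := by
  induction p with
  | const n => simp [PolyExpr.tokens]
  | var i => simp [PolyExpr.tokens]
  | neg p ih =>
    intro t ht
    simp only [PolyExpr.tokens, List.mem_cons] at ht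
    rcases ht with rfl | ht
    · simp
    · exact ih t ht
  | add p q ih ih' =>
    intro t ht
    simp only [PolyExpr.tokens, List.mem_cons, List.mem_append] at ht
    rcases ht with rfl | ht | ht
    · simp
    · exact ih t ht
    · exact ih' t ht
  | mul p q ih ih' =>
    intro t ht
    simp only [PolyExpr.tokens, List.mem_cons, List.mem_append] at ht
    rcases ht with rfl | ht | ht
    · simp
    · exact ih t ht
    · exact ih' t ht

theorem formula_kinds (φ : Formula) : ∀ t ∈ φ.tokens, t.1 ≤ 10 ∧ (2 ≤ t.1 → t.2 = 0) := by
  induction φ with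
  | eq p q =>
    intro t ht
    simp only [Formula.tokens, List.mem_cons, List.mem_append] at ht
    rcases ht with rfl | ht | ht
    · simp
    · exact poly_kinds p t ht
    · exact poly_kinds q t ht
  | lt p q =>
    intro t ht
    simp only [Formula.tokens, List.mem_cons, List.mem_append] at ht
    rcases ht with rfl | ht | ht
    · simp
    · exact poly_kinds p t ht
    · exact poly_kinds q t ht
  | le p q =>
    intro t ht
    simp only [Formula.tokens, List.mem_cons, List.mem_append] at ht
    rcases ht with rfl | ht | ht
    · simp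
    · exact poly_kinds p t ht
    · exact poly_kinds q t ht
  | not φ ih =>
    intro t ht
    simp only [Formula.tokens, List.mem_cons] at ht
    rcases ht with rfl | ht
    · simp
    · exact ih t ht
  | and φ ψ ih ih' =>
    intro t ht
    simp only [Formula.tokens, List.mem_cons, List.mem_append] at ht
    rcases ht with rfl | ht | ht
    · simp
    · exact ih t ht
    · exact ih' t ht
  | or φ ψ ih ih' =>
    intro t ht
    simp only [Formula.tokens, List.mem_cons, List.mem_append] at ht
    rcases ht with rfl | ht | ht
    · simp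
    · exact ih t ht
    · exact ih' t ht

theorem parse_fcode (φ : Formula) : parseL (fcode φ) = φ.tree.toks := by
  rw [formula_toks]
  unfold parseL fcode
  have h1 : φ.tokens.flatMap tstr =
      (φ.tokens.map (fun t => del (natName t.1) ++ natName t.2)).flatMap del := by
    rw [List.flatMap_map]
    rfl
  rw [h1, splitB_flatMap, List.map_map]
  apply List.map_congr_left
  intro t ht
  simp only [Function.comp_apply, parseT, undel_del, capval_eq, sval_natName, ntok]
  have := (formula_kinds φ t ht).1
  rw [Nat.min_eq_right (by omega)]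

theorem okT_toks (φ : Formula) : ∀ t ∈ φ.tree.toks, okT t = true := by
  rw [formula_toks]
  intro t ht
  obtain ⟨t', ht', rfl⟩ := List.mem_map.1 ht
  obtain ⟨h1, h2⟩ := formula_kinds φ t' ht'
  exact okT_ntok h1 h2

theorem validF_fcode (φ : Formula) : validF (fcode φ) = true := by
  unfold validF okL
  rw [parse_fcode]
  have h1 : unparseL φ.tree.toks = fcode φ := by
    rw [formula_toks, unparse_ntok]
    rfl
  have h2 := pstk_tree φ.tree true [] (formula_wt φ)
  rw [List.append_nil] at h2
  have h3 : (φ.tree.toks.all fun t => okT t) = true := by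
    rw [List.all_eq_true]
    exact okT_toks φ
  rw [decide_eq_true h1, h3, h2]
  rfl

theorem exists_of_validF {s : List Sym} (h : validF s = true) : ∃ φ : Formula, s = fcode φ := by
  unfold validF okL at h
  simp only [Bool.and_eq_true, decide_eq_true_eq] at h
  obtain ⟨h1, h2, h3, h4, h5⟩ := h
  rw [List.all_eq_true] at h2
  obtain ⟨F, e1, e2, e3⟩ := pstk_forest _ h3
  obtain ⟨h6, h7⟩ := (okS_iff _ _ _).1 h4
  have hlen := congrArg List.length e3
  simp only [List.length_map, h5] at hlen
  match F, e1, e2, e3, hlen with
  | [(T, f)], e1, e2, e3, _ =>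
    have hf : f = true := by
      have := congrArg (fun l => l[0]?) e3
      simp only [List.getElem?_map, List.getElem?_eq_getElem h6, Option.map_some, h7,
        List.map_cons, List.map_nil, List.getElem?_cons_zero, Option.some.injEq] at this
      exact this.symm
    subst hf
    rw [List.flatMap_cons, List.flatMap_nil, List.append_nil] at e1
    simp only at e1
    obtain ⟨φ, hφ⟩ := exists_formula T (e2 (T, true) (by simp)) (by rw [← e1]; exact h2)
    refine ⟨φ, ?_⟩
    rw [← h1, e1, hφ, unparse_ntok]
    rfl

/-- the data of the instance of a list of tokens -/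
def hdat (l : List Tok) : Dat :=
  datN (rows (qOf l) (msOf l)) (colsN (qOf l) (csN (allG l)) (asOf l) (msOf l))
    (nfr (qOf l) (msOf l).length)

theorem fp_hdat {l : E → List Tok} (hl : FP l) : FP (fun x => hdat (l x)) :=
  fp_datN (fp_rows (fp_qOf hl) (fp_msOf hl)) (fp_colsN (fp_qOf hl) (fp_csN (fp_allG hl))
    (fp_asOf hl) (fp_msOf hl)) (fp_nfr (fp_qOf hl) (FP.lengthE (fp_msOf hl)))

/-- a no-instance -/
def noM : Matrix (Fin 1) (Fin 1) ℚ := 0

/-- the instance of the Hadamard decomposition problem -/
noncomputable def hout (s : List Sym) : List Sym :=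
  if validF s then unparseDat (hdat (parseL s)) else (encodeInstance noM 2 2).map bs

theorem fp_hout {s : E → List Sym} (hs : FP s) : FP (fun x => hout (s x)) :=
  FP.ite (fp_validF hs) (fp_unparseDat (fp_hdat (fp_parseL hs))) (FP.const _)

/-- the matrix of a list of tokens -/
def hmat (l : List Tok) : Matrix (Fin (rows (qOf l) (msOf l)).length)
    (Fin (cols (qOf l) ((csN (allG l)).map cval) (asOf l) (msOf l)).length) ℚ :=
  matOf (rows (qOf l) (msOf l)) (cols (qOf l) ((csN (allG l)).map cval) (asOf l) (msOf l))

theorem hout_fcode (φ : Formula) : hout (fcode φ) =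
    (encodeInstance (hmat φ.tree.toks) (nfr (qOf φ.tree.toks) (msOf φ.tree.toks).length)
      (nfr (qOf φ.tree.toks) (msOf φ.tree.toks).length + 2)).map bs := by
  unfold hout
  rw [if_pos (validF_fcode φ), parse_fcode, encodeInstance_eq]
  refine congrArg unparseDat ?_
  unfold hmat hdat
  rw [← datOf_matOf (fun ρ hρ => rows_good ρ hρ)
    (fun γ hγ => cols_good (csN_names _ (okT_toks φ)) γ hγ)]
  rw [cols_eq]

theorem hd_encode {m n : ℕ} (hm : 0 < m) (M : Matrix (Fin m) (Fin n) ℚ) (k₁ k₂ : ℕ) :
    HadamardDecompositionProblem (encodeInstance M k₁ k₂) = true ↔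
      HasHadamardDecomposition M k₁ k₂ := by
  classical
  unfold HadamardDecompositionProblem
  rw [decide_eq_true_eq]
  constructor
  · rintro ⟨m', n', M', k₁', k₂', h1, h2⟩
    have h3 := bitEncode_injective h1
    rw [Prod.mk.injEq, Prod.mk.injEq] at h3
    obtain ⟨h4, h5, h6⟩ := h3
    have hm' : m = m' := by
      have := congrArg List.length h4
      simpa using this
    subst hm'
    have hn' : n = n' := by
      have := congrArg (fun l => (l[0]?.getD []).length) h4
      simpa [List.getElem?_ofFn, hm] using this
    subst hn' h5 h6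
    have h7 := List.ofFn_injective h4
    have h8 : M = M' := by
      ext i j
      have := List.ofFn_injective (congrFun h7 i)
      exact congrFun this j
    rw [h8]
    exact h2
  · intro h
    exact ⟨m, n, M, k₁, k₂, rfl, h⟩

theorem noM_no : ¬ HasHadamardDecomposition noM 2 2 := by
  rintro h
  have := h.le
  omega

/-- output as a bit string -/
noncomputable def houtB (w : List Bool) : List Bool := (hout (w.map bs)).map sb

theorem etr_iff (w : List Bool) :
    ETR w = true ↔ ∃ φ : Formula, w.map bs = fcode φ ∧ ∃ x : ℕ → ℝ, φ.Holds x := by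
  classical
  unfold ETR
  rw [decide_eq_true_eq]
  refine exists_congr fun φ => and_congr_left fun _ => ?_
  rw [← fcode_eq]
  constructor
  · intro h; rw [h]
  · intro h; exact List.map_injective_iff.2 bs_injective h

theorem map_sb_bs' (w : List Bool) : (w.map bs).map sb = w := by
  rw [List.map_map]
  conv_rhs => rw [← List.map_id w]
  apply List.map_congr_left
  intro b _
  exact sb_bs b

/-- the output of the reduction -/
theorem houtB_spec (w : List Bool) : (houtB w).map bs = hout (w.map bs) ∧
    (ETR w = true ↔ HadamardDecompositionProblem (houtB w) = true) := by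
  by_cases hv : validF (w.map bs) = true
  · obtain ⟨φ, hφ⟩ := exists_of_validF hv
    have h1 := hout_fcode φ
    unfold houtB
    rw [hφ, h1, map_sb_bs']
    refine ⟨rfl, ?_⟩
    rw [hd_encode, etr_iff]
    · have h2 := formula_iff φ
      unfold hmat
      rw [h2]
      constructor
      · rintro ⟨ψ, h3, x, hx⟩
        rw [hφ, ← fcode_eq, ← fcode_eq] at h3
        have h4 := formula_code_inj (List.map_injective_iff.2 bs_injective h3)
        rw [h4]
        exact ⟨x, hx⟩
      · rintro ⟨x, hx⟩
        exact ⟨φ, hφ, x, hx⟩
    · apply List.length_pos_of_mem (a := [((0, 0), true)])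
      have : [((0, 0), true)] ∈ units (nfr (qOf φ.tree.toks) (msOf φ.tree.toks).length)
          (nfr (qOf φ.tree.toks) (msOf φ.tree.toks).length + 2) :=
        mem_units (by unfold nfr; omega) (by omega)
      simp only [rows, List.mem_append, this, true_or]
  · unfold houtB
    have h1 : hout (w.map bs) = (encodeInstance noM 2 2).map bs := by
      unfold hout
      rw [if_neg hv]
    rw [h1, map_sb_bs']
    refine ⟨rfl, ?_⟩
    rw [hd_encode (by norm_num), etr_iff]
    constructor
    · rintro ⟨φ, hφ, _⟩
      rw [hφ, validF_fcode] at hv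
      exact absurd rfl hv
    · intro h
      exact absurd h noM_no

/-- The existential theory of the reals reduces to the Hadamard decomposition problem. -/
theorem etr_reduces_hd : N793a5b8e.ManyOneReducible ETR HadamardDecompositionProblem := by
  refine ⟨houtB, ?_, fun w => ?_⟩
  · have hs : FP (fun s : List Sym => (splitB s).flatMap (fun s => s)) :=
      FP.flatMapS (FP.splitB FP.id) (g := fun y : List Sym × List Sym => y.2) FP.snd
    refine isPolyTime_of_fp (g := fun s => hout ((splitB s).flatMap (fun s => s)))
      (fp_hout hs) (fun w => ?_)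
    rw [unbits, (houtB_spec w).1]
  · rw [Bool.eq_iff_iff]
    exact (houtB_spec w).2

/-- Many-one reductions can be composed. -/
theorem reducible_trans {A B C : N68a2faeb.DecisionProblem}
    (hAB : N793a5b8e.ManyOneReducible A B) (hBC : N793a5b8e.ManyOneReducible B C) :
    N793a5b8e.ManyOneReducible A C := by
  obtain ⟨f, hf, hAf⟩ := hAB
  obtain ⟨g, hg, hBg⟩ := hBC
  refine ⟨fun w => g (f w), ?_, fun w => by rw [hAf, hBg]⟩
  obtain ⟨f', hf', hff⟩ := FP.ofTM2 hf
  obtain ⟨g', hg', hgg⟩ := FP.ofTM2 hg
  refine FP.toTM2 (αΓ := Bool) (βΓ := Bool) bs sb bs sb_bs (FP.comp hg' hf') (fun x => ?_)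
  rw [hff, hgg]

/-- **The Hadamard decomposition problem is complete for the existential theory of the reals.** -/
theorem hd_complete :
    N793a5b8e.IsCompleteFor ExistsR HadamardDecompositionProblem :=
  ⟨hd_reduces_etr, fun _ hL => reducible_trans hL etr_reduces_hd⟩

end Pool.Agent.Hadamard
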