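import Pool.Agent.Lib_MP_c79a71_lc.Build

set_option autoImplicit false
set_option linter.unusedSectionVars false
set_option linter.unusedSimpArgs false
set_option linter.unusedVariables false

/-!
Linear algebra of the relations A and B between frames.
-/

namespace Pool.Agent.Hadamard

open Matrix

variable {n : ℕ}

/-- unit vector -/
noncomputable def e (n : ℕ) (k : ℕ) : Fin n → ℝ := fun i => if (i : ℕ) = k then 1 else 0

theorem e_eq_single {k : ℕ} (h : k < n) : e n k = Pi.single ⟨k, h⟩ 1 := by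
  funext i
  simp only [e, Pi.single_apply, Fin.ext_iff]

theorem e_dot {k : ℕ} (h : k < n) (x : Fin n → ℝ) : e n k ⬝ᵥ x = x ⟨k, h⟩ := by
  rw [e_eq_single h, single_dotProduct, one_mul]

theorem dot_e {k : ℕ} (h : k < n) (x : Fin n → ℝ) : x ⬝ᵥ e n k = x ⟨k, h⟩ := by
  rw [dotProduct_comm, e_dot h]

theorem e_ne_zero {k : ℕ} (h : k < n) : e n k ≠ 0 := by
  intro h0
  have := congrFun h0 ⟨k, h⟩
  simp [e] at this

/-- A matrix all of whose rows in `S` are parallel to unit vectors, in a uniform way. -/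
theorem rows_lemma (E : Matrix (Fin n) (Fin n) ℝ) (S : Set (Fin n))
    (h1 : ∀ i ∈ S, ∃ μ : ℝ, E i = μ • Pi.single i 1)
    (h2 : ∀ i ∈ S, ∀ i' ∈ S, i ≠ i' → ∃ μ : ℝ, E i + E i' = μ • (Pi.single i 1 + Pi.single i' 1)) :
    (∀ i ∈ S, ∀ j, j ≠ i → E i j = 0) ∧ ∀ i ∈ S, ∀ i' ∈ S, E i i = E i' i' := by
  have h3 : ∀ i ∈ S, ∀ j, j ≠ i → E i j = 0 := by
    intro i hi j hj
    obtain ⟨μ, hμ⟩ := h1 i hi
    rw [hμ]
    simp [Pi.single_eq_of_ne hj]
  refine ⟨h3, fun i hi i' hi' => ?_⟩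
  by_cases h : i = i'
  · rw [h]
  obtain ⟨μ, hμ⟩ := h2 i hi i' hi' h
  have e1 := congrFun hμ i
  have e2 := congrFun hμ i'
  simp only [Pi.add_apply, Pi.smul_apply, smul_eq_mul, Pi.single_eq_same,
    Pi.single_eq_of_ne h, Pi.single_eq_of_ne (Ne.symm h), h3 i hi i' (Ne.symm h),
    h3 i' hi' i h] at e1 e2
  linarith

theorem vecMul_ne_zero {E : Matrix (Fin n) (Fin n) ℝ} (hE : IsUnit E) {x : Fin n → ℝ}
    (hx : x ≠ 0) : x ᵥ* E ≠ 0 := by
  intro h0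
  apply hx
  have := congrArg (fun w => w ᵥ* E⁻¹) h0
  simpa [vecMul_vecMul, mul_nonsing_inv _ ((isUnit_iff_isUnit_det _).1 hE)] using this

/-- The relation A: `E = λ (1 + e₀ aᵀ)`. -/
theorem relA_form (hn : 2 ≤ n) (E : Matrix (Fin n) (Fin n) ℝ) (hE : IsUnit E)
    (hr1 : ∀ i : Fin n, (i : ℕ) ≠ 0 → ∃ μ : ℝ, E i = μ • Pi.single i 1)
    (hr2 : ∀ i i' : Fin n, (i : ℕ) ≠ 0 → (i' : ℕ) ≠ 0 → i ≠ i' →
      ∃ μ : ℝ, E i + E i' = μ • (Pi.single i 1 + Pi.single i' 1))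
    (hc1 : ∀ i : Fin n, (i : ℕ) < 2 → ∃ μ : ℝ, Eᵀ i = μ • Pi.single i 1)
    (hc2 : ∀ i i' : Fin n, (i : ℕ) < 2 → (i' : ℕ) < 2 → i ≠ i' →
      ∃ μ : ℝ, Eᵀ i + Eᵀ i' = μ • (Pi.single i 1 + Pi.single i' 1)) :
    ∃ (μ : ℝ) (a : Fin n → ℝ), μ ≠ 0 ∧ (∀ i : Fin n, (i : ℕ) < 2 → a i = 0) ∧
      E = μ • (1 + vecMulVec (e n 0) a) := by
  obtain ⟨r1, r2⟩ := rows_lemma E {i | (i : ℕ) ≠ 0} (fun i hi => hr1 i hi)
    (fun i hi i' hi' h => hr2 i i' hi hi' h)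
  obtain ⟨c1, c2⟩ := rows_lemma Eᵀ {i | (i : ℕ) < 2} (fun i hi => hc1 i hi)
    (fun i hi i' hi' h => hc2 i i' hi hi' h)
  let i1 : Fin n := ⟨1, by omega⟩
  have hd : ∀ i, E i i = E i1 i1 := by
    intro i
    by_cases h : (i : ℕ) = 0
    · have := c2 i (by simp [h]) i1 (by simp [i1])
      exact this
    · exact r2 i h i1 (by simp [i1])
  have hμ : E i1 i1 ≠ 0 := by
    intro h0
    have h1 : E i1 = 0 := by
      funext j
      by_cases h : j = i1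
      · rw [h]; exact h0
      · exact r1 i1 (by simp [i1]) j h
    have h2 : Pi.single i1 1 ᵥ* E = 0 := by
      rw [single_one_vecMul]
      exact h1
    exact vecMul_ne_zero hE (x := Pi.single i1 1) (by simp) h2
  refine ⟨E i1 i1, fun j => if (j : ℕ) < 2 then 0 else (E i1 i1)⁻¹ * E ⟨0, by omega⟩ j, hμ,
    fun i hi => by simp [hi], ?_⟩
  ext i j
  simp only [Matrix.smul_apply, Matrix.add_apply, one_apply, vecMulVec_apply, smul_eq_mul, e]
  by_cases hi : (i : ℕ) = 0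
  · have hi' : i = ⟨0, by omega⟩ := Fin.ext hi
    by_cases hij : i = j
    · subst hij
      simp [hi, hd]
    · by_cases hj : (j : ℕ) < 2
      · have : E i j = 0 := c1 j hj i hij
        simp [this, hij, hj]
      · rw [← hi']
        simp [hij, hj, hμ, hi]
  · by_cases hij : i = j
    · subst hij
      simp [hi, hd]
    · rw [r1 i hi j (Ne.symm hij)]
      simp [hi, hij]

/-- The relation B: `E = λ (1 + b e₁ᵀ)`. -/
theorem relB_form (hn : 2 ≤ n) (E : Matrix (Fin n) (Fin n) ℝ) (hE : IsUnit E)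
    (hr1 : ∀ i : Fin n, (i : ℕ) < 2 → ∃ μ : ℝ, E i = μ • Pi.single i 1)
    (hr2 : ∀ i i' : Fin n, (i : ℕ) < 2 → (i' : ℕ) < 2 → i ≠ i' →
      ∃ μ : ℝ, E i + E i' = μ • (Pi.single i 1 + Pi.single i' 1))
    (hc1 : ∀ i : Fin n, (i : ℕ) ≠ 1 → ∃ μ : ℝ, Eᵀ i = μ • Pi.single i 1)
    (hc2 : ∀ i i' : Fin n, (i : ℕ) ≠ 1 → (i' : ℕ) ≠ 1 → i ≠ i' →
      ∃ μ : ℝ, Eᵀ i + Eᵀ i' = μ • (Pi.single i 1 + Pi.single i' 1)) :
    ∃ (μ : ℝ) (b : Fin n → ℝ), μ ≠ 0 ∧ (∀ i : Fin n, (i : ℕ) < 2 → b i = 0) ∧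
      E = μ • (1 + vecMulVec b (e n 1)) := by
  obtain ⟨r1, r2⟩ := rows_lemma E {i | (i : ℕ) < 2} (fun i hi => hr1 i hi)
    (fun i hi i' hi' h => hr2 i i' hi hi' h)
  obtain ⟨c1, c2⟩ := rows_lemma Eᵀ {i | (i : ℕ) ≠ 1} (fun i hi => hc1 i hi)
    (fun i hi i' hi' h => hc2 i i' hi hi' h)
  let i0 : Fin n := ⟨0, by omega⟩
  have hd : ∀ i, E i i = E i0 i0 := by
    intro i
    by_cases h : (i : ℕ) = 1
    · exact r2 i (by simp [h]) i0 (by simp [i0])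
    · have := c2 i h i0 (by simp [i0])
      exact this
  have hμ : E i0 i0 ≠ 0 := by
    intro h0
    have h1 : E i0 = 0 := by
      funext j
      by_cases h : j = i0
      · rw [h]; exact h0
      · exact r1 i0 (by simp [i0]) j h
    have h2 : Pi.single i0 1 ᵥ* E = 0 := by
      rw [single_one_vecMul]
      exact h1
    exact vecMul_ne_zero hE (x := Pi.single i0 1) (by simp) h2
  refine ⟨E i0 i0, fun i => if (i : ℕ) < 2 then 0 else (E i0 i0)⁻¹ * E i ⟨1, by omega⟩, hμ,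
    fun i hi => by simp [hi], ?_⟩
  ext i j
  simp only [Matrix.smul_apply, Matrix.add_apply, one_apply, vecMulVec_apply, smul_eq_mul, e]
  by_cases hj : (j : ℕ) = 1
  · have hj' : j = ⟨1, by omega⟩ := Fin.ext hj
    by_cases hij : i = j
    · subst hij
      simp [hj, hd]
    · by_cases hi : (i : ℕ) < 2
      · have : E i j = 0 := r1 i hi j (Ne.symm hij)
        simp [this, hij, hi]
      · rw [← hj']
        simp [hij, hi, hμ, hj]
  · by_cases hij : i = j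
    · subst hij
      simp [hj, hd]
    · have : E i j = 0 := c1 j hj i hij
      rw [this]
      simp [hj, hij]

/-- If `x = s u`, `y = s' u` with `x`, `y` nonzero, then `x` is a nonzero multiple of `y`. -/
theorem par_of_common {x y u : Fin n → ℝ} {s s' : ℝ} (hx : x = s • u) (hy : y = s' • u)
    (hx0 : x ≠ 0) (hy0 : y ≠ 0) : ∃ μ : ℝ, μ ≠ 0 ∧ x = μ • y := by
  have hs : s ≠ 0 := by
    rintro rfl
    exact hx0 (by rw [hx, zero_smul])
  have hs' : s' ≠ 0 := by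
    rintro rfl
    exact hy0 (by rw [hy, zero_smul])
  refine ⟨s / s', div_ne_zero hs hs', ?_⟩
  rw [hx, hy, smul_smul, div_mul_cancel₀ _ hs']

theorem mulVec_ne_zero' {E : Matrix (Fin n) (Fin n) ℝ} (hE : IsUnit E) {x : Fin n → ℝ}
    (hx : x ≠ 0) : E *ᵥ x ≠ 0 := by
  intro h0
  apply hx
  have := congrArg (fun w => E⁻¹ *ᵥ w) h0
  simpa [mulVec_mulVec, nonsing_inv_mul _ ((isUnit_iff_isUnit_det _).1 hE)] using this

/-- rows: from common direction to a relation of the relative matrix -/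
theorem row_rel {FX FY : Matrix (Fin n) (Fin n) ℝ} (hX : IsUnit FX) (hY : IsUnit FY)
    {c c' u : Fin n → ℝ} {s s' : ℝ} (h : c ᵥ* FX = s • u) (h' : c' ᵥ* FY = s' • u)
    (hc : c ≠ 0) (hc' : c' ≠ 0) : ∃ μ : ℝ, μ ≠ 0 ∧ c ᵥ* (FX * FY⁻¹) = μ • c' := by
  obtain ⟨μ, h0, h1⟩ := par_of_common h h' (vecMul_ne_zero hX hc) (vecMul_ne_zero hY hc')
  refine ⟨μ, h0, ?_⟩
  rw [← vecMul_vecMul, h1, smul_vecMul, vecMul_vecMul,
    mul_nonsing_inv _ ((isUnit_iff_isUnit_det _).1 hY), vecMul_one]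

/-- columns: from common direction to a relation of the relative matrix -/
theorem col_rel {FX FY : Matrix (Fin n) (Fin n) ℝ} (hX : IsUnit FX) (hY : IsUnit FY)
    {d d' v : Fin n → ℝ} {t t' : ℝ} (h : FX⁻¹ *ᵥ d = t • v) (h' : FY⁻¹ *ᵥ d' = t' • v)
    (hd : d ≠ 0) (hd' : d' ≠ 0) : ∃ μ : ℝ, μ ≠ 0 ∧ (FX * FY⁻¹) *ᵥ d' = μ • d := by
  have hX' : IsUnit FX⁻¹ := by
    rw [isUnit_iff_isUnit_det, isUnit_nonsing_inv_det_iff]
    exact (isUnit_iff_isUnit_det _).1 hX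
  have hY' : IsUnit FY⁻¹ := by
    rw [isUnit_iff_isUnit_det, isUnit_nonsing_inv_det_iff]
    exact (isUnit_iff_isUnit_det _).1 hY
  obtain ⟨μ, h0, h1⟩ := par_of_common h' h (mulVec_ne_zero' hY' hd') (mulVec_ne_zero' hX' hd)
  refine ⟨μ, h0, ?_⟩
  rw [← mulVec_mulVec, h1, mulVec_smul, mulVec_mulVec,
    mul_nonsing_inv _ ((isUnit_iff_isUnit_det _).1 hX), one_mulVec]

theorem mulVec_A (a d : Fin n → ℝ) : (1 + vecMulVec (e n 0) a) *ᵥ d = d + (a ⬝ᵥ d) • e n 0 := by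
  rw [add_mulVec, one_mulVec]
  congr 1
  funext i
  simp only [mulVec, dotProduct, vecMulVec_apply, Pi.smul_apply, smul_eq_mul, Finset.sum_mul]
  refine Finset.sum_congr rfl fun j _ => ?_
  ring

theorem vecMul_A (a c : Fin n → ℝ) : c ᵥ* (1 + vecMulVec (e n 0) a) = c + (c ⬝ᵥ e n 0) • a := by
  rw [vecMul_add, vecMul_one]
  congr 1
  funext i
  simp only [vecMul, dotProduct, vecMulVec_apply, Pi.smul_apply, smul_eq_mul, Finset.sum_mul]
  refine Finset.sum_congr rfl fun j _ => ?_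
  ring

theorem vecMul_B (b c : Fin n → ℝ) : c ᵥ* (1 + vecMulVec b (e n 1)) = c + (c ⬝ᵥ b) • e n 1 := by
  rw [vecMul_add, vecMul_one]
  congr 1
  funext i
  simp only [vecMul, dotProduct, vecMulVec_apply, Pi.smul_apply, smul_eq_mul, Finset.sum_mul]
  refine Finset.sum_congr rfl fun j _ => ?_
  ring

theorem mulVec_B (b d : Fin n → ℝ) : (1 + vecMulVec b (e n 1)) *ᵥ d = d + (e n 1 ⬝ᵥ d) • b := by
  rw [add_mulVec, one_mulVec]
  congr 1
  funext i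
  simp only [mulVec, dotProduct, vecMulVec_apply, Pi.smul_apply, smul_eq_mul, Finset.sum_mul]
  refine Finset.sum_congr rfl fun j _ => ?_
  ring

end Pool.Agent.Hadamard
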