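import Pool.Agent.Lib_MP_c79a71_lc.Defs
import Pool.Agent.Lib_MP_42fe4d_lc.CL.Hard

set_option autoImplicit false

/-!
# Formulas as strings
-/

namespace Pool.Agent.Hadamard

open Pool.Agent.PartSep.TM Pool.Agent.PartSep.CL
open Pool.Agent.PartSep.TM.Rep N487b59b3

set_option synthInstance.maxSize 2000

/-! ### The prefix notation determines the formula -/

theorem poly_tokens_inj (p : PolyExpr) : ∀ (q : PolyExpr) (r s : List (ℕ × ℕ)),
    p.tokens ++ r = q.tokens ++ s → p = q ∧ r = s := by
  induction p with
  | const n =>
    intro q r s h
    cases q <;> simp_all [PolyExpr.tokens]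
  | var i =>
    intro q r s h
    cases q <;> simp_all [PolyExpr.tokens]
  | neg p ih =>
    intro q r s h
    cases q with
    | neg q =>
      simp only [PolyExpr.tokens, List.cons_append, List.cons.injEq, true_and] at h
      obtain ⟨h1, h2⟩ := ih _ _ _ h
      exact ⟨by rw [h1], h2⟩
    | _ => simp [PolyExpr.tokens] at h
  | add p p' ih ih' =>
    intro q r s h
    cases q with
    | add q q' =>
      simp only [PolyExpr.tokens, List.cons_append, List.cons.injEq, true_and,
        List.append_assoc] at h
      obtain ⟨h1, h2⟩ := ih _ _ _ h
      obtain ⟨h3, h4⟩ := ih' _ _ _ h2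
      exact ⟨by rw [h1, h3], h4⟩
    | _ => simp [PolyExpr.tokens] at h
  | mul p p' ih ih' =>
    intro q r s h
    cases q with
    | mul q q' =>
      simp only [PolyExpr.tokens, List.cons_append, List.cons.injEq, true_and,
        List.append_assoc] at h
      obtain ⟨h1, h2⟩ := ih _ _ _ h
      obtain ⟨h3, h4⟩ := ih' _ _ _ h2
      exact ⟨by rw [h1, h3], h4⟩
    | _ => simp [PolyExpr.tokens] at h

theorem formula_tokens_inj (φ : Formula) : ∀ (ψ : Formula) (r s : List (ℕ × ℕ)),
    φ.tokens ++ r = ψ.tokens ++ s → φ = ψ ∧ r = s := by
  induction φ with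
  | eq p p' =>
    intro ψ r s h
    cases ψ with
    | eq q q' =>
      simp only [Formula.tokens, List.cons_append, List.cons.injEq, true_and,
        List.append_assoc] at h
      obtain ⟨h1, h2⟩ := poly_tokens_inj _ _ _ _ h
      obtain ⟨h3, h4⟩ := poly_tokens_inj _ _ _ _ h2
      exact ⟨by rw [h1, h3], h4⟩
    | _ => simp [Formula.tokens] at h
  | lt p p' =>
    intro ψ r s h
    cases ψ with
    | lt q q' =>
      simp only [Formula.tokens, List.cons_append, List.cons.injEq, true_and,
        List.append_assoc] at h
      obtain ⟨h1, h2⟩ := poly_tokens_inj _ _ _ _ h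
      obtain ⟨h3, h4⟩ := poly_tokens_inj _ _ _ _ h2
      exact ⟨by rw [h1, h3], h4⟩
    | _ => simp [Formula.tokens] at h
  | le p p' =>
    intro ψ r s h
    cases ψ with
    | le q q' =>
      simp only [Formula.tokens, List.cons_append, List.cons.injEq, true_and,
        List.append_assoc] at h
      obtain ⟨h1, h2⟩ := poly_tokens_inj _ _ _ _ h
      obtain ⟨h3, h4⟩ := poly_tokens_inj _ _ _ _ h2
      exact ⟨by rw [h1, h3], h4⟩
    | _ => simp [Formula.tokens] at h
  | not φ ih =>
    intro ψ r s h
    cases ψ with
    | not ψ =>
      simp only [Formula.tokens, List.cons_append, List.cons.injEq, true_and] at h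
      obtain ⟨h1, h2⟩ := ih _ _ _ h
      exact ⟨by rw [h1], h2⟩
    | _ => simp [Formula.tokens] at h
  | and φ φ' ih ih' =>
    intro ψ r s h
    cases ψ with
    | and ψ ψ' =>
      simp only [Formula.tokens, List.cons_append, List.cons.injEq, true_and,
        List.append_assoc] at h
      obtain ⟨h1, h2⟩ := ih _ _ _ h
      obtain ⟨h3, h4⟩ := ih' _ _ _ h2
      exact ⟨by rw [h1, h3], h4⟩
    | _ => simp [Formula.tokens] at h
  | or φ φ' ih ih' =>
    intro ψ r s h
    cases ψ with
    | or ψ ψ' =>
      simp only [Formula.tokens, List.cons_append, List.cons.injEq, true_and,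
        List.append_assoc] at h
      obtain ⟨h1, h2⟩ := ih _ _ _ h
      obtain ⟨h3, h4⟩ := ih' _ _ _ h2
      exact ⟨by rw [h1, h3], h4⟩
    | _ => simp [Formula.tokens] at h

/-- A formula is determined by its code. -/
theorem formula_code_inj {φ ψ : Formula} (h : bitEncode φ.tokens = bitEncode ψ.tokens) :
    φ = ψ := by
  have h1 := bitEncode_injective h
  have h2 := formula_tokens_inj φ ψ [] [] (by rw [h1])
  exact h2.1

/-- The decision problem on the code of a formula. -/
theorem etr_code (φ : Formula) :
    ETR (bitEncode φ.tokens) = true ↔ ∃ x : ℕ → ℝ, φ.Holds x := by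
  classical
  unfold ETR
  rw [decide_eq_true_eq]
  constructor
  · rintro ⟨ψ, h1, h2⟩
    rw [formula_code_inj h1]
    exact h2
  · exact fun h => ⟨φ, rfl, h⟩

/-! ### Codes -/

/-- the string of a token -/
def tstr (t : ℕ × ℕ) : List Sym := del (del (natName t.1) ++ natName t.2)

/-- the string of a polynomial -/
def pcode (p : PolyExpr) : List Sym := p.tokens.flatMap tstr

/-- the string of a formula -/
def fcode (φ : Formula) : List Sym := φ.tokens.flatMap tstr

theorem fcode_eq (φ : Formula) : (bitEncode φ.tokens).map bs = fcode φ := by
  rw [bitEncode_list]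
  unfold fcode
  congr 1
  funext t
  unfold tstr
  rw [bitEncode_prod]
  rfl

variable {E F : Type} [Rep E] [Rep F]

theorem fp_pconst {n : E → ℕ} (hn : FP (fun x => natName (n x))) :
    FP (fun x => pcode (.const (n x))) :=
  (FP.del (FP.append (FP.const (del (natName 0))) hn)).congr (fun x => by
    simp [pcode, PolyExpr.tokens, tstr])

theorem fp_pvar {n : E → ℕ} (hn : FP (fun x => natName (n x))) :
    FP (fun x => pcode (.var (n x))) :=
  (FP.del (FP.append (FP.const (del (natName 1))) hn)).congr (fun x => by
    simp [pcode, PolyExpr.tokens, tstr])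

theorem fp_pneg {p : E → PolyExpr} (hp : FP (fun x => pcode (p x))) :
    FP (fun x => pcode (.neg (p x))) :=
  (FP.append (FP.const (tstr (2, 0))) hp).congr (fun x => by
    simp [pcode, PolyExpr.tokens])

theorem fp_padd {p q : E → PolyExpr} (hp : FP (fun x => pcode (p x)))
    (hq : FP (fun x => pcode (q x))) : FP (fun x => pcode (.add (p x) (q x))) :=
  (FP.append (FP.const (tstr (3, 0))) (FP.append hp hq)).congr (fun x => by
    simp [pcode, PolyExpr.tokens])

theorem fp_pmul {p q : E → PolyExpr} (hp : FP (fun x => pcode (p x)))
    (hq : FP (fun x => pcode (q x))) : FP (fun x => pcode (.mul (p x) (q x))) :=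
  (FP.append (FP.const (tstr (4, 0))) (FP.append hp hq)).congr (fun x => by
    simp [pcode, PolyExpr.tokens])

theorem fp_feq {p q : E → PolyExpr} (hp : FP (fun x => pcode (p x)))
    (hq : FP (fun x => pcode (q x))) : FP (fun x => fcode (.eq (p x) (q x))) :=
  (FP.append (FP.const (tstr (5, 0))) (FP.append hp hq)).congr (fun x => by
    simp [pcode, fcode, Formula.tokens])

theorem fp_fand {φ ψ : E → Formula} (hp : FP (fun x => fcode (φ x)))
    (hq : FP (fun x => fcode (ψ x))) : FP (fun x => fcode (.and (φ x) (ψ x))) :=
  (FP.append (FP.const (tstr (9, 0))) (FP.append hp hq)).congr (fun x => by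
    simp [fcode, Formula.tokens])

/-- the sum of a list of polynomials -/
def sumP (l : List PolyExpr) : PolyExpr := l.foldr .add (.const 0)

theorem eval_sumP (x : ℕ → ℝ) (l : List PolyExpr) :
    (sumP l).eval x = (l.map (fun p => p.eval x)).sum := by
  induction l with
  | nil => simp [sumP, PolyExpr.eval]
  | cons p l ih =>
    change p.eval x + (sumP l).eval x = _
    rw [ih, List.map_cons, List.sum_cons]

/-- the conjunction of a list of formulas -/
def andF (l : List Formula) : Formula := l.foldr .and (.eq (.const 0) (.const 0))

theorem holds_andF (x : ℕ → ℝ) (l : List Formula) :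
    (andF l).Holds x ↔ ∀ φ ∈ l, φ.Holds x := by
  induction l with
  | nil => simp [andF, Formula.Holds]
  | cons φ l ih =>
    change φ.Holds x ∧ (andF l).Holds x ↔ _
    rw [ih]
    simp

theorem pcode_sumP {α : Type} (l : List α) (g : α → PolyExpr) :
    pcode (sumP (l.map g)) =
      l.flatMap (fun a => tstr (3, 0) ++ pcode (g a)) ++ pcode (.const 0) := by
  induction l with
  | nil => rfl
  | cons a l ih =>
    have h1 : pcode (sumP ((a :: l).map g)) =
        tstr (3, 0) ++ (pcode (g a) ++ pcode (sumP (l.map g))) := by
      simp [pcode, sumP, PolyExpr.tokens]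
    rw [h1, ih, List.flatMap_cons]
    simp

theorem fcode_andF {α : Type} (l : List α) (g : α → Formula) :
    fcode (andF (l.map g)) =
      l.flatMap (fun a => tstr (9, 0) ++ fcode (g a)) ++ fcode (andF []) := by
  induction l with
  | nil => rfl
  | cons a l ih =>
    have h1 : fcode (andF ((a :: l).map g)) =
        tstr (9, 0) ++ (fcode (g a) ++ fcode (andF (l.map g))) := by
      simp [fcode, andF, Formula.tokens]
    rw [h1, ih, List.flatMap_cons]
    simp

theorem fp_sumP [Inhabited F] {l : E → List F} (hl : FP l) {g : E × F → PolyExpr}
    (hg : FP (fun y => pcode (g y))) :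
    FP (fun x => pcode (sumP ((l x).map (fun a => g (x, a))))) :=
  (FP.append (FP.flatMapS hl (g := fun y => tstr (3, 0) ++ pcode (g y))
    (FP.append (FP.const _) hg)) (FP.const (pcode (.const 0)))).congr (fun x => by
    rw [pcode_sumP])

theorem fp_andF [Inhabited F] {l : E → List F} (hl : FP l) {g : E × F → Formula}
    (hg : FP (fun y => fcode (g y))) :
    FP (fun x => fcode (andF ((l x).map (fun a => g (x, a))))) :=
  (FP.append (FP.flatMapS hl (g := fun y => tstr (9, 0) ++ fcode (g y))
    (FP.append (FP.const _) hg)) (FP.const (fcode (andF [])))).congr (fun x => by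
    rw [fcode_andF])

/-! ### Codes of natural numbers -/

/-- Is the string the code of a natural number? -/
def canon (w : List Sym) : Bool := w.isEmpty || decide (w.reverse.head? = some Sym.i)

theorem fp_canon {w : E → List Sym} (hw : FP w) : FP (fun x => canon (w x)) :=
  FP.or (FP.isEmpty hw) (FP.headIs (FP.reverse hw) _)

theorem encodePosNum_last (n : PosNum) :
    (Computability.encodePosNum n).reverse.head? = some true := by
  induction n with
  | one => rfl
  | bit1 n ih =>
    simp only [Computability.encodePosNum, List.reverse_cons]
    cases h : (Computability.encodePosNum n).reverse with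
    | nil => rw [h] at ih; simp at ih
    | cons a l => rw [h] at ih; simpa using ih
  | bit0 n ih =>
    simp only [Computability.encodePosNum, List.reverse_cons]
    cases h : (Computability.encodePosNum n).reverse with
    | nil => rw [h] at ih; simp at ih
    | cons a l => rw [h] at ih; simpa using ih

theorem canon_natName (n : ℕ) : canon (natName n) = true := by
  unfold natName Computability.encodeNat
  have key : ∀ m : Num, canon ((Computability.encodeNum m).map bs) = true := by
    intro m
    cases m with
    | zero => rfl
    | pos p =>
      have h1 := encodePosNum_last p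
      have h2 : ((Computability.encodePosNum p).map bs).reverse.head? = some Sym.i := by
        rw [← List.map_reverse, List.head?_map, h1]
        rfl
      change (((Computability.encodePosNum p).map bs).isEmpty ||
        decide (((Computability.encodePosNum p).map bs).reverse.head? = some Sym.i)) = true
      rw [decide_eq_true h2, Bool.or_true]
  exact key _

/-- the value of a string of symbols -/
def sval (w : List Sym) : ℕ := w.foldr (fun a n => 2 * n + (if a = Sym.i then 1 else 0)) 0

theorem sval_encodePosNum (n : PosNum) :
    sval ((Computability.encodePosNum n).map bs) = (n : ℕ) := by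
  induction n with
  | one => rfl
  | bit1 n ih =>
    simp only [Computability.encodePosNum, List.map_cons]
    change 2 * sval _ + _ = _
    rw [ih]
    have : (if bs true = Sym.i then 1 else 0) = 1 := rfl
    rw [this, PosNum.cast_bit1]
    ring
  | bit0 n ih =>
    simp only [Computability.encodePosNum, List.map_cons]
    change 2 * sval _ + _ = _
    rw [ih]
    have : (if bs false = Sym.i then 1 else 0) = 0 := rfl
    rw [this, PosNum.cast_bit0]
    ring

theorem sval_natName (n : ℕ) : sval (natName n) = n := by
  unfold natName Computability.encodeNat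
  have key : ∀ m : Num, sval ((Computability.encodeNum m).map bs) = (m : ℕ) := by
    intro m
    cases m with
    | zero => rfl
    | pos p => exact sval_encodePosNum p
  rw [key]
  simp

theorem sval_inj {u v : List Sym} (hu : ∀ a ∈ u, a = Sym.i ∨ a = Sym.o)
    (hv : ∀ a ∈ v, a = Sym.i ∨ a = Sym.o) (hu' : canon u = true) (hv' : canon v = true)
    (h : sval u = sval v) : u = v := by
  have hpos : ∀ w : List Sym, w ≠ [] → canon w = true → 0 < sval w := by
    intro w
    induction w with
    | nil => intro h; exact absurd rfl h
    | cons a w ih =>
      intro _ h2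
      change 0 < 2 * sval w + _
      by_cases hw : w = []
      · subst hw
        simp only [canon, List.isEmpty_cons, List.reverse_cons, List.reverse_nil, List.nil_append,
          List.head?_cons, Option.some.injEq, Bool.false_or, decide_eq_true_eq] at h2
        subst h2
        simp [sval]
      · have : canon w = true := by
          unfold canon at h2 ⊢
          simp only [List.isEmpty_cons, List.reverse_cons, Bool.false_or,
            decide_eq_true_eq] at h2
          cases hr : w.reverse with
          | nil => exact absurd (List.reverse_eq_nil_iff.1 hr) hw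
          | cons b l =>
            rw [hr] at h2
            simp only [List.cons_append, List.head?_cons, Option.some.injEq] at h2
            simp [h2]
        have := ih hw this
        omega
  induction u generalizing v with
  | nil =>
    by_contra hcon
    have := hpos v (fun h => hcon h.symm) hv'
    rw [← h] at this
    simp [sval] at this
  | cons a u ih =>
    cases v with
    | nil =>
      have := hpos (a :: u) (by simp) hu'
      rw [h] at this
      simp [sval] at this
    | cons b v =>
      have h1 : 2 * sval u + (if a = Sym.i then 1 else 0) =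
        2 * sval v + (if b = Sym.i then 1 else 0) := h
      have hab : a = b := by
        rcases hu a (by simp) with rfl | rfl <;> rcases hv b (by simp) with rfl | rfl
        · rfl
        · simp at h1; omega
        · simp at h1; omega
        · rfl
      subst hab
      have h2 : sval u = sval v := by omega
      have htail : ∀ w : List Sym, w ≠ [] → canon (a :: w) = true → canon w = true := by
        intro w hw h2
        unfold canon at h2 ⊢
        simp only [List.isEmpty_cons, List.reverse_cons, Bool.false_or,
          decide_eq_true_eq] at h2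
        cases hr : w.reverse with
        | nil => exact absurd (List.reverse_eq_nil_iff.1 hr) hw
        | cons b l =>
          rw [hr] at h2
          simp only [List.cons_append, List.head?_cons, Option.some.injEq] at h2
          simp [h2]
      have hcu : canon u = true := by
        by_cases hu0 : u = []
        · subst hu0; rfl
        · exact htail u hu0 hu'
      have hcv : canon v = true := by
        by_cases hv0 : v = []
        · subst hv0; rfl
        · exact htail v hv0 hv'
      rw [ih (fun a ha => hu a (by simp [ha])) (fun a ha => hv a (by simp [ha])) hcu hcv h2]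

theorem natName_bits (n : ℕ) : ∀ a ∈ natName n, a = Sym.i ∨ a = Sym.o := by
  intro a ha
  obtain ⟨b, _, rfl⟩ := List.mem_map.1 ha
  cases b
  · exact Or.inr rfl
  · exact Or.inl rfl

/-- Canonical strings are the names of their values. -/
theorem natName_sval {w : List Sym} (hw : ∀ a ∈ w, a = Sym.i ∨ a = Sym.o)
    (hw' : canon w = true) : natName (sval w) = w :=
  sval_inj (natName_bits _) hw (canon_natName _) hw' (sval_natName _)

/-- the name of a power of two -/
theorem natName_two_pow (t : ℕ) : natName (2 ^ t) = List.replicate t Sym.o ++ [Sym.i] := by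
  apply sval_inj (natName_bits _) _ (canon_natName _)
  · simp [canon]
  · rw [sval_natName]
    induction t with
    | zero => rfl
    | succ t ih =>
      rw [List.replicate_succ, List.cons_append]
      have h1 : sval (Sym.o :: (List.replicate t Sym.o ++ [Sym.i])) =
        2 * sval (List.replicate t Sym.o ++ [Sym.i]) + (if Sym.o = Sym.i then 1 else 0) := rfl
      rw [h1, ← ih]
      simp [pow_succ, mul_comm]
  · intro a ha
    rcases List.mem_append.1 ha with h | h
    · exact Or.inr (List.mem_replicate.1 h).2
    · exact Or.inl (List.mem_singleton.1 h)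

/-- strings of variables -/
def vstr (k i j t : ℕ) : List Sym :=
  List.replicate k Sym.i ++ [Sym.o] ++ (List.replicate i Sym.i ++ [Sym.o] ++
    (List.replicate j Sym.i ++ [Sym.o] ++ (List.replicate t Sym.i ++ [Sym.o] ++ [Sym.i])))

/-- indices of variables -/
def vix (k i j t : ℕ) : ℕ := sval (vstr k i j t)

theorem natName_vix (k i j t : ℕ) : natName (vix k i j t) = vstr k i j t := by
  apply natName_sval
  · intro a ha
    simp only [vstr, List.mem_append, List.mem_replicate, List.mem_singleton] at ha
    tauto
  · simp [canon, vstr]

theorem rep_inj (a b : ℕ) (u v : List Sym)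
    (h : List.replicate a Sym.i ++ [Sym.o] ++ u = List.replicate b Sym.i ++ [Sym.o] ++ v) :
    a = b ∧ u = v := by
  induction a generalizing b with
  | zero =>
    cases b with
    | zero => simpa using h
    | succ b => simp [List.replicate_succ] at h
  | succ a ih =>
    cases b with
    | zero => simp [List.replicate_succ] at h
    | succ b =>
      simp only [List.replicate_succ, List.cons_append, List.cons.injEq, true_and] at h
      obtain ⟨h1, h2⟩ := ih b h
      exact ⟨by omega, h2⟩

theorem vix_inj {k i j t k' i' j' t' : ℕ} (h : vix k i j t = vix k' i' j' t') :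
    k = k' ∧ i = i' ∧ j = j' ∧ t = t' := by
  have h1 := congrArg natName h
  rw [natName_vix, natName_vix] at h1
  unfold vstr at h1
  obtain ⟨h2, h3⟩ := rep_inj _ _ _ _ h1
  obtain ⟨h4, h5⟩ := rep_inj _ _ _ _ h3
  obtain ⟨h6, h7⟩ := rep_inj _ _ _ _ h5
  obtain ⟨h8, h9⟩ := rep_inj _ _ _ _ h7
  exact ⟨h2, h4, h6, h8⟩

theorem fp_vix {k i j t : E → ℕ} (hk : FP k) (hi : FP i) (hj : FP j) (ht : FP t) :
    FP (fun x => natName (vix (k x) (i x) (j x) (t x))) :=
  (FP.append (FP.append hk.unary (FP.const [Sym.o])) (FP.append (FP.append hi.unary
    (FP.const [Sym.o])) (FP.append (FP.append hj.unary (FP.const [Sym.o]))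
    (FP.append (FP.append ht.unary (FP.const [Sym.o])) (FP.const [Sym.i]))))).congr
    (fun x => by rw [natName_vix]; rfl)

theorem fp_two_pow {t : E → ℕ} (ht : FP t) : FP (fun x => natName (2 ^ t x)) := by
  refine (FP.append (FP.subst ht.unary (fun _ => [Sym.o])) (FP.const [Sym.i])).congr
    (fun x => ?_)
  rw [natName_two_pow]
  congr 1
  induction t x with
  | zero => rfl
  | succ n ih => rw [List.replicate_succ, List.flatMap_cons, ih, List.replicate_succ]; rfl

end Pool.Agent.Hadamard
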