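import Pool.Agent.Lib_MP_c79a71_lc.MemForm

set_option autoImplicit false

/-!
# Parsing an instance
-/

namespace Pool.Agent.Hadamard

open Pool.Agent.PartSep.TM Pool.Agent.PartSep.CL
open Pool.Agent.PartSep.TM.Rep N487b59b3

set_option synthInstance.maxSize 2000

variable {E F : Type} [Rep E] [Rep F]

/-- one step of reading a self-delimiting block -/
def undelStep (a : Sym) (s : (Bool × Bool) × (List Sym × List Sym)) :
    (Bool × Bool) × (List Sym × List Sym) :=
  if s.1.1 then (s.1, (s.2.1, a :: s.2.2))
  else if s.1.2 then ((false, false), (a :: s.2.1, s.2.2))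
  else if a = Sym.i then ((false, true), s.2) else ((true, false), s.2)

/-- the first block of a string, and the rest of the string -/
def undel (l : List Sym) : List Sym × List Sym :=
  let r := l.foldl (fun s a => undelStep a s) ((false, false), ([], []))
  (r.2.1.reverse, r.2.2.reverse)

theorem undel_del (w r : List Sym) : undel (del w ++ r) = (w, r) := by
  have h1 : ∀ (w u : List Sym), (w.flatMap (fun a => [Sym.i, a])).foldl
      (fun s a => undelStep a s) ((false, false), (u, [])) =
        ((false, false), (w.reverse ++ u, [])) := by
    intro w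
    induction w with
    | nil => intro u; rfl
    | cons a w ih =>
      intro u
      rw [List.flatMap_cons, List.foldl_append]
      have : List.foldl (fun s a => undelStep a s) ((false, false), (u, [])) [Sym.i, a] =
          ((false, false), (a :: u, [])) := by
        simp [undelStep]
      rw [this, ih]
      simp
  have h2 : ∀ (r u v : List Sym), r.foldl (fun s a => undelStep a s) ((true, false), (u, v)) =
      ((true, false), (u, r.reverse ++ v)) := by
    intro r
    induction r with
    | nil => intro u v; rfl
    | cons a r ih =>
      intro u v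
      rw [List.foldl_cons]
      have : undelStep a ((true, false), (u, v)) = ((true, false), (u, a :: v)) := by
        simp [undelStep]
      rw [this, ih]
      simp
  unfold undel del
  rw [List.foldl_append, List.foldl_append, h1]
  have : List.foldl (fun s a => undelStep a s) ((false, false), (w.reverse ++ [], [])) [Sym.o] =
      ((true, false), (w.reverse ++ [], [])) := by
    simp [undelStep]
  rw [this, h2]
  simp

theorem fp_undel {l : E → List Sym} (hl : FP l) : FP (fun x => undel (l x)) := by
  have hs : FP (fun x => (l x).foldl (fun s a => undelStep a s)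
      ((false, false), (([] : List Sym), ([] : List Sym)))) := by
    refine FP.foldl_growth hl (init := fun _ => ((false, false), (([] : List Sym), [])))
      (FP.const _) (step := fun a y => undelStep a y.2) (fun a => ?_) 4 ?_
    · unfold undelStep
      have e1 : FP (fun y : E × ((Bool × Bool) × (List Sym × List Sym)) => y.2.1) :=
        FP.comp FP.fst FP.snd
      have e2 : FP (fun y : E × ((Bool × Bool) × (List Sym × List Sym)) => y.2.2) :=
        FP.comp FP.snd FP.snd
      refine FP.ite (FP.comp FP.fst e1) ?_ (FP.ite (FP.comp FP.snd e1) ?_ ?_)
      · exact FP.pair e1 (FP.pair (FP.comp FP.fst e2) (FP.cons a (FP.comp FP.snd e2)))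
      · exact FP.pair (FP.const _) (FP.pair (FP.cons a (FP.comp FP.fst e2)) (FP.comp FP.snd e2))
      · by_cases h : a = Sym.i
        · simp only [h, if_true]
          exact FP.pair (FP.const _) e2
        · simp only [h, if_false]
          exact FP.pair (FP.const _) e2
    · intro a x s
      obtain ⟨⟨b1, b2⟩, w, r⟩ := s
      have h1 := size_bool true
      have h2 := size_bool false
      simp only [undelStep]
      split_ifs <;> simp only [size_pair, size_list, List.length_cons, Polynomial.eval_ofNat] <;>
        omega
  exact FP.pair (FP.reverse (FP.comp FP.fst (FP.comp FP.snd hs)))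
    (FP.reverse (FP.comp FP.snd (FP.comp FP.snd hs)))

/-- positive part and negative part of the numerator, and denominator -/
abbrev Ent := (Name × Name) × Name

/-- parsed instances -/
abbrev Dat := List (List Ent) × (Name × Name)

def parseEnt (w : List Sym) : Ent := (undel (undel w).1, (undel w).2)

def unparseEnt (e : Ent) : List Sym := del (del e.1.1 ++ e.1.2) ++ e.2

theorem parse_unparseEnt (e : Ent) : parseEnt (unparseEnt e) = e := by
  obtain ⟨⟨a, b⟩, d⟩ := e
  simp only [parseEnt, unparseEnt, undel_del]

def parseDat (s : List Sym) : Dat :=
  ((splitB (undel s).1).map (fun r => (splitB r).map parseEnt), undel (undel s).2)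

def unparseDat (d : Dat) : List Sym :=
  del (d.1.flatMap (fun r => del (r.flatMap (fun e => del (unparseEnt e))))) ++
    (del d.2.1 ++ d.2.2)

theorem parse_unparse (d : Dat) : parseDat (unparseDat d) = d := by
  obtain ⟨rows, k, l⟩ := d
  simp only [parseDat, unparseDat, undel_del]
  refine Prod.ext ?_ rfl
  simp only
  rw [← List.flatMap_map (f := fun r : List Ent => r.flatMap (fun e => del (unparseEnt e)))
    (g := del), splitB_flatMap, List.map_map]
  conv_rhs => rw [← List.map_id rows]
  apply List.map_congr_left
  intro r _
  simp only [Function.comp_apply, id]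
  rw [← List.flatMap_map (f := unparseEnt) (g := del), splitB_flatMap, List.map_map]
  conv_rhs => rw [← List.map_id r]
  apply List.map_congr_left
  intro e _
  exact parse_unparseEnt e

theorem fp_parseEnt {w : E → List Sym} (hw : FP w) : FP (fun x => parseEnt (w x)) := by
  unfold parseEnt
  exact FP.pair (fp_undel (FP.comp FP.fst (fp_undel hw))) (FP.comp FP.snd (fp_undel hw))

theorem fp_parseDat {s : E → List Sym} (hs : FP s) : FP (fun x => parseDat (s x)) := by
  unfold parseDat
  refine FP.pair ?_ (fp_undel (FP.comp FP.snd (fp_undel hs)))
  refine FP.mapE (FP.splitB (FP.comp FP.fst (fp_undel hs)))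
    (g := fun y : E × List Sym => (splitB y.2).map parseEnt) ?_
  exact FP.mapE (FP.splitB FP.snd) (g := fun z : (E × List Sym) × List Sym => parseEnt z.2)
    (fp_parseEnt FP.snd)

theorem fp_unparseEnt {e : E → Ent} (he : FP e) : FP (fun x => unparseEnt (e x)) := by
  unfold unparseEnt
  exact FP.append (FP.del (FP.append (FP.del (FP.comp FP.fst (FP.comp FP.fst he)))
    (FP.comp FP.snd (FP.comp FP.fst he)))) (FP.comp FP.snd he)

theorem fp_unparseDat {d : E → Dat} (hd : FP d) : FP (fun x => unparseDat (d x)) := by
  unfold unparseDat
  refine FP.append (FP.del ?_) (FP.append (FP.del (FP.comp FP.fst (FP.comp FP.snd hd)))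
    (FP.comp FP.snd (FP.comp FP.snd hd)))
  refine FP.flatMapS (FP.comp FP.fst hd) (g := fun y : E × List Ent =>
    del (y.2.flatMap (fun e => del (unparseEnt e)))) (FP.del ?_)
  exact FP.flatMapS FP.snd (g := fun z : (E × List Ent) × Ent => del (unparseEnt z.2))
    (FP.del (fp_unparseEnt FP.snd))

/-- canonical codes of natural numbers, with the right symbols -/
def okN (w : List Sym) : Bool :=
  (w.flatMap (fun a => if a = Sym.i ∨ a = Sym.o then [] else [a])).isEmpty && canon w

theorem fp_okN {w : E → List Sym} (hw : FP w) : FP (fun x => okN (w x)) :=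
  FP.and (FP.isEmpty (FP.subst hw _)) (fp_canon hw)

theorem okN_iff (w : List Sym) :
    okN w = true ↔ (∀ a ∈ w, a = Sym.i ∨ a = Sym.o) ∧ canon w = true := by
  unfold okN
  rw [Bool.and_eq_true, List.isEmpty_iff, List.flatMap_eq_nil_iff]
  refine and_congr_left (fun _ => forall₂_congr (fun a _ => ?_))
  split_ifs with h
  · simp [h]
  · simp [h]

theorem okN_natName (n : ℕ) : okN (natName n) = true :=
  (okN_iff _).2 ⟨natName_bits n, canon_natName n⟩

/-- the value of a string that should be the code of a natural number -/
def nval (w : List Sym) : ℕ := if okN w then sval w else 0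

theorem natName_nval (w : List Sym) : natName (nval w) = if okN w then w else [] := by
  unfold nval
  split_ifs with h
  · exact natName_sval ((okN_iff w).1 h).1 ((okN_iff w).1 h).2
  · rfl

theorem natName_nval' {w : List Sym} (h : okN w = true) : natName (nval w) = w := by
  rw [natName_nval, if_pos h]

theorem nval_natName (n : ℕ) : nval (natName n) = n := by
  unfold nval
  rw [if_pos (okN_natName n), sval_natName]

theorem fp_nval {w : E → List Sym} (hw : FP w) : FP (fun x => natName (nval (w x))) :=
  (FP.ite (fp_okN hw) hw (FP.const [])).congr (fun x => (natName_nval (w x)).symm)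

theorem sval_lt (w : List Sym) : sval w < 2 ^ w.length := by
  induction w with
  | nil => simp [sval]
  | cons a w ih =>
    change 2 * sval w + _ < _
    rw [List.length_cons, pow_succ]
    split_ifs <;> omega

theorem nval_lt (w : List Sym) : nval w < 2 ^ w.length := by
  unfold nval
  split_ifs
  · exact sval_lt w
  · positivity

/-- the value of a binary string, at most `cap` -/
def capval (cap : ℕ) (w : List Sym) : ℕ :=
  w.reverse.foldl (fun v a => min cap (2 * v + (if a = Sym.i then 1 else 0))) 0

theorem capval_eq (cap : ℕ) (w : List Sym) : capval cap w = min cap (sval w) := by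
  unfold capval sval
  rw [List.foldl_reverse]
  induction w with
  | nil => simp
  | cons a w ih =>
    rw [List.foldr_cons, List.foldr_cons, ih]
    generalize (if a = Sym.i then 1 else 0) = b
    generalize List.foldr (fun a n => 2 * n + if a = Sym.i then 1 else 0) 0 w = v
    omega

theorem FP.min {f g : E → ℕ} (hf : FP f) (hg : FP g) : FP (fun x => min (f x) (g x)) :=
  (FP.ite (FP.natLe hf hg) hf hg).congr (fun x => by
    by_cases h : f x ≤ g x
    · simp [h]
    · simp only [h, decide_false]
      have : g x ≤ f x := by omega
      simp [this])

theorem fp_capval {n : E → ℕ} (hn : FP n) {w : E → List Sym} (hw : FP w) :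
    FP (fun x => capval (n x) (w x)) := by
  obtain ⟨q, hq⟩ := hn.size_le
  unfold capval
  refine FP.foldl_growth (FP.reverse hw) (init := fun _ => (0 : ℕ)) (FP.const _)
    (step := fun a y => Min.min (n y.1) (2 * y.2 + (if a = Sym.i then 1 else 0)))
    (fun a => ?_) q ?_
  · exact FP.min (FP.comp hn FP.fst) (FP.add (FP.mul (FP.const 2) FP.snd) (FP.const _))
  · intro a x s
    have := hq x
    simp only [size_nat] at this ⊢
    omega

end Pool.Agent.Hadamard
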