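import Mathlib

set_option autoImplicit false

/-!
# Rank factorisation
-/

namespace Pool.Agent.Hadamard

open Matrix

/-- A matrix has rank `k` if and only if it factors through `ℝ^k` with a left invertible and a
right invertible factor. -/
theorem rank_eq_iff {m n : ℕ} (A : Matrix (Fin m) (Fin n) ℝ) (k : ℕ) :
    A.rank = k ↔ ∃ (U : Matrix (Fin m) (Fin k) ℝ) (V : Matrix (Fin k) (Fin n) ℝ)
      (L : Matrix (Fin k) (Fin m) ℝ) (R : Matrix (Fin n) (Fin k) ℝ),
      A = U * V ∧ L * U = 1 ∧ V * R = 1 := by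
  constructor
  · rintro rfl
    let f := A.mulVecLin
    have hr : Module.finrank ℝ (LinearMap.range f) = Module.finrank ℝ (Fin A.rank → ℝ) := by
      rw [Module.finrank_fin_fun]
      rfl
    let e : LinearMap.range f ≃ₗ[ℝ] (Fin A.rank → ℝ) := LinearEquiv.ofFinrankEq _ _ hr
    let u : (Fin A.rank → ℝ) →ₗ[ℝ] (Fin m → ℝ) := (LinearMap.range f).subtype ∘ₗ e.symm.toLinearMap
    let v : (Fin n → ℝ) →ₗ[ℝ] (Fin A.rank → ℝ) := e.toLinearMap ∘ₗ f.rangeRestrict
    have hu : LinearMap.ker u = ⊥ := by
      rw [LinearMap.ker_eq_bot]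
      intro a b hab
      have h1 : (e.symm a : Fin m → ℝ) = (e.symm b : Fin m → ℝ) := hab
      exact e.symm.injective (Subtype.ext h1)
    have hv : LinearMap.range v = ⊤ := by
      rw [LinearMap.range_eq_top]
      intro y
      obtain ⟨x, hx⟩ := f.surjective_rangeRestrict (e.symm y)
      refine ⟨x, ?_⟩
      change e (f.rangeRestrict x) = y
      rw [hx, LinearEquiv.apply_symm_apply]
    have huv : u ∘ₗ v = f := by
      apply LinearMap.ext
      intro x
      change ((e.symm (e (f.rangeRestrict x)) : LinearMap.range f) : Fin m → ℝ) = f x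
      rw [LinearEquiv.symm_apply_apply]
      rfl
    obtain ⟨l, hl⟩ := LinearMap.exists_leftInverse_of_injective u hu
    obtain ⟨r, hr⟩ := LinearMap.exists_rightInverse_of_surjective v hv
    refine ⟨LinearMap.toMatrix' u, LinearMap.toMatrix' v, LinearMap.toMatrix' l,
      LinearMap.toMatrix' r, ?_, ?_, ?_⟩
    · rw [← LinearMap.toMatrix'_comp, huv]
      exact (LinearMap.toMatrix'_toLin' A).symm
    · rw [← LinearMap.toMatrix'_comp, hl, LinearMap.toMatrix'_id]
    · rw [← LinearMap.toMatrix'_comp, hr, LinearMap.toMatrix'_id]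
  · rintro ⟨U, V, L, R, rfl, h1, h2⟩
    apply le_antisymm
    · refine (Matrix.rank_mul_le_left U V).trans ?_
      exact (Matrix.rank_le_card_width U).trans (by simp)
    · have h3 : L * (U * V) * R = 1 := by
        rw [← Matrix.mul_assoc, h1, Matrix.one_mul, h2]
      have h4 : (1 : Matrix (Fin k) (Fin k) ℝ).rank = k := by
        rw [Matrix.rank_one]; simp
      calc k = (L * (U * V) * R).rank := by rw [h3, h4]
        _ ≤ (L * (U * V)).rank := Matrix.rank_mul_le_left _ _
        _ ≤ (U * V).rank := Matrix.rank_mul_le_right _ _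

end Pool.Agent.Hadamard
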