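import Pool.Agent.Lib_MP_c79a71_lc.MemParse
import Pool.Agent.Lib_MP_c79a71_lc.MemRank

set_option autoImplicit false

/-!
# The formula of an instance
-/

namespace Pool.Agent.Hadamard

open Pool.Agent.PartSep.TM Pool.Agent.PartSep.CL
open Pool.Agent.PartSep.TM.Rep N487b59b3

set_option synthInstance.maxSize 2000

/-- the entry of the parsed matrix -/
def entD (d : Dat) (i j : ℕ) : Ent := (d.1[i]?.getD [])[j]?.getD (([], []), [])

/-- the number of columns -/
def ncols (d : Dat) : ℕ := (d.1[0]?.getD []).length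

/-- the number with the binary digits `x (K, i, j, t)`, `t < T` -/
def numP (K i j T : ℕ) : PolyExpr :=
  sumP ((List.range T).map (fun t => .mul (.const (2 ^ t)) (.var (vix K i j t))))

/-- the variables are `0` or `1` -/
def bitsF (K i j T : ℕ) : Formula :=
  andF ((List.range T).map (fun t =>
    .eq (.mul (.var (vix K i j t)) (.var (vix K i j t))) (.var (vix K i j t))))

/-- a bound for the number of digits -/
def lenE (e : Ent) : ℕ := e.1.1.length + e.1.2.length + e.2.length

/-- numerator and denominator are coprime -/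
def copF (i j : ℕ) (e : Ent) : Formula :=
  .and (.and (bitsF 8 i j (lenE e)) (bitsF 9 i j (lenE e)))
    (.eq (.mul (numP 9 i j (lenE e)) (.const (nval e.2)))
      (.add (.const 1) (.mul (numP 8 i j (lenE e))
        (.add (.const (nval e.1.1)) (.const (nval e.1.2))))))

/-- the product of the `k × m` matrix `K` and the `m × k` matrix `K'` is the identity -/
def idF (K K' k m : ℕ) : Formula :=
  andF ((List.range k).map (fun a => andF ((List.range k).map (fun b =>
    .eq (sumP ((List.range m).map (fun i => .mul (.var (vix K a i 0)) (.var (vix K' i b 0)))))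
      (.const (if decide (a = b) then 1 else 0))))))

/-- an entry of a product of matrices -/
def prodP (K K' k i j : ℕ) : PolyExpr :=
  sumP ((List.range k).map (fun a => .mul (.var (vix K i a 0)) (.var (vix K' a j 0))))

/-- the equation of an entry -/
def entF (k l i j : ℕ) (e : Ent) : Formula :=
  .eq (.add (.mul (.const (nval e.2)) (.mul (prodP 0 1 k i j) (prodP 4 5 l i j)))
    (.const (nval e.1.2))) (.const (nval e.1.1))

/-- the part of the formula of the matrix -/
def matF (k l m n : ℕ) (d : Dat) : Formula :=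
  andF ((List.range m).map (fun i => andF ((List.range n).map (fun j =>
    .and (copF i j (entD d i j)) (entF k l i j (entD d i j))))))

/-- the formula -/
def formF (k l m n : ℕ) (d : Dat) : Formula :=
  .and (matF k l m n d)
    (.and (.and (idF 2 0 k m) (idF 1 3 k n)) (.and (idF 6 4 l m) (idF 5 7 l n)))

/-- the formula of an instance -/
def instF (d : Dat) : Formula :=
  formF (capval (d.1.length + 1) d.2.1) (capval (d.1.length + 1) d.2.2) d.1.length (ncols d) d

theorem sum_range_list (f : ℕ → ℝ) (m : ℕ) : ((List.range m).map f).sum = ∑ i : Fin m, f i := by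
  induction m with
  | zero => simp
  | succ m ih => rw [List.range_succ, List.map_append, List.sum_append, ih, Fin.sum_univ_castSucc]
                 simp

theorem sum_range_list' (f : ℕ → ℝ) (m : ℕ) :
    ((List.range m).map f).sum = ∑ i ∈ Finset.range m, f i := by
  rw [sum_range_list, Finset.sum_range]

/-- the matrix of variables -/
def matX (x : ℕ → ℝ) (K p q : ℕ) : Matrix (Fin p) (Fin q) ℝ := fun a b => x (vix K a b 0)

theorem holds_idF (x : ℕ → ℝ) (K K' k m : ℕ) :
    (idF K K' k m).Holds x ↔ matX x K k m * matX x K' m k = 1 := by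
  unfold idF
  rw [holds_andF]
  have h1 : ∀ a b : ℕ, (Formula.eq (sumP ((List.range m).map
      (fun i => .mul (.var (vix K a i 0)) (.var (vix K' i b 0)))))
      (.const (if decide (a = b) then 1 else 0))).Holds x ↔
      ∑ i : Fin m, x (vix K a i 0) * x (vix K' i b 0) = if a = b then 1 else 0 := by
    intro a b
    simp only [Formula.Holds, eval_sumP, List.map_map, PolyExpr.eval]
    have : ((fun p : PolyExpr => p.eval x) ∘ fun i : ℕ =>
        ((PolyExpr.var (vix K a i 0)).mul (.var (vix K' i b 0)))) =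
        fun i => x (vix K a i 0) * x (vix K' i b 0) := rfl
    rw [this, sum_range_list]
    by_cases hab : a = b <;> simp [hab]
  constructor
  · intro h
    ext a b
    have h2 := h _ (List.mem_map.2 ⟨a.val, List.mem_range.2 a.2, rfl⟩)
    rw [holds_andF] at h2
    have h3 := h2 _ (List.mem_map.2 ⟨b.val, List.mem_range.2 b.2, rfl⟩)
    rw [h1] at h3
    rw [Matrix.mul_apply, Matrix.one_apply]
    simp only [matX, h3, Fin.ext_iff]
  · intro h φ hφ
    obtain ⟨a, ha, rfl⟩ := List.mem_map.1 hφ
    rw [holds_andF]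
    intro ψ hψ
    obtain ⟨b, hb, rfl⟩ := List.mem_map.1 hψ
    rw [h1]
    have h2 := congrFun (congrFun h ⟨a, List.mem_range.1 ha⟩) ⟨b, List.mem_range.1 hb⟩
    rw [Matrix.mul_apply, Matrix.one_apply] at h2
    simpa only [matX, Fin.mk.injEq] using h2

theorem eval_prodP (x : ℕ → ℝ) (K K' k : ℕ) {m n : ℕ} (i : Fin m) (j : Fin n) :
    (prodP K K' k i j).eval x = (matX x K m k * matX x K' k n) i j := by
  unfold prodP
  rw [eval_sumP, List.map_map, Matrix.mul_apply]
  exact sum_range_list _ _

/-! ### Coprimality -/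

theorem bits_nat (y : ℕ → ℝ) (T : ℕ) (h : ∀ t < T, y t * y t = y t) :
    ∃ a : ℕ, ∑ t ∈ Finset.range T, 2 ^ t * y t = a := by
  induction T with
  | zero => exact ⟨0, by simp⟩
  | succ T ih =>
    obtain ⟨a, ha⟩ := ih (fun t ht => h t (by omega))
    have h1 := h T (by omega)
    have h2 : y T = 0 ∨ y T = 1 := by
      have : y T * (y T - 1) = 0 := by linarith
      rcases mul_eq_zero.1 this with h3 | h3
      · exact Or.inl h3
      · exact Or.inr (by linarith)
    rcases h2 with h2 | h2
    · exact ⟨a, by rw [Finset.sum_range_succ, ha, h2]; simp⟩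
    · exact ⟨a + 2 ^ T, by rw [Finset.sum_range_succ, ha, h2]; push_cast; ring⟩

theorem sum_bits (a T : ℕ) :
    ∑ t ∈ Finset.range T, 2 ^ t * (a / 2 ^ t % 2) = a % 2 ^ T := by
  induction T with
  | zero => simp [Nat.mod_one]
  | succ T ih => rw [Finset.sum_range_succ, ih, Nat.mod_pow_succ]

theorem bezout {N D T : ℕ} (h : Nat.Coprime N D) (hD : 0 < D) (hN' : N < 2 ^ T)
    (hD' : D < 2 ^ T) : ∃ a b : ℕ, a < 2 ^ T ∧ b < 2 ^ T ∧ b * D = 1 + a * N := by
  rcases Nat.lt_or_ge 1 N with hN | hN
  · obtain ⟨m, hm⟩ := Nat.exists_mul_mod_eq_one_of_coprime h.symm hN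
    refine ⟨(m % N) * D / N, m % N, ?_, ?_, ?_⟩
    · have h1 : (m % N) * D / N < D := by
        rw [Nat.div_lt_iff_lt_mul (by omega), mul_comm D]
        exact Nat.mul_lt_mul_of_pos_right (Nat.mod_lt _ (by omega)) hD
      omega
    · have := Nat.mod_lt m (show 0 < N by omega)
      omega
    · have h1 : ((m % N) * D) % N = 1 := by
        rw [mul_comm, Nat.mul_mod, Nat.mod_mod, ← Nat.mul_mod]
        first | exact hm | exact hm.1 | exact hm.2
      have h2 := Nat.div_add_mod ((m % N) * D) N
      rw [h1] at h2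
      rw [← h2]
      have h3 : (m % N * D / N) * N = N * (m % N * D / N) := mul_comm _ _
      have h4 : N * ((N * (m % N * D / N) + 1) / N) = N * (m % N * D / N) := by
        rw [h2]
      rw [h2]
      omega
  · interval_cases N
    · have h1 : D = 1 := by simpa using h
      subst h1
      exact ⟨0, 1, by omega, hD', by norm_num⟩
    · exact ⟨D - 1, 1, by omega, by omega, by omega⟩

theorem holds_bitsF (x : ℕ → ℝ) (K i j T : ℕ) : (bitsF K i j T).Holds x ↔
    ∀ t < T, x (vix K i j t) * x (vix K i j t) = x (vix K i j t) := by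
  unfold bitsF
  rw [holds_andF]
  constructor
  · intro h t ht
    exact h _ (List.mem_map.2 ⟨t, List.mem_range.2 ht, rfl⟩)
  · intro h φ hφ
    obtain ⟨t, ht, rfl⟩ := List.mem_map.1 hφ
    exact h t (List.mem_range.1 ht)

theorem eval_numP (x : ℕ → ℝ) (K i j T : ℕ) :
    (numP K i j T).eval x = ∑ t ∈ Finset.range T, 2 ^ t * x (vix K i j t) := by
  unfold numP
  rw [eval_sumP, List.map_map, ← sum_range_list']
  congr 1
  apply List.map_congr_left
  intro t _
  simp [PolyExpr.eval]

theorem holds_copF (x : ℕ → ℝ) (i j : ℕ) (e : Ent) : (copF i j e).Holds x ↔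
    ((∀ t < lenE e, x (vix 8 i j t) * x (vix 8 i j t) = x (vix 8 i j t)) ∧
      (∀ t < lenE e, x (vix 9 i j t) * x (vix 9 i j t) = x (vix 9 i j t))) ∧
    (∑ t ∈ Finset.range (lenE e), 2 ^ t * x (vix 9 i j t)) * nval e.2 =
      1 + (∑ t ∈ Finset.range (lenE e), 2 ^ t * x (vix 8 i j t)) *
        (nval e.1.1 + nval e.1.2) := by
  unfold copF
  simp only [Formula.Holds, holds_bitsF, PolyExpr.eval, eval_numP, Nat.cast_one]

theorem coprime_of_holds {x : ℕ → ℝ} {i j : ℕ} {e : Ent} (h : (copF i j e).Holds x) :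
    Nat.Coprime (nval e.1.1 + nval e.1.2) (nval e.2) := by
  rw [holds_copF] at h
  obtain ⟨⟨h1, h2⟩, h3⟩ := h
  obtain ⟨a, ha⟩ := bits_nat _ _ h1
  obtain ⟨b, hb⟩ := bits_nat _ _ h2
  rw [ha, hb] at h3
  have h4 : b * nval e.2 = 1 + a * (nval e.1.1 + nval e.1.2) := by exact_mod_cast h3
  have h5 : Nat.gcd (nval e.1.1 + nval e.1.2) (nval e.2) ∣ 1 := by
    have h6 : Nat.gcd (nval e.1.1 + nval e.1.2) (nval e.2) ∣ b * nval e.2 :=
      Dvd.dvd.mul_left (Nat.gcd_dvd_right _ _) _
    have h7 : Nat.gcd (nval e.1.1 + nval e.1.2) (nval e.2) ∣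
        a * (nval e.1.1 + nval e.1.2) := Dvd.dvd.mul_left (Nat.gcd_dvd_left _ _) _
    rw [h4] at h6
    exact (Nat.dvd_add_left h7).1 h6
  exact Nat.dvd_one.1 h5

/-- Every assignment of values to the names of the variables is possible. -/
theorem exists_x (g : ℕ → ℕ → ℕ → ℕ → ℝ) :
    ∃ x : ℕ → ℝ, ∀ k i j t, x (vix k i j t) = g k i j t := by
  classical
  refine ⟨fun n => if h : ∃ q : ℕ × ℕ × ℕ × ℕ, vix q.1 q.2.1 q.2.2.1 q.2.2.2 = n then
    g h.choose.1 h.choose.2.1 h.choose.2.2.1 h.choose.2.2.2 else 0, fun k i j t => ?_⟩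
  have hex : ∃ q : ℕ × ℕ × ℕ × ℕ, vix q.1 q.2.1 q.2.2.1 q.2.2.2 = vix k i j t :=
    ⟨(k, i, j, t), rfl⟩
  simp only [dif_pos hex]
  obtain ⟨h1, h2, h3, h4⟩ := vix_inj hex.choose_spec
  rw [h1, h2, h3, h4]

/-- the extension of a matrix by zero -/
def extM {p q : ℕ} (A : Matrix (Fin p) (Fin q) ℝ) (i j : ℕ) : ℝ :=
  if h : i < p ∧ j < q then A ⟨i, h.1⟩ ⟨j, h.2⟩ else 0

theorem extM_apply {p q : ℕ} (A : Matrix (Fin p) (Fin q) ℝ) (i : Fin p) (j : Fin q) :
    extM A i j = A i j := by
  unfold extM
  rw [dif_pos ⟨i.2, j.2⟩]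

/-- the rational number of an entry -/
def entQ (e : Ent) : ℚ := (((nval e.1.1 : ℤ) - (nval e.1.2 : ℤ) : ℤ) : ℚ) / ((nval e.2 : ℤ) : ℚ)

/-- the parsed matrix -/
def matD (m n : ℕ) (d : Dat) : Matrix (Fin m) (Fin n) ℚ := fun i j => entQ (entD d i j)

theorem holds_entF {x : ℕ → ℝ} {k l m n : ℕ} {i : Fin m} {j : Fin n} {e : Ent}
    (he : 0 < nval e.2) : (entF k l i j e).Holds x ↔
      ((entQ e : ℚ) : ℝ) = (matX x 0 m k * matX x 1 k n) i j *
        (matX x 4 m l * matX x 5 l n) i j := by
  unfold entF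
  simp only [Formula.Holds, PolyExpr.eval, eval_prodP]
  have h1 : (0 : ℝ) < nval e.2 := by exact_mod_cast he
  unfold entQ
  push_cast
  rw [div_eq_iff h1.ne']
  constructor
  · intro h; linarith
  · intro h; linarith

/-- The semantics of the formula. -/
theorem holds_formF {m n : ℕ} {d : Dat} (k l : ℕ)
    (hd : ∀ i < m, ∀ j < n, 0 < nval (entD d i j).2) :
    (∃ x, (formF k l m n d).Holds x) ↔
      (∀ i < m, ∀ j < n, Nat.Coprime (nval (entD d i j).1.1 + nval (entD d i j).1.2)
        (nval (entD d i j).2)) ∧ HasHadamardDecomposition (matD m n d) k l := by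
  constructor
  · rintro ⟨x, hx⟩
    obtain ⟨h1, ⟨h2, h3⟩, h4, h5⟩ := hx
    rw [holds_idF] at h2 h3 h4 h5
    unfold matF at h1
    rw [holds_andF] at h1
    have h6 : ∀ i < m, ∀ j < n, (copF i j (entD d i j)).Holds x ∧
        (entF k l i j (entD d i j)).Holds x := by
      intro i hi j hj
      have h7 := h1 _ (List.mem_map.2 ⟨i, List.mem_range.2 hi, rfl⟩)
      rw [holds_andF] at h7
      exact h7 _ (List.mem_map.2 ⟨j, List.mem_range.2 hj, rfl⟩)
    refine ⟨fun i hi j hj => coprime_of_holds (h6 i hi j hj).1, ?_⟩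
    refine ⟨matX x 0 m k * matX x 1 k n, matX x 4 m l * matX x 5 l n, ?_, ?_, fun i j => ?_⟩
    · exact (rank_eq_iff _ _).2 ⟨_, _, _, _, rfl, h2, h3⟩
    · exact (rank_eq_iff _ _).2 ⟨_, _, _, _, rfl, h4, h5⟩
    · exact (holds_entF (hd i i.2 j j.2)).1 (h6 i i.2 j j.2).2
  · rintro ⟨hcop, M₁, M₂, hr1, hr2, hM⟩
    obtain ⟨U, V, L, R, hUV, hLU, hVR⟩ := (rank_eq_iff _ _).1 hr1
    obtain ⟨U', V', L', R', hUV', hLU', hVR'⟩ := (rank_eq_iff _ _).1 hr2
    have hbez : ∀ i j : ℕ, ∃ ab : ℕ × ℕ, i < m → j < n → ab.1 < 2 ^ lenE (entD d i j) ∧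
        ab.2 < 2 ^ lenE (entD d i j) ∧ ab.2 * nval (entD d i j).2 = 1 + ab.1 *
          (nval (entD d i j).1.1 + nval (entD d i j).1.2) := by
      intro i j
      by_cases hi : i < m
      · by_cases hj : j < n
        · have hb := bezout (T := lenE (entD d i j)) (hcop i hi j hj) (hd i hi j hj) ?_ ?_
          · obtain ⟨a, b, hab⟩ := hb
            exact ⟨(a, b), fun _ _ => hab⟩
          · have e1 := nval_lt (entD d i j).1.1
            have e2 := nval_lt (entD d i j).1.2
            have e3 : 2 ^ lenE (entD d i j) = 2 ^ (entD d i j).1.1.length *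
                2 ^ (entD d i j).1.2.length * 2 ^ (entD d i j).2.length := by
              unfold lenE; rw [pow_add, pow_add]
            have e4 : 2 ≤ 2 ^ (entD d i j).2.length := by
              have := nval_lt (entD d i j).2
              have := hd i hi j hj
              omega
            rw [e3]
            generalize 2 ^ (entD d i j).1.1.length = A at *
            generalize 2 ^ (entD d i j).1.2.length = B at *
            generalize 2 ^ (entD d i j).2.length = C at *
            nlinarith [Nat.mul_le_mul (Nat.le_refl (A * B)) e4,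
              Nat.mul_le_mul e1 e2]
          · refine (nval_lt (entD d i j).2).trans_le ?_
            exact Nat.pow_le_pow_right (by norm_num) (by unfold lenE; omega)
        · exact ⟨(0, 0), fun _ h => absurd h hj⟩
      · exact ⟨(0, 0), fun h _ => absurd h hi⟩
    choose ab hab using hbez
    obtain ⟨x, hx⟩ := exists_x (fun K i j t => match K with
      | 0 => extM U i j
      | 1 => extM V i j
      | 2 => extM L i j
      | 3 => extM R i j
      | 4 => extM U' i j
      | 5 => extM V' i j
      | 6 => extM L' i j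
      | 7 => extM R' i j
      | 8 => (((ab i j).1 / 2 ^ t % 2 : ℕ) : ℝ)
      | 9 => (((ab i j).2 / 2 ^ t % 2 : ℕ) : ℝ)
      | _ => 0)
    have hm0 : matX x 0 m k = U := by
      ext i j; unfold matX; rw [hx]; exact extM_apply _ _ _
    have hm1 : matX x 1 k n = V := by
      ext i j; unfold matX; rw [hx]; exact extM_apply _ _ _
    have hm2 : matX x 2 k m = L := by
      ext i j; unfold matX; rw [hx]; exact extM_apply _ _ _
    have hm3 : matX x 3 n k = R := by
      ext i j; unfold matX; rw [hx]; exact extM_apply _ _ _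
    have hm4 : matX x 4 m l = U' := by
      ext i j; unfold matX; rw [hx]; exact extM_apply _ _ _
    have hm5 : matX x 5 l n = V' := by
      ext i j; unfold matX; rw [hx]; exact extM_apply _ _ _
    have hm6 : matX x 6 l m = L' := by
      ext i j; unfold matX; rw [hx]; exact extM_apply _ _ _
    have hm7 : matX x 7 n l = R' := by
      ext i j; unfold matX; rw [hx]; exact extM_apply _ _ _
    refine ⟨x, ?_, ⟨?_, ?_⟩, ?_, ?_⟩
    · unfold matF
      rw [holds_andF]
      intro φ hφ
      obtain ⟨i, hi, rfl⟩ := List.mem_map.1 hφ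
      rw [holds_andF]
      intro ψ hψ
      obtain ⟨j, hj, rfl⟩ := List.mem_map.1 hψ
      rw [List.mem_range] at hi hj
      constructor
      · obtain ⟨g1, g2, g3⟩ := hab i j hi hj
        rw [holds_copF]
        have hbit : ∀ c t : ℕ, ((c / 2 ^ t % 2 : ℕ) : ℝ) * ((c / 2 ^ t % 2 : ℕ) : ℝ) =
            ((c / 2 ^ t % 2 : ℕ) : ℝ) := by
          intro c t
          rcases Nat.mod_two_eq_zero_or_one (c / 2 ^ t) with h | h <;> simp [h]
        have hsum : ∀ c : ℕ, c < 2 ^ lenE (entD d i j) →
            ∑ t ∈ Finset.range (lenE (entD d i j)), (2 : ℝ) ^ t * ((c / 2 ^ t % 2 : ℕ) : ℝ) =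
              (c : ℝ) := by
          intro c hc
          have := sum_bits c (lenE (entD d i j))
          rw [Nat.mod_eq_of_lt hc] at this
          exact_mod_cast this
        refine ⟨⟨fun t _ => ?_, fun t _ => ?_⟩, ?_⟩
        · simp only [hx]; exact hbit _ _
        · simp only [hx]; exact hbit _ _
        · simp only [hx]
          rw [hsum _ g1, hsum _ g2]
          exact_mod_cast g3
      · have h1 := (holds_entF (x := x) (k := k) (l := l) (i := (⟨i, hi⟩ : Fin m))
          (j := (⟨j, hj⟩ : Fin n)) (hd i hi j hj)).2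
        refine h1 ?_
        rw [hm0, hm1, hm4, hm5, ← hUV, ← hUV', ← hM]
        rfl
    · rw [holds_idF, hm2, hm0, hLU]
    · rw [holds_idF, hm1, hm3, hVR]
    · rw [holds_idF, hm6, hm4, hLU']
    · rw [holds_idF, hm5, hm7, hVR']

end Pool.Agent.Hadamard
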