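import Pool.Agent.Lib_MP_c79a71_lc.Extract

set_option autoImplicit false
set_option linter.unusedSectionVars false
set_option linter.unusedSimpArgs false
set_option linter.unusedVariables false

/-!
From frames to a solution of the system, continued.
-/

namespace Pool.Agent.Hadamard

open Matrix

variable {n : ℕ} {k : ℕ} {R : List SV} {C : List (SV × ℕ)} {F : ℕ → Matrix (Fin n) (Fin n) ℝ}

/-- the frame `x` is in relation B with the frame `0`, with vector `b` -/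
def IsB (F : ℕ → Matrix (Fin n) (Fin n) ℝ) (x : ℕ) (b : Fin n → ℝ) : Prop :=
  (∀ i : Fin n, (i : ℕ) < 2 → b i = 0) ∧
    ∃ μ : ℝ, μ ≠ 0 ∧ F x * (F 0)⁻¹ = μ • (1 + vecMulVec b (e n 1))

theorem isB_zero (h : IsUnit (F 0)) : IsB F 0 0 := by
  refine ⟨fun _ _ => rfl, 1, one_ne_zero, ?_⟩
  rw [mul_nonsing_inv _ ((isUnit_iff_isUnit_det _).1 h), one_smul]
  have : vecMulVec (0 : Fin n → ℝ) (e n 1) = 0 := by
    ext i j
    simp [vecMulVec_apply]
  rw [this, add_zero]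

theorem common_row {FX FY F0 : Matrix (Fin n) (Fin n) ℝ} (hX : IsUnit FX) (hY : IsUnit FY)
    (h0 : IsUnit F0)
    {c c' u : Fin n → ℝ} {s s' : ℝ} (h : c ᵥ* FX = s • u) (h' : c' ᵥ* FY = s' • u)
    (hc : c ≠ 0) (hc' : c' ≠ 0) :
    ∃ μ : ℝ, μ ≠ 0 ∧ c ᵥ* (FX * F0⁻¹) = μ • (c' ᵥ* (FY * F0⁻¹)) := by
  obtain ⟨μ, hμ, h1⟩ := par_of_common h h' (vecMul_ne_zero hX hc) (vecMul_ne_zero hY hc')
  refine ⟨μ, hμ, ?_⟩
  rw [← vecMul_vecMul, h1, smul_vecMul, vecMul_vecMul]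

/-- the rows `rowsG` -/
theorem Good.rowG (G : Good k n R C F) (hk : 0 < k) {x x' p : ℕ} {b b' : Fin n → ℝ} {f : Bool}
    (hρ : two x ((2 + p, true) :: (if f then [(1, true)] else [])) x' [(2 + p, true)] ∈ R)
    (hxx : x ≠ x') (hx : x < k) (hx' : x' < k) (hp : 2 + p < n) (hb : IsB F x b)
    (hb' : IsB F x' b') : b ⟨2 + p, hp⟩ = b' ⟨2 + p, hp⟩ - (if f then 1 else 0) := by
  obtain ⟨b0, μ, hμ, hE⟩ := hb
  obtain ⟨b0', μ', hμ', hE'⟩ := hb'
  obtain ⟨u, s, hs⟩ := G.row _ hρ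
  have e1 := hs x hx
  have e2 := hs x' hx'
  rw [rv_two_left _ _ hxx] at e1
  rw [rv_two_right _ _ hxx] at e2
  set c := lv n ((2 + p, true) :: (if f then [(1, true)] else [])) with hcdef
  set c' := lv n [(2 + p, true)] with hcdef'
  have hcv : c = e n (2 + p) + (if f then (1 : ℝ) else 0) • e n 1 := by
    rw [hcdef, lv_cons, sg_true, one_smul]
    cases f <;> simp [lv_nil, lv_cons, sg_true]
  have hcv' : c' = e n (2 + p) := by
    rw [hcdef', lv_cons, lv_nil, sg_true, one_smul, add_zero]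
  have hp1 : ¬ (2 + p = 1) := by omega
  have hp1' : ¬ (1 = 2 + p) := by omega
  have hc2 : c ⟨2 + p, hp⟩ = 1 := by
    rw [hcv]
    cases f <;> simp [e, hp1]
  have hc1 : c ⟨1, by omega⟩ = if f then 1 else 0 := by
    rw [hcv]
    cases f <;> simp [e, hp1']
  have hc2' : c' ⟨2 + p, hp⟩ = 1 := by
    rw [hcv']
    simp [e]
  have hc1' : c' ⟨1, by omega⟩ = 0 := by
    rw [hcv']
    simp [e, hp1']
  have hcne : c ≠ 0 := by
    intro h
    rw [h] at hc2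
    exact zero_ne_one hc2
  have hcne' : c' ≠ 0 := by
    intro h
    rw [h] at hc2'
    exact zero_ne_one hc2'
  obtain ⟨ν, hν, h1⟩ := common_row (G.unit x hx) (G.unit x' hx') (G.unit 0 hk) e1 e2 hcne hcne'
  rw [hE, hE', vecMul_smul, vecMul_smul, vecMul_B, vecMul_B] at h1
  have h2 := congrFun h1 ⟨2 + p, hp⟩
  have h3 := congrFun h1 ⟨1, by omega⟩
  simp only [Pi.smul_apply, Pi.add_apply, smul_eq_mul, hc2, hc2', hc1, hc1', e, hp1, if_false,
    if_true, mul_zero, add_zero, mul_one, zero_add] at h2 h3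
  have h4 : c ⬝ᵥ b = b ⟨2 + p, hp⟩ := by
    rw [hcv, add_dotProduct, smul_dotProduct, e_dot hp, e_dot (show 1 < n by omega),
      b0 ⟨1, by omega⟩ (by simp)]
    simp
  have h5 : c' ⬝ᵥ b' = b' ⟨2 + p, hp⟩ := by
    rw [hcv', e_dot hp]
  rw [h4, h5, ← mul_assoc, ← h2] at h3
  have h6 := mul_left_cancel₀ hμ h3
  linarith

/-- the rows `rowsE` -/
theorem Good.rowE (G : Good k n R C F) (hk : 0 < k) {x p p' : ℕ} {b : Fin n → ℝ}
    (hρ : same (x, 0) [(2 + p, true), (2 + p', false)] ∈ R) (hpp : p ≠ p')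
    (hxx : x ≠ 0) (hx : x < k) (hp : 2 + p < n) (hp' : 2 + p' < n) (hb : IsB F x b) :
    b ⟨2 + p, hp⟩ = b ⟨2 + p', hp'⟩ := by
  obtain ⟨b0, μ, hμ, hE⟩ := hb
  have hne : lv n [(2 + p, true), (2 + p', false)] ≠ 0 := by
    intro h
    have := congrFun h ⟨2 + p, hp⟩
    simp [lv_cons, lv_nil, sg_true, sg_false, e, hpp] at this
  obtain ⟨ν, hν, h1⟩ := G.row2 hρ hxx hx hk hne hne
  simp only at h1
  rw [hE, vecMul_smul, vecMul_B] at h1
  have h3 := congrFun h1 ⟨1, by omega⟩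
  have hp1 : ¬ (1 = 2 + p) := by omega
  have hp1' : ¬ (1 = 2 + p') := by omega
  simp only [lv_cons, lv_nil, sg_true, sg_false, one_smul, add_zero, Pi.smul_apply, Pi.add_apply,
    smul_eq_mul, e, hp1, hp1', if_false, if_true, mul_zero, mul_one, zero_add] at h3
  have h4 := (mul_eq_zero.1 h3).resolve_left hμ
  change (e n (2 + p) + (-1 : ℝ) • e n (2 + p')) ⬝ᵥ b = 0 at h4
  rw [add_dotProduct, smul_dotProduct, e_dot hp, e_dot hp'] at h4
  simp only [smul_eq_mul] at h4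
  linarith

/-- columns comparing frame `1` and frame `0` -/
theorem Good.colA (G : Good k n R C F) (hk : 1 < k) {c : List (ℕ × Bool)} {m : ℕ}
    {μ : ℝ} {a : Fin n → ℝ} (hn : 2 ≤ n) (hμ : μ ≠ 0)
    (ha : ∀ i : Fin n, (i : ℕ) < 2 → a i = 0)
    (hE : F 1 * (F 0)⁻¹ = μ • (1 + vecMulVec (e n 0) a))
    (hγ : (same (1, 0) c, m) ∈ C) (hc0 : lv n c ⟨0, by omega⟩ = 0) (hc : lv n c ≠ 0) :
    a ⬝ᵥ lv n c + m = 0 := by
  obtain ⟨v, t, ht⟩ := G.col _ hγ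
  have e1 := ht 1 hk
  have e2 := ht 0 (by omega)
  have c1 : cv n (same (1, 0) c, m) 1 = lv n c := by
    funext i
    simp only [cv, same]
    rw [rv_two_left _ _ (by norm_num : (1 : ℕ) ≠ 0)]
    simp
  have c0 : cv n (same (1, 0) c, m) 0 = lv n c + (m : ℝ) • e n 0 := by
    funext i
    simp only [cv, same]
    rw [rv_two_right _ _ (by norm_num : (1 : ℕ) ≠ 0)]
    simp [e]
  rw [c1] at e1
  rw [c0] at e2
  obtain ⟨j, hj⟩ := Function.ne_iff.1 hc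
  have hj0 : (j : ℕ) ≠ 0 := by
    intro h
    have : j = ⟨0, by omega⟩ := Fin.ext h
    rw [this] at hj
    exact hj hc0
  have hd' : lv n c + (m : ℝ) • e n 0 ≠ 0 := by
    intro h
    have := congrFun h j
    simp only [Pi.add_apply, Pi.smul_apply, smul_eq_mul, e, hj0, if_false, mul_zero, add_zero,
      Pi.zero_apply] at this
    exact hj this
  obtain ⟨ν, hν, h1⟩ := col_rel (G.unit 1 hk) (G.unit 0 (by omega)) e1 e2 hc hd'
  rw [hE, smul_mulVec, mulVec_A] at h1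
  have h2 := congrFun h1 ⟨0, by omega⟩
  simp only [Pi.smul_apply, Pi.add_apply, smul_eq_mul, hc0, e, if_true, mul_one, zero_add,
    mul_zero] at h2
  have h3 := (mul_eq_zero.1 h2).resolve_left hμ
  have h4 : a ⬝ᵥ (lv n c + (m : ℝ) • e n 0) = a ⬝ᵥ lv n c := by
    rw [dotProduct_add, dotProduct_smul, dot_e (show 0 < n by omega),
      ha ⟨0, by omega⟩ (by simp)]
    simp
  change (m : ℝ) + a ⬝ᵥ (lv n c + (m : ℝ) • e n 0) = 0 at h3
  rw [h4] at h3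
  linarith

/-- columns comparing the frames `H t` and `G t` -/
theorem Good.colM (G : Good k n R C F) (hk : 1 < k) {x y : ℕ} {μ μ' : ℝ} {a b b' : Fin n → ℝ}
    (hn : 2 ≤ n) (hμ : μ ≠ 0)
    (ha : ∀ i : Fin n, (i : ℕ) < 2 → a i = 0)
    (hE : F 1 * (F 0)⁻¹ = μ • (1 + vecMulVec (e n 0) a))
    (hμ' : μ' ≠ 0) (hb' : ∀ i : Fin n, (i : ℕ) < 2 → b' i = 0)
    (hE' : F x * (F 1)⁻¹ = μ' • (1 + vecMulVec b' (e n 1))) (hb : IsB F y b)
    (hxy : x ≠ y) (hx : x < k) (hy : y < k)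
    (hγ : (two x [(1, true)] y [(1, true)], 0) ∈ C) : a ⬝ᵥ b = 0 := by
  obtain ⟨hb0, ν, hν, hEy⟩ := hb
  have h1n : 1 < n := by omega
  have h0n : 0 < n := by omega
  have hu0 := (isUnit_iff_isUnit_det _).1 (G.unit 0 (by omega))
  have hu1 := (isUnit_iff_isUnit_det _).1 (G.unit 1 hk)
  have huy := (isUnit_iff_isUnit_det _).1 (G.unit y hy)
  obtain ⟨κ, hκ, h1⟩ := G.col2 hγ hxy hx hy (single_ne_zero h1n) (single_ne_zero h1n)
  simp only [lv_cons, lv_nil, sg_true, one_smul, add_zero] at h1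
  set w : Fin n → ℝ := (F 0 * (F y)⁻¹) *ᵥ e n 1 with hw
  have h2 : (F y * (F 0)⁻¹) *ᵥ w = e n 1 := by
    rw [hw, mulVec_mulVec, Matrix.mul_assoc, ← Matrix.mul_assoc (F 0)⁻¹,
      nonsing_inv_mul _ hu0, Matrix.one_mul, mul_nonsing_inv _ huy, one_mulVec]
  rw [hEy, smul_mulVec, mulVec_B] at h2
  have h3 : (F x * (F y)⁻¹) *ᵥ e n 1 = (F x * (F 1)⁻¹) *ᵥ ((F 1 * (F 0)⁻¹) *ᵥ w) := by
    rw [hw, mulVec_mulVec, mulVec_mulVec]
    congr 1
    rw [show F x * (F 1)⁻¹ * (F 1 * (F 0)⁻¹) * (F 0 * (F y)⁻¹) =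
      F x * ((F 1)⁻¹ * F 1) * ((F 0)⁻¹ * F 0) * (F y)⁻¹ by simp only [Matrix.mul_assoc],
      nonsing_inv_mul _ hu0, nonsing_inv_mul _ hu1, Matrix.mul_one, Matrix.mul_one]
  rw [h1, hE', hE, smul_mulVec, smul_mulVec, mulVec_A, mulVec_B] at h3
  rw [e_dot h1n] at h2
  have h5 := congrFun h2 ⟨1, h1n⟩
  simp only [Pi.smul_apply, Pi.add_apply, smul_eq_mul, hb0 ⟨1, h1n⟩ (by simp), mul_zero,
    add_zero, e, if_true] at h5
  -- `w = ν⁻¹ (e₁ - b)`
  have h6 : a ⬝ᵥ w = - (w ⟨1, h1n⟩ * (a ⬝ᵥ b)) := by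
    have h7 := congrArg (fun z => a ⬝ᵥ z) h2
    simp only [dotProduct_smul, dotProduct_add, smul_eq_mul, dot_e h1n,
      ha ⟨1, h1n⟩ (by simp)] at h7
    have := (mul_eq_zero.1 h7).resolve_left hν
    linarith
  have h7 := congrFun h2 ⟨0, h0n⟩
  simp only [Pi.smul_apply, Pi.add_apply, smul_eq_mul, hb0 ⟨0, h0n⟩ (by simp), mul_zero,
    add_zero, e, one_ne_zero, if_false, zero_ne_one] at h7
  have h8 : w ⟨0, h0n⟩ = 0 := (mul_eq_zero.1 h7).resolve_left hν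
  have h9 := congrFun h3 ⟨0, h0n⟩
  simp only [Pi.smul_apply, Pi.add_apply, smul_eq_mul, hb' ⟨0, h0n⟩ (by simp), mul_zero,
    add_zero, e, one_ne_zero, if_false, zero_ne_one, if_true, mul_one, h8, zero_add] at h9
  have h10 : a ⬝ᵥ w = 0 := by
    have := h9.symm
    rcases mul_eq_zero.1 this with h | h
    · exact absurd h hμ'
    · rcases mul_eq_zero.1 h with h | h
      · exact absurd h hμ
      · exact h
  rw [h6, neg_eq_zero] at h10
  rcases mul_eq_zero.1 h10 with h | h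
  · rw [h, mul_zero] at h5
    exact absurd h5 zero_ne_one
  · exact h

end Pool.Agent.Hadamard
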