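import Pool.Agent.Lib_MP_c79a71_lc.Solve

set_option autoImplicit false
set_option linter.unusedSectionVars false
set_option linter.unusedSimpArgs false
set_option linter.unusedVariables false

/-!
From frames to a solution of the system, end.
-/

namespace Pool.Agent.Hadamard

open Matrix

theorem mem_rels_B {q T j : ℕ} (h : j < q) : (2 + j, 0) ∈ rels q T := by
  simp only [rels, List.mem_append, List.mem_map, List.mem_range]
  exact Or.inl ⟨j, h, rfl⟩

theorem mem_rels_G {q T t : ℕ} (h : t < T) : (2 + q + 2 * t, 0) ∈ rels q T := by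
  simp only [rels, List.mem_append, List.mem_flatMap, List.mem_range]
  exact Or.inr ⟨t, h, by simp⟩

theorem mem_rels_H {q T t : ℕ} (h : t < T) : (3 + q + 2 * t, 1) ∈ rels q T := by
  simp only [rels, List.mem_append, List.mem_flatMap, List.mem_range]
  exact Or.inr ⟨t, h, by simp⟩

section

variable {q : ℕ} {cs : List (ℕ × ℕ)} {as ms : List (ℕ × ℕ × ℕ)}

theorem mem_rows_A {i i' : ℕ} (hi : i < nfr q ms.length + 2 - 1) (h : i' ≤ i) :
    same (1, 0) [(i + 1, true), (i' + 1, true)] ∈ rows q ms := by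
  have : same (1, 0) [(i + 1, true), (i' + 1, true)] ∈ rowsA (nfr q ms.length + 2) := by
    simp only [rowsA, List.mem_flatMap, List.mem_map, List.mem_range]
    exact ⟨i, hi, i', by omega, rfl⟩
  simp [rows, this]

theorem mem_rows_B {r : ℕ × ℕ} (hr : r ∈ rels q ms.length) {c : List (ℕ × Bool)} (hc : c ∈ low) :
    same r c ∈ rows q ms := by
  have : same r c ∈ rowsB q ms.length := by
    simp only [rowsB, List.mem_flatMap, List.mem_map]
    exact ⟨r, hr, c, hc, rfl⟩
  simp [rows, this]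

theorem mem_rows_E {j p p' : ℕ} (hj : j < q) (hp : p < nfr q ms.length) (h : p' < p) :
    same (2 + j, 0) [(2 + p, true), (2 + p', false)] ∈ rows q ms := by
  have : same (2 + j, 0) [(2 + p, true), (2 + p', false)] ∈ rowsE q (nfr q ms.length + 2) := by
    simp only [rowsE, List.mem_flatMap, List.mem_map, List.mem_range]
    exact ⟨j, hj, p, by omega, p', h, rfl⟩
  simp [rows, this]

theorem mem_rows_G {t p : ℕ} (ht : t < ms.length) (hp : p < nfr q ms.length) :
    two (2 + q + 2 * t) ((2 + p, true) :: (if p = (ms.getD t (0, 0, 0)).2.2 then [(1, true)] else []))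
      (if p = (ms.getD t (0, 0, 0)).1 then 2 + (ms.getD t (0, 0, 0)).2.1 else 0) [(2 + p, true)] ∈
      rows q ms := by
  have : two (2 + q + 2 * t)
      ((2 + p, true) :: (if p = (ms.getD t (0, 0, 0)).2.2 then [(1, true)] else []))
      (if p = (ms.getD t (0, 0, 0)).1 then 2 + (ms.getD t (0, 0, 0)).2.1 else 0) [(2 + p, true)] ∈
      rowsG q (nfr q ms.length + 2) ms := by
    simp only [rowsG, List.mem_flatMap, List.mem_map, List.mem_range]
    exact ⟨t, ht, p, by omega, rfl⟩
  simp only [rows, List.mem_append, this, or_true]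

theorem mem_cols_A {c : List (ℕ × Bool)} (hc : c ∈ low) : (same (1, 0) c, 0) ∈ cols q cs as ms := by
  simp only [cols, List.mem_append, List.mem_map]
  exact Or.inl ⟨_, Or.inl (Or.inl (Or.inl (Or.inr ⟨c, hc, rfl⟩))), rfl⟩

theorem mem_cols_B {r : ℕ × ℕ} (hr : r ∈ rels q ms.length) {s s' : ℕ}
    (hs : s < nfr q ms.length + 2 - 1) (h : s' ≤ s) :
    (same r [(pos' s, true), (pos' s', true)], 0) ∈ cols q cs as ms := by
  have : same r [(pos' s, true), (pos' s', true)] ∈ colsB q ms.length (nfr q ms.length + 2) := by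
    simp only [colsB, List.mem_flatMap, List.mem_map, List.mem_range]
    exact ⟨r, hr, s, hs, s', by omega, rfl⟩
  simp only [cols, List.mem_append, List.mem_map]
  exact Or.inl ⟨_, Or.inl (Or.inl (Or.inr this)), rfl⟩

theorem mem_cols_add {g : ℕ × ℕ × ℕ} (hg : g ∈ as) :
    (same (1, 0) [(2 + g.1, true), (2 + g.2.1, true), (2 + g.2.2, false)], 0) ∈ cols q cs as ms := by
  have : same (1, 0) [(2 + g.1, true), (2 + g.2.1, true), (2 + g.2.2, false)] ∈ colsAdd as := by
    simp only [colsAdd, List.mem_map]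
    exact ⟨g, hg, rfl⟩
  simp only [cols, List.mem_append, List.mem_map]
  exact Or.inl ⟨_, Or.inl (Or.inr this), rfl⟩

theorem mem_cols_mul {t : ℕ} (ht : t < ms.length) :
    (two (3 + q + 2 * t) [(1, true)] (2 + q + 2 * t) [(1, true)], 0) ∈ cols q cs as ms := by
  have : two (3 + q + 2 * t) [(1, true)] (2 + q + 2 * t) [(1, true)] ∈ colsMul q ms.length := by
    simp only [colsMul, List.mem_map, List.mem_range]
    exact ⟨t, ht, rfl⟩
  simp only [cols, List.mem_append, List.mem_map]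
  exact Or.inl ⟨_, Or.inr this, rfl⟩

theorem mem_cols_cst {g : ℕ × ℕ} (hg : g ∈ cs) :
    (same (1, 0) [(2 + g.1, true)], g.2) ∈ cols q cs as ms := by
  simp only [cols, List.mem_append, List.mem_map, colsCst]
  exact Or.inr ⟨g, hg, rfl⟩

end

variable {n : ℕ}

theorem lv_ne_zero_of_sum {c : List (ℕ × Bool)} (h : (fun _ => (1 : ℝ)) ⬝ᵥ lv n c ≠ 0) :
    lv n c ≠ 0 := by
  intro h0
  rw [h0, dotProduct_zero] at h
  exact h rfl

theorem one_dot_e {i : ℕ} (hi : i < n) : (fun _ => (1 : ℝ)) ⬝ᵥ e n i = 1 := by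
  rw [dot_e hi]

/-- The solution of the system given by a family of frames. -/
theorem Good.extract {q : ℕ} {cs : List (ℕ × ℕ)} {as ms : List (ℕ × ℕ × ℕ)} (hq : 0 < q)
    (hcs : ∀ g ∈ cs, g.1 < q) (has : ∀ g ∈ as, g.1 < q ∧ g.2.1 < q ∧ g.2.2 < q)
    (hms : ∀ g ∈ ms, g.1 < q ∧ g.2.1 < q ∧ g.2.2 < q)
    {F : ℕ → Matrix (Fin (nfr q ms.length + 2)) (Fin (nfr q ms.length + 2)) ℝ}
    (G : Good (nfr q ms.length) (nfr q ms.length + 2) (rows q ms) (cols q cs as ms) F) :
    ∃ v β : ℕ → ℝ, (∀ g ∈ cs, v g.1 + g.2 = 0) ∧ (∀ g ∈ as, v g.1 + v g.2.1 = v g.2.2) ∧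
      ∀ g ∈ ms, v g.1 * β g.2.1 = v g.2.2 := by
  have hk : 1 < nfr q ms.length := by unfold nfr; omega
  have hqk : ∀ i, i < q → 2 + i < nfr q ms.length := by intro i hi; unfold nfr; omega
  have hqn : ∀ i, i < q → 2 + i < nfr q ms.length + 2 := by intro i hi; unfold nfr; omega
  have htk : ∀ t, t < ms.length → 2 + q + 2 * t < nfr q ms.length ∧
      3 + q + 2 * t < nfr q ms.length := by intro i hi; unfold nfr; omega
  generalize hkk : nfr q ms.length = k at *
  obtain ⟨μ, a, hμ, ha, hE⟩ := G.relA (by omega) hk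
    (fun i i' hi h => mem_rows_A (by rw [hkk]; exact hi) h) (fun c hc => mem_cols_A hc)
  have hB : ∀ x, (x, 0) ∈ rels q ms.length → x ≠ 0 → x < k → ∃ b, IsB F x b := by
    intro x hx hx0 hxk
    obtain ⟨ν, b, hν, hb, hEb⟩ := G.relB (by omega) hx0 hxk (by omega)
      (fun c hc => mem_rows_B hx hc)
      (fun s s' hs h => mem_cols_B hx (by rw [hkk]; exact hs) h)
    exact ⟨b, hb, ν, hν, hEb⟩
  have hBj : ∀ j : ℕ, ∃ b, j < q → IsB F (2 + j) b := by
    intro j
    by_cases hj : j < q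
    · obtain ⟨b, hb⟩ := hB (2 + j) (mem_rels_B hj) (by omega) (hqk j hj)
      exact ⟨b, fun _ => hb⟩
    · exact ⟨0, fun h => absurd h hj⟩
  choose bj hbj using hBj
  have hconst : ∀ j, j < q → ∀ p (hp : p < k), bj j ⟨2 + p, by omega⟩ = bj j ⟨2, by omega⟩ := by
    intro j hj p hp
    rcases Nat.eq_zero_or_pos p with h0 | h0
    · subst h0
      rfl
    · exact G.rowE (by omega) (mem_rows_E hj (by rw [hkk]; exact hp) h0) (by omega) (by omega)
        (hqk j hj) (by omega) (by omega) (hbj j hj)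
  refine ⟨fun i => if h : 2 + i < k + 2 then a ⟨2 + i, h⟩ else 0,
    fun j => bj j ⟨2, by omega⟩, ?_, ?_, ?_⟩
  · intro g hg
    have hg1 := hqn _ (hcs g hg)
    have h1 := G.colA hk (by omega) hμ ha hE (mem_cols_cst hg) (by
        simp [lv_cons, lv_nil, e]
        omega) (single_ne_zero hg1)
    rw [lv_cons, lv_nil, sg_true, one_smul, add_zero, dot_e hg1] at h1
    simp only [hg1, dif_pos]
    exact h1
  · intro g hg
    obtain ⟨g1, g2, g3⟩ := has g hg
    replace g1 := hqn _ g1
    replace g2 := hqn _ g2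
    replace g3 := hqn _ g3
    have h1 := G.colA hk (by omega) hμ ha hE (mem_cols_add hg) (by
        have h1 : ¬ (0 = 2 + g.1) := by omega
        have h2 : ¬ (0 = 2 + g.2.1) := by omega
        have h3 : ¬ (0 = 2 + g.2.2) := by omega
        simp [lv_cons, lv_nil, e, h1, h2, h3]) (by
        apply lv_ne_zero_of_sum
        simp only [lv_cons, lv_nil, sg_true, sg_false, one_smul, add_zero, dotProduct_add,
          dotProduct_smul, one_dot_e g1, one_dot_e g2, one_dot_e g3]
        norm_num)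
    simp only [lv_cons, lv_nil, sg_true, sg_false, one_smul, add_zero, dotProduct_add,
      dotProduct_smul, dot_e g1, dot_e g2, dot_e g3, smul_eq_mul] at h1
    simp only [g1, g2, g3, dif_pos]
    push_cast at h1
    linarith
  · intro g hg
    obtain ⟨t, ht, hgt⟩ := List.getElem_of_mem hg
    have hgt' : ms.getD t (0, 0, 0) = g := by
      rw [List.getD_eq_getElem _ _ ht, hgt]
    obtain ⟨g1, g2, g3⟩ := hms g hg
    have n1 := hqn _ g1
    have n3 := hqn _ g3
    obtain ⟨b, hb⟩ := hB (2 + q + 2 * t) (mem_rels_G ht) (by omega) (htk t ht).1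
    obtain ⟨ν, b', hν, hb', hEb'⟩ := G.relB (by omega) (x := 3 + q + 2 * t) (y := 1) (by omega)
      (htk t ht).2 hk (fun c hc => mem_rows_B (mem_rels_H ht) hc)
      (fun s s' hs h => mem_cols_B (mem_rels_H ht) (by rw [hkk]; exact hs) h)
    have h1 := G.colM hk (by omega) hμ ha hE hν hb' hEb' hb (by omega) (htk t ht).2 (htk t ht).1
      (mem_cols_mul ht)
    have hbp : ∀ p (hp : p < k), b ⟨2 + p, by omega⟩ =
        (if p = g.1 then bj g.2.1 ⟨2, by omega⟩ else 0) - (if p = g.2.2 then 1 else 0) := by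
      intro p hp
      have hmem := mem_rows_G (q := q) ht (by rw [hkk]; exact hp)
      rw [hgt'] at hmem
      by_cases hp1 : p = g.1
      · rw [if_pos hp1] at hmem
        have h2 := G.rowG (by omega) (x := 2 + q + 2 * t) (x' := 2 + g.2.1) (p := p)
          (f := decide (p = g.2.2)) (by simpa using hmem) (by omega) (htk t ht).1 (hqk _ g2)
          (by omega) hb (hbj _ g2)
        rw [h2, hconst _ g2 p hp, if_pos hp1]
        simp
      · rw [if_neg hp1] at hmem
        have h2 := G.rowG (by omega) (x := 2 + q + 2 * t) (x' := 0) (p := p)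
          (f := decide (p = g.2.2)) (by simpa using hmem) (by omega) (htk t ht).1 (by omega)
          (by omega) hb (isB_zero (G.unit 0 (by omega)))
        rw [h2, if_neg hp1]
        simp
    have hbe : b = bj g.2.1 ⟨2, by omega⟩ • e (k + 2) (2 + g.1) - e (k + 2) (2 + g.2.2) := by
      funext s
      obtain ⟨s, hs⟩ := s
      simp only [Pi.sub_apply, Pi.smul_apply, smul_eq_mul, e]
      by_cases h2 : s < 2
      · rw [hb.1 ⟨s, hs⟩ h2, if_neg (by omega), if_neg (by omega)]
        simp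
      · obtain ⟨p, rfl⟩ : ∃ p, s = 2 + p := ⟨s - 2, by omega⟩
        rw [hbp p (by omega)]
        simp
    rw [hbe, dotProduct_sub, dotProduct_smul, dot_e n1, dot_e n3] at h1
    simp only [n1, n3, dif_pos, smul_eq_mul] at h1 ⊢
    linarith

theorem sat_of_good {q : ℕ} {cs : List (ℕ × ℕ)} {as ms : List (ℕ × ℕ × ℕ)} (hq : 0 < q)
    (hcs : ∀ g ∈ cs, g.1 < q) (has : ∀ g ∈ as, g.1 < q ∧ g.2.1 < q ∧ g.2.2 < q)
    (hms : ∀ g ∈ ms, g.1 < q ∧ g.2.1 < q ∧ g.2.2 < q)
    (hone : ∀ v : ℕ → ℝ, (∀ g ∈ cs, v g.1 + g.2 = 0) → (∀ g ∈ as, v g.1 + v g.2.1 = v g.2.2) →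
      v 0 = 1)
    {F : ℕ → Matrix (Fin (nfr q (ties q ++ ms).length + 2))
      (Fin (nfr q (ties q ++ ms).length + 2)) ℝ}
    (G : Good (nfr q (ties q ++ ms).length) (nfr q (ties q ++ ms).length + 2)
      (rows q (ties q ++ ms)) (cols q cs as (ties q ++ ms)) F) :
    ∃ v : ℕ → ℝ, Sat v cs as ms := by
  have hties : ∀ g ∈ ties q, g.1 < q ∧ g.2.1 < q ∧ g.2.2 < q := by
    intro g hg
    obtain ⟨j, hj, rfl⟩ := List.mem_map.1 hg
    have := List.mem_range.1 hj
    exact ⟨hq, this, this⟩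
  obtain ⟨v, β, h1, h2, h3⟩ := G.extract hq hcs has (fun g hg =>
    (List.mem_append.1 hg).elim (hties g) (hms g))
  have h0 := hone v h1 h2
  have hβ : ∀ j < q, β j = v j := by
    intro j hj
    have := h3 (0, j, j) (List.mem_append_left _ (List.mem_map.2 ⟨j, List.mem_range.2 hj, rfl⟩))
    simp only [h0, one_mul] at this
    exact this
  refine ⟨v, h1, h2, fun g hg => ?_⟩
  have := h3 g (List.mem_append_right _ hg)
  rw [hβ _ (hms g hg).2.1] at this
  exact this

end Pool.Agent.Hadamard
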