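import Pool.Agent.Lib_MP_c79a71_lc.Trees
import Pool.Agent.Lib_MP_c79a71_lc.Bridge

set_option autoImplicit false
set_option linter.unusedSectionVars false
set_option linter.unusedSimpArgs false
set_option linter.unusedVariables false

/-!
# The system of equations of a formula
-/

namespace Pool.Agent.Hadamard

open Pool.Agent.PartSep.TM Pool.Agent.PartSep.CL

/-- the gates which fix the values of the first three wires -/
def initG : List Gate := [(0, (2, 0, 0), natName 1), (0, (1, 0, 0), []), gadd 0 2 1]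

/-- all gates -/
def allG (l : List Tok) : List Gate := initG ++ (gadd (wire l.length 0) 1 0 :: gat l)

def csN (G : List Gate) : List (ℕ × Name) :=
  G.flatMap (fun g => if g.1 = 0 then [(g.2.1.1, g.2.2)] else [])

def asG (G : List Gate) : List (ℕ × ℕ × ℕ) :=
  G.flatMap (fun g => if g.1 = 1 then [g.2.1] else [])

def msG (G : List Gate) : List (ℕ × ℕ × ℕ) :=
  G.flatMap (fun g => if g.1 = 2 then [g.2.1] else [])

def vsG (G : List Gate) : List (ℕ × Name) :=
  G.flatMap (fun g => if 2 < g.1 then [(g.2.1.1, g.2.2)] else [])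

def asE (G : List Gate) : List (ℕ × ℕ × ℕ) :=
  (vsG G).flatMap (fun a => (vsG G).flatMap (fun b => if a.2 = b.2 then [(a.1, 1, b.1)] else []))

def cval (g : ℕ × Name) : ℕ × ℕ := (g.1, sval g.2)

theorem mem_csN {G : List Gate} {y : ℕ × Name} :
    y ∈ csN G ↔ ∃ g ∈ G, g.1 = 0 ∧ y = (g.2.1.1, g.2.2) := by
  simp only [csN, List.mem_flatMap]
  refine exists_congr fun g => and_congr_right fun _ => ?_
  split_ifs with h <;> simp [h]

theorem mem_asG {G : List Gate} {y : ℕ × ℕ × ℕ} :
    y ∈ asG G ↔ ∃ g ∈ G, g.1 = 1 ∧ y = g.2.1 := by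
  simp only [asG, List.mem_flatMap]
  refine exists_congr fun g => and_congr_right fun _ => ?_
  split_ifs with h <;> simp [h]

theorem mem_msG {G : List Gate} {y : ℕ × ℕ × ℕ} :
    y ∈ msG G ↔ ∃ g ∈ G, g.1 = 2 ∧ y = g.2.1 := by
  simp only [msG, List.mem_flatMap]
  refine exists_congr fun g => and_congr_right fun _ => ?_
  split_ifs with h <;> simp [h]

theorem mem_vsG {G : List Gate} {y : ℕ × Name} :
    y ∈ vsG G ↔ ∃ g ∈ G, 2 < g.1 ∧ y = (g.2.1.1, g.2.2) := by
  simp only [vsG, List.mem_flatMap]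
  refine exists_congr fun g => and_congr_right fun _ => ?_
  split_ifs with h <;> simp [h]

theorem mem_asE {G : List Gate} {y : ℕ × ℕ × ℕ} :
    y ∈ asE G ↔ ∃ a ∈ vsG G, ∃ b ∈ vsG G, a.2 = b.2 ∧ y = (a.1, 1, b.1) := by
  simp only [asE, List.mem_flatMap]
  refine exists_congr fun a => and_congr_right fun _ => exists_congr fun b =>
    and_congr_right fun _ => ?_
  split_ifs with h <;> simp [h]

theorem sval_nil : sval [] = 0 := rfl

theorem sval_one : sval (natName 1) = 1 := sval_natName 1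

theorem initG_iff {v : ℕ → ℝ} {x : Name → ℝ} :
    (∀ g ∈ initG, GOk v x g) ↔ v 2 = -1 ∧ v 1 = 0 ∧ v 0 = 1 := by
  simp only [initG, List.mem_cons, List.not_mem_nil, or_false, forall_eq_or_imp, forall_eq,
    gok_add]
  simp only [GOk, if_true, sval_nil, sval_one, Nat.cast_zero, Nat.cast_one, add_zero]
  constructor
  · rintro ⟨h1, h2, h3⟩
    refine ⟨by linarith, h2, by linarith⟩
  · rintro ⟨h1, h2, h3⟩
    refine ⟨by linarith, h2, by linarith⟩

theorem sys_one {G : List Gate} (hG : ∀ g ∈ initG, g ∈ G) (v : ℕ → ℝ)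
    (h1 : ∀ g ∈ (csN G).map cval, v g.1 + g.2 = 0)
    (h2 : ∀ g ∈ asG G ++ asE G, v g.1 + v g.2.1 = v g.2.2) : v 2 = -1 ∧ v 1 = 0 ∧ v 0 = 1 := by
  have e1 := h1 (cval (2, natName 1)) (List.mem_map_of_mem (mem_csN.2
    ⟨_, hG (0, (2, 0, 0), natName 1) (by simp [initG]), rfl, rfl⟩))
  have e2 := h1 (cval (1, [])) (List.mem_map_of_mem (mem_csN.2
    ⟨_, hG (0, (1, 0, 0), []) (by simp [initG]), rfl, rfl⟩))
  have e3 := h2 (0, 2, 1) (List.mem_append_left _ (mem_asG.2
    ⟨_, hG (gadd 0 2 1) (by simp [initG]), rfl, rfl⟩))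
  simp only [cval, sval_one, sval_nil, Nat.cast_one, Nat.cast_zero, add_zero] at e1 e2
  simp only at e3
  refine ⟨by linarith, e2, by linarith⟩

theorem sys_iff {G : List Gate} (hG : ∀ g ∈ initG, g ∈ G) :
    (∃ v : ℕ → ℝ, Sat v ((csN G).map cval) (asG G ++ asE G) (msG G)) ↔
      ∃ (x : Name → ℝ) (v : ℕ → ℝ), ∀ g ∈ G, GOk v x g := by
  classical
  constructor
  · rintro ⟨v, hv⟩
    have h1 := (sys_one hG v hv.cst hv.add).2.1
    refine ⟨fun w => if h : ∃ a ∈ vsG G, a.2 = w then v h.choose.1 else 0, v, fun g hg => ?_⟩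
    unfold GOk
    split_ifs with k0 k1 k2
    · exact hv.cst (cval (g.2.1.1, g.2.2)) (List.mem_map_of_mem (mem_csN.2 ⟨g, hg, k0, rfl⟩))
    · exact hv.add g.2.1 (List.mem_append_left _ (mem_asG.2 ⟨g, hg, k1, rfl⟩))
    · exact hv.mul g.2.1 (mem_msG.2 ⟨g, hg, k2, rfl⟩)
    · have hmem : (g.2.1.1, g.2.2) ∈ vsG G := mem_vsG.2 ⟨g, hg, by omega, rfl⟩
      have h : ∃ a ∈ vsG G, a.2 = g.2.2 := ⟨_, hmem, rfl⟩
      change v g.2.1.1 = if h : ∃ a ∈ vsG G, a.2 = g.2.2 then v h.choose.1 else 0
      rw [dif_pos h]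
      obtain ⟨h2, h3⟩ := h.choose_spec
      have h4 := hv.add (h.choose.1, 1, g.2.1.1) (List.mem_append_right _ (mem_asE.2
        ⟨_, h2, _, hmem, h3, rfl⟩))
      simp only [h1] at h4
      linarith
  · rintro ⟨x, v, h⟩
    have h1 := (initG_iff.1 (fun g hg => h g (hG g hg))).2.1
    refine ⟨v, ⟨?_, ?_, ?_⟩⟩
    · intro y hy
      obtain ⟨y', hy', rfl⟩ := List.mem_map.1 hy
      obtain ⟨g, hg, k0, rfl⟩ := mem_csN.1 hy'
      have := h g hg
      unfold GOk at this
      rw [if_pos k0] at this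
      exact this
    · intro y hy
      rcases List.mem_append.1 hy with hy | hy
      · obtain ⟨g, hg, k1, rfl⟩ := mem_asG.1 hy
        have := h g hg
        unfold GOk at this
        rw [if_neg (by omega), if_pos k1] at this
        exact this
      · obtain ⟨a, ha, b, hb, hab, rfl⟩ := mem_asE.1 hy
        obtain ⟨g, hg, k, rfl⟩ := mem_vsG.1 ha
        obtain ⟨g', hg', k', rfl⟩ := mem_vsG.1 hb
        have e1 := h g hg
        have e2 := h g' hg'
        unfold GOk at e1 e2
        rw [if_neg (by omega), if_neg (by omega), if_neg (by omega)] at e1 e2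
        simp only at hab ⊢
        rw [e1, e2, h1, hab, add_zero]
    · intro y hy
      obtain ⟨g, hg, k2, rfl⟩ := mem_msG.1 hy
      have := h g hg
      unfold GOk at this
      rw [if_neg (by omega), if_neg (by omega), if_pos k2] at this
      exact this

theorem initG_mem (l : List Tok) : ∀ g ∈ initG, g ∈ allG l :=
  fun g hg => List.mem_append_left _ hg

theorem gat_formula (φ : Formula) : gat φ.tree.toks = φ.tree.gates 0 := by
  have := gat_tree φ.tree true [] (formula_wt φ)
  simpa [gat] using this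

theorem allG_iff (φ : Formula) :
    (∃ (x : Name → ℝ) (v : ℕ → ℝ), ∀ g ∈ allG φ.tree.toks, GOk v x g) ↔
      ∃ x : ℕ → ℝ, φ.Holds x := by
  classical
  have hw := formula_wt φ
  unfold allG
  rw [gat_formula, Tree.length_toks]
  constructor
  · rintro ⟨x, v, h⟩
    rw [List.forall_mem_append, List.forall_mem_cons] at h
    obtain ⟨h1, h2, h3⟩ := h
    obtain ⟨e2, e1, e0⟩ := initG_iff.1 h1
    have h4 := tree_sound e0 e1 φ.tree true 0 hw h3
    rw [zero_add] at h4
    rw [gok_add, e0, e1, add_zero, h4, formula_val] at h2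
    refine ⟨fun n => x (natName n), ?_⟩
    by_contra hc
    rw [if_neg hc] at h2
    exact zero_ne_one h2
  · rintro ⟨x, hx⟩
    obtain ⟨v, hv1, hv2⟩ := tree_complete (fun w => x (sval w)) φ.tree true 0
      (fun i => if i = 0 then 1 else if i = 1 then 0 else -1) hw (by simp) (by simp)
    have e0 : v 0 = 1 := by rw [hv1 0 (by unfold wire; omega)]; simp
    have e1 : v 1 = 0 := by rw [hv1 1 (by unfold wire; omega)]; simp
    have e2 : v 2 = -1 := by rw [hv1 2 (by unfold wire; omega)]; simp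
    refine ⟨fun w => x (sval w), v, ?_⟩
    rw [List.forall_mem_append, List.forall_mem_cons]
    refine ⟨initG_iff.2 ⟨e2, e1, e0⟩, ?_, hv2⟩
    have h4 := tree_sound e0 e1 φ.tree true 0 hw hv2
    rw [zero_add] at h4
    rw [gok_add, e0, e1, add_zero, h4, formula_val]
    have : (fun n => x (sval (natName n))) = x := by
      funext n
      rw [sval_natName]
    simp only [this]
    rw [if_pos hx]

theorem allG_lt (φ : Formula) :
    ∀ g ∈ allG φ.tree.toks, GLt (wire (φ.tree.toks.length + 1) 0) g := by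
  intro g hg
  unfold allG at hg
  rw [gat_formula, List.mem_append, List.mem_cons] at hg
  rcases hg with hg | rfl | hg
  · simp only [initG, List.mem_cons, List.not_mem_nil, or_false] at hg
    rcases hg with rfl | rfl | rfl <;> simp only [GLt, gadd, wire] <;> omega
  · simp only [GLt, gadd, wire]
    omega
  · have := tree_lt φ.tree true 0 (formula_wt φ) g hg
    rw [zero_add, ← Tree.length_toks] at this
    exact this

/-- number of wires -/
def qOf (l : List Tok) : ℕ := wire (l.length + 1) 0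

/-- the additions of the system -/
def asOf (l : List Tok) : List (ℕ × ℕ × ℕ) := asG (allG l) ++ asE (allG l)

/-- the multiplications of the system -/
def msOf (l : List Tok) : List (ℕ × ℕ × ℕ) := ties (qOf l) ++ msG (allG l)

/-- The matrix of a formula has a Hadamard decomposition with the prescribed ranks if and only if
the formula is satisfiable. -/
theorem formula_iff (φ : Formula) :
    HasHadamardDecomposition (matOf (rows (qOf φ.tree.toks) (msOf φ.tree.toks))
      (cols (qOf φ.tree.toks) ((csN (allG φ.tree.toks)).map cval) (asOf φ.tree.toks)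
        (msOf φ.tree.toks)))
      (nfr (qOf φ.tree.toks) (msOf φ.tree.toks).length)
      (nfr (qOf φ.tree.toks) (msOf φ.tree.toks).length + 2) ↔ ∃ x : ℕ → ℝ, φ.Holds x := by
  have hlt := allG_lt φ
  unfold msOf asOf
  rw [hasHadamard_iff, sys_iff (initG_mem _), allG_iff]
  · unfold qOf wire; omega
  · intro y hy
    obtain ⟨y', hy', rfl⟩ := List.mem_map.1 hy
    obtain ⟨g, hg, k0, rfl⟩ := mem_csN.1 hy'
    exact (hlt g hg).1
  · intro y hy
    rcases List.mem_append.1 hy with hy | hy
    · obtain ⟨g, hg, k1, rfl⟩ := mem_asG.1 hy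
      exact hlt g hg
    · obtain ⟨a, ha, b, hb, hab, rfl⟩ := mem_asE.1 hy
      obtain ⟨g, hg, k, rfl⟩ := mem_vsG.1 ha
      obtain ⟨g', hg', k', rfl⟩ := mem_vsG.1 hb
      refine ⟨(hlt g hg).1, ?_, (hlt g' hg').1⟩
      simp only [qOf, wire]
      omega
  · intro y hy
    obtain ⟨g, hg, k1, rfl⟩ := mem_msG.1 hy
    exact hlt g hg
  · intro v h1 h2
    exact (sys_one (initG_mem _) v h1 h2).2.2

end Pool.Agent.Hadamard
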