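import Pool.Agent.Lib_MP_c79a71_lc.Gates

set_option autoImplicit false
set_option linter.unusedSectionVars false
set_option linter.unusedSimpArgs false
set_option linter.unusedVariables false

/-!
# Token lists, trees and the stack machine
-/

namespace Pool.Agent.Hadamard

open Pool.Agent.PartSep.TM Pool.Agent.PartSep.CL

/-- the type of the arguments of a token: is it a formula? -/
def argT (k : ℕ) : Bool := decide (8 ≤ k)

/-- the type of the result of a token: is it a formula? -/
def resT (k : ℕ) : Bool := decide (5 ≤ k)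

/-- trees of tokens -/
inductive Tree : Type
  | mk0 (t : Tok)
  | mk1 (t : Tok) (x : Tree)
  | mk2 (t : Tok) (x y : Tree)

namespace Tree

def toks : Tree → List Tok
  | mk0 t => [t]
  | mk1 t x => t :: x.toks
  | mk2 t x y => t :: (x.toks ++ y.toks)

def size : Tree → ℕ
  | mk0 _ => 1
  | mk1 _ x => x.size + 1
  | mk2 _ x y => y.size + x.size + 1

theorem length_toks (T : Tree) : T.toks.length = T.size := by
  induction T with
  | mk0 t => rfl
  | mk1 t x ih => simp [toks, size, ih]
  | mk2 t x y ih ih' => simp [toks, size, ih, ih']; omega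

/-- well-typed trees -/
def WT : Tree → Bool → Prop
  | mk0 t, f => t.1 < 2 ∧ f = resT t.1
  | mk1 t x, f => (t.1 = 2 ∨ t.1 = 8) ∧ x.WT (argT t.1) ∧ f = resT t.1
  | mk2 t x y, f => 2 < t.1 ∧ t.1 ≠ 8 ∧ x.WT (argT t.1) ∧ y.WT (argT t.1) ∧ f = resT t.1

noncomputable def val (x : Name → ℝ) : Tree → ℝ
  | mk0 t => tokVal x t 0 0
  | mk1 t X => tokVal x t (X.val x) 0
  | mk2 t X Y => tokVal x t (X.val x) (Y.val x)

/-- the gates of a tree with `b` tokens to the right -/
def gates : Tree → ℕ → List Gate
  | mk0 t, b => tokGates t (b + 1) 0 0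
  | mk1 t x, b => tokGates t (b + x.size + 1) (wire (b + x.size) 0) 0 ++ x.gates b
  | mk2 t x y, b => tokGates t (b + y.size + x.size + 1) (wire (b + y.size + x.size) 0)
      (wire (b + y.size) 0) ++ (x.gates (b + y.size) ++ y.gates b)

end Tree

/-- is the element with index `i` of the stack there and of type `f`? -/
def okS (f : Bool) (s : List (ℕ × Bool)) (i : ℕ) : Bool :=
  decide (i < s.length) && !((s[i]?.getD (0, false)).2 != f)

/-- one step of the stack machine -/
def pstep (t : Tok) (p : ℕ) (s : Bool × List (ℕ × Bool)) : Bool × List (ℕ × Bool) :=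
  if t.1 < 2 then (s.1, (p, resT t.1) :: s.2)
  else if t.1 = 2 ∨ t.1 = 8 then (s.1 && okS (argT t.1) s.2 0, (p, resT t.1) :: s.2.tail)
  else (s.1 && (okS (argT t.1) s.2 0 && okS (argT t.1) s.2 1), (p, resT t.1) :: s.2.tail.tail)

/-- the stack machine -/
def pstk : List Tok → Bool × List (ℕ × Bool)
  | [] => (true, [])
  | t :: l => pstep t (l.length + 1) (pstk l)

/-- the wire of an argument -/
def argw (s : List (ℕ × Bool)) (i : ℕ) : ℕ := wire (s[i]?.getD (0, false)).1 0

/-- the gates of a list of tokens -/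
def gat : List Tok → List Gate
  | [] => []
  | t :: l => tokGates t (l.length + 1) (argw (pstk l).2 0) (argw (pstk l).2 1) ++ gat l

theorem okS_zero (f : Bool) (p : ℕ) (s : List (ℕ × Bool)) : okS f ((p, f) :: s) 0 = true := by
  simp [okS]

theorem okS_one (f : Bool) (a : ℕ × Bool) (p : ℕ) (s : List (ℕ × Bool)) :
    okS f (a :: (p, f) :: s) 1 = true := by
  simp [okS]

theorem pstk_tree (T : Tree) : ∀ (f : Bool) (r : List Tok), T.WT f →
    pstk (T.toks ++ r) = ((pstk r).1, (r.length + T.size, f) :: (pstk r).2) := by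
  induction T with
  | mk0 t =>
    intro f r h
    obtain ⟨h1, h2⟩ := h
    simp only [Tree.toks, List.singleton_append, pstk, pstep, if_pos h1, Tree.size, h2]
  | mk1 t x ih =>
    intro f r h
    obtain ⟨h1, h2, h3⟩ := h
    have h4 : ¬ t.1 < 2 := by omega
    simp only [Tree.toks, List.cons_append, pstk, pstep, if_neg h4, if_pos h1, Tree.size,
      ih _ r h2, okS_zero, Bool.and_true, List.tail_cons, h3, List.length_append,
      Tree.length_toks, Prod.mk.injEq, List.cons.injEq, and_true, true_and]
    omega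
  | mk2 t x y ih ih' =>
    intro f r h
    obtain ⟨h1, h2, h3, h4, h5⟩ := h
    have h6 : ¬ t.1 < 2 := by omega
    have h7 : ¬ (t.1 = 2 ∨ t.1 = 8) := by omega
    simp only [Tree.toks, List.cons_append, List.append_assoc, pstk, pstep, if_neg h6, if_neg h7,
      Tree.size, ih _ _ h3, ih' _ r h4, okS_zero, okS_one, Bool.and_true, List.tail_cons, h5,
      List.length_append, Tree.length_toks, Prod.mk.injEq, List.cons.injEq, and_true, true_and]
    omega

theorem gat_tree (T : Tree) : ∀ (f : Bool) (r : List Tok), T.WT f →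
    gat (T.toks ++ r) = T.gates r.length ++ gat r := by
  induction T with
  | mk0 t =>
    intro f r h
    simp only [Tree.toks, List.singleton_append, gat, Tree.gates]
    rw [tokGates_congr0 t h.1]
  | mk1 t x ih =>
    intro f r h
    obtain ⟨h1, h2, h3⟩ := h
    simp only [Tree.toks, List.cons_append, gat, Tree.gates, ih _ r h2, pstk_tree x _ r h2,
      List.length_append, Tree.length_toks, List.append_assoc]
    congr 1
    rw [tokGates_congr1 t h1 _ _ _ 0]
    congr 1
    omega
  | mk2 t x y ih ih' =>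
    intro f r h
    obtain ⟨h1, h2, h3, h4, h5⟩ := h
    simp only [Tree.toks, List.cons_append, gat, Tree.gates, ih _ _ h3, ih' _ r h4,
      pstk_tree x _ _ h3, pstk_tree y _ r h4,
      List.length_append, Tree.length_toks, List.append_assoc, argw]
    have e1 : x.size + (y.size + r.length) + 1 = r.length + y.size + x.size + 1 := by omega
    have e2 : y.size + r.length = r.length + y.size := by omega
    rw [e1, e2]
    rfl

variable {v : ℕ → ℝ} {x : Name → ℝ}

theorem tokVal_congr0 (t : Tok) (h : t.1 < 2) (a b a' b' : ℝ) :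
    tokVal x t a b = tokVal x t a' b' := by
  unfold tokVal
  by_cases k0 : t.1 = 0
  · rw [if_pos k0, if_pos k0]
  · rw [if_neg k0, if_neg k0, if_pos (by omega), if_pos (by omega)]

theorem tokVal_congr1 (t : Tok) (h : t.1 = 2 ∨ t.1 = 8) (a b b' : ℝ) :
    tokVal x t a b = tokVal x t a b' := by
  unfold tokVal
  rcases h with h | h
  · simp [h]
  · simp [h]

theorem tree_sound (h0 : v 0 = 1) (h1 : v 1 = 0) (T : Tree) : ∀ (f : Bool) (b : ℕ), T.WT f →
    (∀ g ∈ T.gates b, GOk v x g) → v (wire (b + T.size) 0) = T.val x := by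
  induction T with
  | mk0 t =>
    intro f b h hg
    rw [Tree.size, Tree.val, tok_sound t _ _ _ h0 h1 hg]
    exact tokVal_congr0 t h.1 _ _ _ _
  | mk1 t X ih =>
    intro f b h hg
    obtain ⟨k1, k2, k3⟩ := h
    rw [Tree.gates, List.forall_mem_append] at hg
    rw [Tree.size, Tree.val, ← add_assoc, tok_sound t _ _ _ h0 h1 hg.1, ih _ b k2 hg.2]
    exact tokVal_congr1 t k1 _ _ _
  | mk2 t X Y ih ih' =>
    intro f b h hg
    obtain ⟨k1, k2, k3, k4, k5⟩ := h
    rw [Tree.gates, List.forall_mem_append, List.forall_mem_append] at hg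
    rw [Tree.size, Tree.val, show b + (Y.size + X.size + 1) = b + Y.size + X.size + 1 by omega,
      tok_sound t _ _ _ h0 h1 hg.1, ih _ _ k3 hg.2.1, ih' _ _ k4 hg.2.2]

theorem GLt.mono {W W' : ℕ} {g : Gate} (h : GLt W g) (hW : W ≤ W') : GLt W' g :=
  ⟨lt_of_lt_of_le h.1 hW, lt_of_lt_of_le h.2.1 hW, lt_of_lt_of_le h.2.2 hW⟩

theorem wire_mono {p q : ℕ} (h : p ≤ q) : wire p 0 ≤ wire q 0 := by
  unfold wire
  omega

theorem tree_lt (T : Tree) : ∀ (f : Bool) (b : ℕ), T.WT f →
    ∀ g ∈ T.gates b, GLt (wire (b + T.size + 1) 0) g := by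
  induction T with
  | mk0 t =>
    intro f b h g hg
    have := h.1
    exact tok_lt t (by omega) (by omega) g hg
  | mk1 t X ih =>
    intro f b h g hg
    obtain ⟨k1, k2, k3⟩ := h
    rw [Tree.gates, List.mem_append] at hg
    rcases hg with hg | hg
    · have := tok_lt t (fun _ => by unfold wire; omega) (fun h1 h2 => by omega) g hg
      rw [show b + X.size + 1 = b + (X.size + 1) by omega] at this
      exact this
    · exact (ih _ b k2 g hg).mono (wire_mono (by simp only [Tree.size]; omega))
  | mk2 t X Y ih ih' =>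
    intro f b h g hg
    obtain ⟨k1, k2, k3, k4, k5⟩ := h
    rw [Tree.gates, List.mem_append, List.mem_append] at hg
    rcases hg with hg | hg | hg
    · have := tok_lt t (fun _ => by unfold wire; omega) (fun h1 h2 => by unfold wire; omega) g hg
      rw [show b + Y.size + X.size + 1 = b + (Y.size + X.size + 1) by omega] at this
      exact this
    · exact (ih _ _ k3 g hg).mono (wire_mono (by simp only [Tree.size]; omega))
    · exact (ih' _ b k4 g hg).mono (wire_mono (by simp only [Tree.size]; omega))

/-- extension by local wires -/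
def extend (v : ℕ → ℝ) (p : ℕ) (loc : ℕ → ℝ) (w : ℕ) : ℝ :=
  if w < wire p 0 then v w else loc (w - wire p 0)

theorem extend_low (v : ℕ → ℝ) (p : ℕ) (loc : ℕ → ℝ) {w : ℕ} (h : w < wire p 0) :
    extend v p loc w = v w := if_pos h

theorem extend_loc (v : ℕ → ℝ) (p : ℕ) (loc : ℕ → ℝ) (s : ℕ) :
    extend v p loc (wire p s) = loc s := by
  unfold extend wire
  rw [if_neg (by omega)]
  congr 1
  omega

theorem tree_complete (x : Name → ℝ) (T : Tree) : ∀ (f : Bool) (b : ℕ) (v : ℕ → ℝ), T.WT f →
    v 0 = 1 → v 1 = 0 → ∃ v' : ℕ → ℝ, (∀ w < wire (b + 1) 0, v' w = v w) ∧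
      ∀ g ∈ T.gates b, GOk v' x g := by
  have hw0 : ∀ p, 0 < wire p 0 := by intro p; unfold wire; omega
  have hw1 : ∀ p, 1 < wire p 0 := by intro p; unfold wire; omega
  induction T with
  | mk0 t =>
    intro f b v h h0 h1
    obtain ⟨loc, hloc⟩ := tok_complete x t (b + 1) 0 0 0 0
    have hk := h.1
    refine ⟨extend v (b + 1) loc, fun w hw => extend_low _ _ _ hw, hloc _ ?_ ?_
      (fun h => by omega) (fun h => by omega) (fun s _ => extend_loc _ _ _ s)⟩
    · rw [extend_low _ _ _ (hw0 _), h0]
    · rw [extend_low _ _ _ (hw1 _), h1]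
  | mk1 t X ih =>
    intro f b v h h0 h1
    obtain ⟨k1, k2, k3⟩ := h
    obtain ⟨v1, e1, g1⟩ := ih _ b v k2 h0 h1
    obtain ⟨loc, hloc⟩ := tok_complete x t (b + X.size + 1) (wire (b + X.size) 0) 0
      (v1 (wire (b + X.size) 0)) 0
    refine ⟨extend v1 (b + X.size + 1) loc, fun w hw => ?_, ?_⟩
    · rw [extend_low _ _ _ (lt_of_lt_of_le hw (wire_mono (by omega))), e1 w hw]
    · rw [Tree.gates, List.forall_mem_append]
      refine ⟨hloc _ ?_ ?_ ?_ (fun h => by omega) (fun s _ => extend_loc _ _ _ s), ?_⟩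
      · rw [extend_low _ _ _ (hw0 _), e1 _ (hw0 _), h0]
      · rw [extend_low _ _ _ (hw1 _), e1 _ (hw1 _), h1]
      · intro _
        rw [extend_low _ _ _ (by unfold wire; omega)]
      · intro g hg
        exact (g1 g hg).congr (tree_lt X _ b k2 g hg) (fun w hw => extend_low _ _ _ hw)
  | mk2 t X Y ih ih' =>
    intro f b v h h0 h1
    obtain ⟨k1, k2, k3, k4, k5⟩ := h
    obtain ⟨v1, e1, g1⟩ := ih' _ b v k4 h0 h1
    obtain ⟨v2, e2, g2⟩ := ih _ (b + Y.size) v1 k3 (by rw [e1 _ (hw0 _), h0])
      (by rw [e1 _ (hw1 _), h1])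
    obtain ⟨loc, hloc⟩ := tok_complete x t (b + Y.size + X.size + 1)
      (wire (b + Y.size + X.size) 0) (wire (b + Y.size) 0)
      (v2 (wire (b + Y.size + X.size) 0)) (v2 (wire (b + Y.size) 0))
    refine ⟨extend v2 (b + Y.size + X.size + 1) loc, fun w hw => ?_, ?_⟩
    · rw [extend_low _ _ _ (lt_of_lt_of_le hw (wire_mono (by omega))),
        e2 w (lt_of_lt_of_le hw (wire_mono (by omega))), e1 w hw]
    · rw [Tree.gates, List.forall_mem_append, List.forall_mem_append]
      refine ⟨hloc _ ?_ ?_ ?_ ?_ (fun s _ => extend_loc _ _ _ s), ?_, ?_⟩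
      · rw [extend_low _ _ _ (hw0 _), e2 _ (hw0 _), e1 _ (hw0 _), h0]
      · rw [extend_low _ _ _ (hw1 _), e2 _ (hw1 _), e1 _ (hw1 _), h1]
      · intro _
        rw [extend_low _ _ _ (by unfold wire; omega)]
      · intro _ _
        rw [extend_low _ _ _ (by unfold wire; omega)]
      · intro g hg
        exact (g2 g hg).congr (tree_lt X _ _ k3 g hg) (fun w hw => extend_low _ _ _ hw)
      · intro g hg
        refine (g1 g hg).congr (tree_lt Y _ b k4 g hg) (fun w hw => ?_)
        rw [extend_low _ _ _ (lt_of_lt_of_le hw (wire_mono (by omega)))]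
        exact e2 w hw

/-! ### The stack machine recognises lists of trees -/

theorem okS_iff (f : Bool) (s : List (ℕ × Bool)) (i : ℕ) :
    okS f s i = true ↔ ∃ h : i < s.length, s[i].2 = f := by
  unfold okS
  rw [Bool.and_eq_true, decide_eq_true_eq]
  constructor
  · rintro ⟨h, h2⟩
    refine ⟨h, ?_⟩
    simpa [h] using h2
  · rintro ⟨h, h2⟩
    refine ⟨h, ?_⟩
    simpa [h] using h2

theorem pstk_forest (l : List Tok) : (pstk l).1 = true →
    ∃ F : List (Tree × Bool), l = F.flatMap (fun y => y.1.toks) ∧ (∀ y ∈ F, y.1.WT y.2) ∧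
      (pstk l).2.map Prod.snd = F.map Prod.snd := by
  induction l with
  | nil =>
    intro _
    exact ⟨[], rfl, by simp, rfl⟩
  | cons t l ih =>
    intro h
    rw [pstk, pstep] at h
    rw [pstk, pstep]
    by_cases k1 : t.1 < 2
    · rw [if_pos k1] at h ⊢
      obtain ⟨F, h1, h2, h3⟩ := ih h
      refine ⟨(.mk0 t, resT t.1) :: F, ?_, ?_, ?_⟩
      · rw [List.flatMap_cons, ← h1]
        rfl
      · intro y hy
        rcases List.mem_cons.1 hy with rfl | hy
        · exact ⟨k1, rfl⟩
        · exact h2 y hy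
      · simp [h3]
    by_cases k2 : t.1 = 2 ∨ t.1 = 8
    · rw [if_neg k1, if_pos k2] at h ⊢
      simp only [Bool.and_eq_true] at h
      obtain ⟨F, h1, h2, h3⟩ := ih h.1
      obtain ⟨h4, h5⟩ := (okS_iff _ _ _).1 h.2
      cases F with
      | nil =>
        exfalso
        rw [List.map_nil, List.map_eq_nil_iff] at h3
        rw [h3] at h4
        simp at h4
      | cons y F =>
        obtain ⟨X, f⟩ := y
        cases hs : (pstk l).2 with
        | nil => rw [hs] at h3; simp at h3
        | cons a s =>
          rw [hs] at h3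
          simp only [List.map_cons, List.cons.injEq] at h3
          simp only [hs, List.getElem_cons_zero] at h5
          rw [h5] at h3
          refine ⟨(.mk1 t X, resT t.1) :: F, ?_, ?_, ?_⟩
          · rw [List.flatMap_cons, h1, List.flatMap_cons]
            rfl
          · intro y hy
            rcases List.mem_cons.1 hy with rfl | hy
            · refine ⟨k2, ?_, rfl⟩
              rw [h3.1]
              exact h2 (X, f) (by simp)
            · exact h2 y (by simp [hy])
          · simp [h3.2]
    · rw [if_neg k1, if_neg k2] at h ⊢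
      simp only [Bool.and_eq_true] at h
      obtain ⟨F, h1, h2, h3⟩ := ih h.1
      obtain ⟨h4, h5⟩ := (okS_iff _ _ _).1 h.2.1
      obtain ⟨h6, h7⟩ := (okS_iff _ _ _).1 h.2.2
      have hlen := congrArg List.length h3
      simp only [List.length_map] at hlen
      match F, h1, h2, h3, hlen with
      | [], _, _, _, hlen => simp only [List.length_nil] at hlen; omega
      | [y], _, _, _, hlen =>
        simp only [List.length_cons, List.length_nil] at hlen
        omega
      | (X, f) :: (Y, f') :: F, h1, h2, h3, hlen =>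
        match hs : (pstk l).2 with
        | [] => rw [hs] at h3; simp at h3
        | [a] => rw [hs] at h3; simp at h3
        | a :: a' :: s =>
          rw [hs] at h3
          simp only [List.map_cons, List.cons.injEq] at h3
          simp only [hs, List.getElem_cons_zero] at h5
          simp only [hs, List.getElem_cons_succ, List.getElem_cons_zero] at h7
          rw [h5, h7] at h3
          refine ⟨(.mk2 t X Y, resT t.1) :: F, ?_, ?_, ?_⟩
          · rw [List.flatMap_cons, h1, List.flatMap_cons, List.flatMap_cons]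
            simp [Tree.toks]
          · intro y hy
            rcases List.mem_cons.1 hy with rfl | hy
            · refine ⟨by omega, by omega, ?_, ?_, rfl⟩
              · rw [h3.1]
                exact h2 (X, f) (by simp)
              · rw [h3.2.1]
                exact h2 (Y, f') (by simp)
            · exact h2 y (by simp [hy])
          · simp [h3.2.2]

/-! ### Formulas and trees -/

/-- tokens with names -/
def ntok (t : ℕ × ℕ) : Tok := (t.1, natName t.2)

def PolyExpr.tree : PolyExpr → Tree
  | .const n => .mk0 (ntok (0, n))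
  | .var i => .mk0 (ntok (1, i))
  | .neg p => .mk1 (ntok (2, 0)) p.tree
  | .add p q => .mk2 (ntok (3, 0)) p.tree q.tree
  | .mul p q => .mk2 (ntok (4, 0)) p.tree q.tree

def Formula.tree : Formula → Tree
  | .eq p q => .mk2 (ntok (5, 0)) p.tree q.tree
  | .lt p q => .mk2 (ntok (6, 0)) p.tree q.tree
  | .le p q => .mk2 (ntok (7, 0)) p.tree q.tree
  | .not φ => .mk1 (ntok (8, 0)) φ.tree
  | .and φ ψ => .mk2 (ntok (9, 0)) φ.tree ψ.tree
  | .or φ ψ => .mk2 (ntok (10, 0)) φ.tree ψ.tree

theorem poly_toks (p : PolyExpr) : p.tree.toks = p.tokens.map ntok := by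
  induction p with
  | const n => rfl
  | var i => rfl
  | neg p ih => simp [PolyExpr.tree, Tree.toks, PolyExpr.tokens, ih]
  | add p q ih ih' => simp [PolyExpr.tree, Tree.toks, PolyExpr.tokens, ih, ih']
  | mul p q ih ih' => simp [PolyExpr.tree, Tree.toks, PolyExpr.tokens, ih, ih']

theorem formula_toks (φ : Formula) : φ.tree.toks = φ.tokens.map ntok := by
  induction φ with
  | eq p q => simp [Formula.tree, Tree.toks, Formula.tokens, poly_toks]
  | lt p q => simp [Formula.tree, Tree.toks, Formula.tokens, poly_toks]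
  | le p q => simp [Formula.tree, Tree.toks, Formula.tokens, poly_toks]
  | not φ ih => simp [Formula.tree, Tree.toks, Formula.tokens, ih]
  | and φ ψ ih ih' => simp [Formula.tree, Tree.toks, Formula.tokens, ih, ih']
  | or φ ψ ih ih' => simp [Formula.tree, Tree.toks, Formula.tokens, ih, ih']

theorem poly_wt (p : PolyExpr) : p.tree.WT false := by
  induction p with
  | const n => exact ⟨by simp [ntok], rfl⟩
  | var i => exact ⟨by simp [ntok], rfl⟩
  | neg p ih => exact ⟨Or.inl rfl, ih, rfl⟩
  | add p q ih ih' => exact ⟨by simp [ntok], by simp [ntok], ih, ih', rfl⟩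
  | mul p q ih ih' => exact ⟨by simp [ntok], by simp [ntok], ih, ih', rfl⟩

theorem formula_wt (φ : Formula) : φ.tree.WT true := by
  induction φ with
  | eq p q => exact ⟨by simp [ntok], by simp [ntok], poly_wt p, poly_wt q, rfl⟩
  | lt p q => exact ⟨by simp [ntok], by simp [ntok], poly_wt p, poly_wt q, rfl⟩
  | le p q => exact ⟨by simp [ntok], by simp [ntok], poly_wt p, poly_wt q, rfl⟩
  | not φ ih => exact ⟨Or.inr rfl, ih, rfl⟩
  | and φ ψ ih ih' => exact ⟨by simp [ntok], by simp [ntok], ih, ih', rfl⟩
  | or φ ψ ih ih' => exact ⟨by simp [ntok], by simp [ntok], ih, ih', rfl⟩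

theorem poly_val (x : Name → ℝ) (p : PolyExpr) :
    p.tree.val x = p.eval (fun n => x (natName n)) := by
  induction p with
  | const n => simp [PolyExpr.tree, Tree.val, tokVal, ntok, PolyExpr.eval, sval_natName]
  | var i => simp [PolyExpr.tree, Tree.val, tokVal, ntok, PolyExpr.eval]
  | neg p ih => simp [PolyExpr.tree, Tree.val, tokVal, ntok, PolyExpr.eval, ih]
  | add p q ih ih' => simp [PolyExpr.tree, Tree.val, tokVal, ntok, PolyExpr.eval, ih, ih']
  | mul p q ih ih' => simp [PolyExpr.tree, Tree.val, tokVal, ntok, PolyExpr.eval, ih, ih']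

open Classical in
theorem formula_val (x : Name → ℝ) (φ : Formula) :
    φ.tree.val x = if φ.Holds (fun n => x (natName n)) then 1 else 0 := by
  induction φ with
  | eq p q => simp [Formula.tree, Tree.val, tokVal, ntok, Formula.Holds, poly_val]
  | lt p q => simp [Formula.tree, Tree.val, tokVal, ntok, Formula.Holds, poly_val]
  | le p q => simp [Formula.tree, Tree.val, tokVal, ntok, Formula.Holds, poly_val]
  | not φ ih =>
    simp only [Formula.tree, Tree.val, tokVal, ntok, Formula.Holds, ih]
    by_cases h : φ.Holds (fun n => x (natName n)) <;> simp [h]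
  | and φ ψ ih ih' =>
    simp only [Formula.tree, Tree.val, tokVal, ntok, Formula.Holds, ih, ih']
    by_cases h : φ.Holds (fun n => x (natName n)) <;>
      by_cases h' : ψ.Holds (fun n => x (natName n)) <;> simp [h, h']
  | or φ ψ ih ih' =>
    simp only [Formula.tree, Tree.val, tokVal, ntok, Formula.Holds, ih, ih']
    by_cases h : φ.Holds (fun n => x (natName n)) <;>
      by_cases h' : ψ.Holds (fun n => x (natName n)) <;> simp [h, h']

/-- valid tokens -/
def okT (t : Tok) : Bool := decide (t.1 ≤ 10) && (okN t.2 && (decide (t.1 < 2) || t.2.isEmpty))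

theorem okT_iff (t : Tok) : okT t = true ↔ t.1 ≤ 10 ∧ okN t.2 = true ∧ (t.1 < 2 ∨ t.2 = []) := by
  simp [okT, Bool.and_eq_true, Bool.or_eq_true]

theorem okT_ntok {t : ℕ × ℕ} (h : t.1 ≤ 10) (h' : 2 ≤ t.1 → t.2 = 0) : okT (ntok t) = true := by
  rw [okT_iff]
  refine ⟨h, okN_natName _, ?_⟩
  by_cases h2 : t.1 < 2
  · exact Or.inl h2
  · right
    simp only [ntok, h' (by omega)]
    rfl

theorem tok_eq_ntok {t : Tok} (h : okT t = true) : t = ntok (t.1, sval t.2) := by
  rw [okT_iff] at h
  obtain ⟨k, w⟩ := t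
  simp only [ntok]
  rw [natName_sval ((okN_iff _).1 h.2.1).1 ((okN_iff _).1 h.2.1).2]

theorem tok_eq_ntok' {t : Tok} (h : okT t = true) (h2 : 2 ≤ t.1) : t = ntok (t.1, 0) := by
  rw [okT_iff] at h
  obtain ⟨k, w⟩ := t
  have h3 : w = [] := h.2.2.resolve_left (by simp only at h2 ⊢; omega)
  rw [h3]
  rfl

theorem exists_poly (T : Tree) : T.WT false → (∀ t ∈ T.toks, okT t = true) →
    ∃ p : PolyExpr, T.toks = p.tokens.map ntok := by
  induction T with
  | mk0 t =>
    intro h hk
    obtain ⟨h1, h2⟩ := h
    have h3 := hk t (by simp [Tree.toks])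
    have h4 := tok_eq_ntok h3
    have h5 : t.1 = 0 ∨ t.1 = 1 := by omega
    rcases h5 with h5 | h5
    · exact ⟨.const (sval t.2), by
        rw [h5] at h4
        rw [Tree.toks, PolyExpr.tokens, List.map_singleton, ← h4]⟩
    · exact ⟨.var (sval t.2), by
        rw [h5] at h4
        rw [Tree.toks, PolyExpr.tokens, List.map_singleton, ← h4]⟩
  | mk1 t X ih =>
    intro h hk
    obtain ⟨h1, h2, h3⟩ := h
    have h4 : t.1 = 2 := by
      rcases h1 with h1 | h1
      · exact h1
      · rw [h1] at h3
        simp [resT] at h3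
    have h5 := tok_eq_ntok' (hk t (by simp [Tree.toks])) (by omega)
    rw [h4] at h5 h2
    obtain ⟨p, hp⟩ := ih h2 (fun t ht => hk t (by simp [Tree.toks, ht]))
    exact ⟨.neg p, by rw [Tree.toks, PolyExpr.tokens, List.map_cons, ← hp, ← h5]⟩
  | mk2 t X Y ih ih' =>
    intro h hk
    obtain ⟨h1, h2, h3, h4, h5⟩ := h
    have h6 : t.1 < 5 := by
      by_contra hc
      rw [resT, decide_eq_true (by omega)] at h5
      simp at h5
    have h7 := tok_eq_ntok' (hk t (by simp [Tree.toks])) (by omega)
    have h8 : argT t.1 = false := by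
      unfold argT
      exact decide_eq_false (by omega)
    rw [h8] at h3 h4
    obtain ⟨p, hp⟩ := ih h3 (fun t ht => hk t (by simp [Tree.toks, ht]))
    obtain ⟨q, hq⟩ := ih' h4 (fun t ht => hk t (by simp [Tree.toks, ht]))
    have h9 : t.1 = 3 ∨ t.1 = 4 := by omega
    rcases h9 with h9 | h9
    · rw [h9] at h7
      exact ⟨.add p q, by
        rw [Tree.toks, PolyExpr.tokens, List.map_cons, List.map_append, ← hp, ← hq, ← h7]⟩
    · rw [h9] at h7
      exact ⟨.mul p q, by
        rw [Tree.toks, PolyExpr.tokens, List.map_cons, List.map_append, ← hp, ← hq, ← h7]⟩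

theorem exists_formula (T : Tree) : T.WT true → (∀ t ∈ T.toks, okT t = true) →
    ∃ φ : Formula, T.toks = φ.tokens.map ntok := by
  induction T with
  | mk0 t =>
    intro h hk
    obtain ⟨h1, h2⟩ := h
    rw [resT, decide_eq_false (by omega)] at h2
    simp at h2
  | mk1 t X ih =>
    intro h hk
    obtain ⟨h1, h2, h3⟩ := h
    have h4 : t.1 = 8 := by
      rcases h1 with h1 | h1
      · rw [h1] at h3
        simp [resT] at h3
      · exact h1
    have h5 := tok_eq_ntok' (hk t (by simp [Tree.toks])) (by omega)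
    rw [h4] at h5 h2
    obtain ⟨p, hp⟩ := ih h2 (fun t ht => hk t (by simp [Tree.toks, ht]))
    exact ⟨.not p, by rw [Tree.toks, Formula.tokens, List.map_cons, ← hp, ← h5]⟩
  | mk2 t X Y ih ih' =>
    intro h hk
    obtain ⟨h1, h2, h3, h4, h5⟩ := h
    have h10 := ((okT_iff t).1 (hk t (by simp [Tree.toks]))).1
    have h6 : 5 ≤ t.1 := by
      by_contra hc
      rw [resT, decide_eq_false (by omega)] at h5
      simp at h5
    have h7 := tok_eq_ntok' (hk t (by simp [Tree.toks])) (by omega)
    by_cases h11 : t.1 < 8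
    · have h8 : argT t.1 = false := by
        unfold argT
        exact decide_eq_false (by omega)
      rw [h8] at h3 h4
      obtain ⟨p, hp⟩ := exists_poly X h3 (fun t ht => hk t (by simp [Tree.toks, ht]))
      obtain ⟨q, hq⟩ := exists_poly Y h4 (fun t ht => hk t (by simp [Tree.toks, ht]))
      have h9 : t.1 = 5 ∨ t.1 = 6 ∨ t.1 = 7 := by omega
      rcases h9 with h9 | h9 | h9
      · rw [h9] at h7
        exact ⟨.eq p q, by
          rw [Tree.toks, Formula.tokens, List.map_cons, List.map_append, ← hp, ← hq, ← h7]⟩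
      · rw [h9] at h7
        exact ⟨.lt p q, by
          rw [Tree.toks, Formula.tokens, List.map_cons, List.map_append, ← hp, ← hq, ← h7]⟩
      · rw [h9] at h7
        exact ⟨.le p q, by
          rw [Tree.toks, Formula.tokens, List.map_cons, List.map_append, ← hp, ← hq, ← h7]⟩
    · have h8 : argT t.1 = true := by
        unfold argT
        exact decide_eq_true (by omega)
      rw [h8] at h3 h4
      obtain ⟨p, hp⟩ := ih h3 (fun t ht => hk t (by simp [Tree.toks, ht]))
      obtain ⟨q, hq⟩ := ih' h4 (fun t ht => hk t (by simp [Tree.toks, ht]))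
      have h9 : t.1 = 9 ∨ t.1 = 10 := by omega
      rcases h9 with h9 | h9
      · rw [h9] at h7
        exact ⟨.and p q, by
          rw [Tree.toks, Formula.tokens, List.map_cons, List.map_append, ← hp, ← hq, ← h7]⟩
      · rw [h9] at h7
        exact ⟨.or p q, by
          rw [Tree.toks, Formula.tokens, List.map_cons, List.map_append, ← hp, ← hq, ← h7]⟩

end Pool.Agent.Hadamard
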